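import Pool.Agent.Q49.EX.D

/-! Frequencies in test sets: perturbation by sets of density zero, law of large numbers, truncated sums. -/

set_option autoImplicit false

namespace Pool.Agent.Q250.CL

open Finset Filter Topology
open Pool.Agent.Q49.AF (RX)
open Pool.Agent.W41.MU
open Pool.Agent.Q49.EX (IsTest Count Sml)
open Pool.Agent.H499R2.ND (Dn cnt Phi)
open scoped Classical

/-- `P` has the frequency `l` in all test sets, with multiplicative weights. -/
def Ind (P : ℕ → Prop) (l : ℝ) : Prop := ∀ (d r k : ℕ) (ε : ℝ), 0 < ε → ∃ N₀ : ℕ, ∀ N : ℕ, N₀ ≤ N →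
  ∀ E : Set ℕ, IsTest d r k E → ∀ g : ℕ → ℂ, MulB g →
    ‖∑ n ∈ Icc 1 N, if n ∈ E then ((if P n then (1 : ℂ) else 0) - l) * g n else 0‖ ≤ ε * N

theorem ind_of {P : ℕ → Prop} {l : ℝ} (h : RX P l) : Ind P l := by
  intro d r k ε hε
  obtain ⟨N0, h0, h1⟩ := h (d + d) r k (min ε 1) (lt_min hε one_pos) (min_le_right _ _)
  refine ⟨N0, fun N hN E hE g hg => ?_⟩
  have H : Sml (d + d) r k N (fun n => (if P n then (1 : ℂ) else 0) - l) (min ε 1) := h1 N hN
  exact (Pool.Agent.Q49.EX.test_of H hE hg).trans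
    (mul_le_mul_of_nonneg_right (min_le_left _ _) (Nat.cast_nonneg _))

theorem count_of {P : ℕ → Prop} {l B : ℝ} {N : ℕ} {E : Set ℕ}
    (h : ‖∑ n ∈ Icc 1 N, if n ∈ E then ((if P n then (1 : ℂ) else 0) - l) * (1 : ℂ) else 0‖ ≤ B) :
    |(Count N P E : ℝ) - l * Count N (fun _ => True) E| ≤ B := by
  rw [Pool.Agent.Q49.EX.count_eq, Pool.Agent.Q49.EX.count_eq, Finset.mul_sum, ← Finset.sum_sub_distrib,
    ← Real.norm_eq_abs, ← Complex.norm_real]
  refine le_trans (le_of_eq ?_) h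
  congr 1
  rw [Complex.ofReal_sum]
  apply Finset.sum_congr rfl; intro n _
  by_cases h2 : n ∈ E
  · by_cases h3 : P n
    · simp [h2, h3]
    · simp [h2, h3]
  · simp [h2]

theorem Ind.count {P : ℕ → Prop} {l : ℝ} (h : Ind P l) (d r k : ℕ) {ε : ℝ} (hε : 0 < ε) : ∃ N₀ : ℕ, ∀ N : ℕ,
    N₀ ≤ N → ∀ E : Set ℕ, IsTest d r k E →
      |(Count N P E : ℝ) - l * Count N (fun _ => True) E| ≤ ε * N := by
  obtain ⟨N0, H⟩ := h d r k ε hε
  exact ⟨N0, fun N hN E hE => count_of (H N hN E hE (fun _ => 1) ⟨fun _ => by simp, fun _ _ _ => by simp⟩)⟩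

theorem cnt_sum (P : ℕ → Prop) (N : ℕ) : cnt P N = ∑ n ∈ Icc 1 N, if P n then (1 : ℝ) else 0 := by
  rw [Pool.Agent.H499R2.ND.cnt_eq, card_filter]
  push_cast
  rfl

/-- sets of density zero do not matter -/
theorem ind_near {P Q : ℕ → Prop} {l : ℝ} (h : Ind P l)
    (hd : Tendsto (fun N : ℕ => cnt (fun n => ¬ (P n ↔ Q n)) N / N) atTop (𝓝 0)) : Ind Q l := by
  intro d r k ε hε
  obtain ⟨N0, H⟩ := h d r k (ε / 2) (by positivity)
  obtain ⟨N1, H1⟩ := eventually_atTop.1 ((tendsto_order.1 hd).2 (ε / 2) (by positivity))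
  refine ⟨N0 + N1 + 1, fun N hN E hE g hg => ?_⟩
  have h1 := H N (by omega) E hE g hg
  have h2 := H1 N (by omega)
  have hN0 : (0 : ℝ) < N := by exact_mod_cast (by omega : 0 < N)
  rw [div_lt_iff₀ hN0] at h2
  have h3 : ‖(∑ n ∈ Icc 1 N, if n ∈ E then ((if Q n then (1 : ℂ) else 0) - l) * g n else 0)
      - ∑ n ∈ Icc 1 N, if n ∈ E then ((if P n then (1 : ℂ) else 0) - l) * g n else 0‖
      ≤ cnt (fun n => ¬ (P n ↔ Q n)) N := by
    rw [← sum_sub_distrib, cnt_sum]
    refine (norm_sum_le _ _).trans (sum_le_sum fun n _ => ?_)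
    by_cases hE' : n ∈ E
    · rw [if_pos hE', if_pos hE', ← sub_mul, norm_mul, sub_sub_sub_cancel_right]
      by_cases hp : P n <;> by_cases hq : Q n <;> simp [hp, hq, hg.1 n]
    · rw [if_neg hE', if_neg hE', sub_zero, norm_zero]
      split_ifs <;> norm_num
  have e : (∑ n ∈ Icc 1 N, if n ∈ E then ((if Q n then (1 : ℂ) else 0) - l) * g n else 0)
      = ((∑ n ∈ Icc 1 N, if n ∈ E then ((if Q n then (1 : ℂ) else 0) - l) * g n else 0)
      - ∑ n ∈ Icc 1 N, if n ∈ E then ((if P n then (1 : ℂ) else 0) - l) * g n else 0)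
      + ∑ n ∈ Icc 1 N, if n ∈ E then ((if P n then (1 : ℂ) else 0) - l) * g n else 0 := by ring
  rw [e]
  refine (norm_add_le _ _).trans ?_
  linarith

theorem cnt_add_le {P Q R : ℕ → Prop} (N : ℕ) (h : ∀ n, 1 ≤ n → n ≤ N → P n → Q n ∨ R n) :
    cnt P N ≤ cnt Q N + cnt R N := by
  rw [cnt_sum, cnt_sum, cnt_sum, ← sum_add_distrib]
  refine sum_le_sum fun n hn => ?_
  rw [mem_Icc] at hn
  by_cases hp : P n
  · rw [if_pos hp]
    rcases h n hn.1 hn.2 hp with hq | hr
    · rw [if_pos hq]; split_ifs <;> norm_num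
    · rw [if_pos hr]; split_ifs <;> norm_num
  · rw [if_neg hp]; split_ifs <;> norm_num

theorem cnt_lt (n₀ N : ℕ) : cnt (fun n => n < n₀) N ≤ n₀ := by
  rw [Pool.Agent.H499R2.ND.cnt_eq]
  have : ((Icc 1 N).filter (fun n => n < n₀)).card ≤ (range n₀).card := by
    apply card_le_card
    intro n hn
    rw [mem_filter] at hn
    exact mem_range.2 hn.2
  rw [card_range] at this
  exact_mod_cast this

/-- LAW OF LARGE NUMBERS from the limit law -/
theorem lln {P : ℕ → Prop} {t : ℕ → ℝ} {κ δ : ℝ} {s : ℕ → ℝ} (hδ0 : 0 < δ) (hδ1 : δ ≤ 1) (hP : Dn P δ)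
    (hlaw : ∀ x : ℝ, Dn (fun n => P n ∧ t n ≤ κ * Real.log n + x * s n) (δ * Phi x))
    (hs : ∀ η : ℝ, 0 < η → ∀ x : ℝ, ∀ᶠ n : ℕ in atTop, |x * s n| ≤ η * Real.log n) {η : ℝ} (hη : 0 < η) :
    Tendsto (fun N : ℕ => cnt (fun n => P n ∧ η * Real.log n < |t n - κ * Real.log n|) N / N) atTop (𝓝 0) := by
  have hup := ProbabilityTheory.tendsto_cdf_atTop (ProbabilityTheory.gaussianReal 0 1)
  have hlo := ProbabilityTheory.tendsto_cdf_atBot (ProbabilityTheory.gaussianReal 0 1)
  rw [Metric.tendsto_atTop]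
  intro ε hε
  obtain ⟨x, hx⟩ := (hup.eventually (lt_mem_nhds (by linarith : (1 : ℝ) - ε / 8 < 1))).exists
  obtain ⟨y, hy⟩ := (hlo.eventually (gt_mem_nhds (by linarith : (0 : ℝ) < ε / 8))).exists
  rw [← Pool.Agent.H499R2.ND.phi_cdf] at hx hy
  obtain ⟨n₀, hn₀⟩ := eventually_atTop.1 ((hs (η / 2) (by positivity) x).and ((hs (η / 2) (by positivity) y).and
    (eventually_ge_atTop 2)))
  have l1 := hlaw x
  have l2 := hlaw y
  unfold Dn at hP l1 l2
  rw [Metric.tendsto_atTop] at hP l1 l2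
  obtain ⟨N1, h1⟩ := hP (ε / 8) (by positivity)
  obtain ⟨N2, h2⟩ := l1 (ε / 8) (by positivity)
  obtain ⟨N3, h3⟩ := l2 (ε / 8) (by positivity)
  obtain ⟨N4, h4⟩ := exists_nat_gt (8 * (n₀ : ℝ) / ε)
  refine ⟨N1 + N2 + N3 + N4 + 1, fun N hN => ?_⟩
  have hN0 : (0 : ℝ) < N := by exact_mod_cast (by omega : 0 < N)
  have a1 := h1 N (by omega)
  have a2 := h2 N (by omega)
  have a3 := h3 N (by omega)
  rw [Real.dist_eq, abs_lt] at a1 a2 a3
  have a4 : (n₀ : ℝ) / N < ε / 8 := by
    have h5 : (N4 : ℝ) ≤ N := by exact_mod_cast (by omega : N4 ≤ N)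
    have h6 : 8 * (n₀ : ℝ) / ε < N := lt_of_lt_of_le h4 h5
    rw [div_lt_iff₀ hε] at h6
    rw [div_lt_iff₀ hN0]
    linarith
  -- the exceptions
  have b1 : cnt (fun n => P n ∧ η * Real.log n < |t n - κ * Real.log n|) N + cnt (fun n => P n ∧ t n ≤ κ * Real.log n + x * s n) N
      ≤ cnt P N + cnt (fun n => P n ∧ t n ≤ κ * Real.log n + y * s n) N + n₀ := by
    have c1 := cnt_lt n₀ N
    refine le_trans ?_ (add_le_add_right c1 _)
    rw [cnt_sum, cnt_sum, cnt_sum, cnt_sum, cnt_sum, ← sum_add_distrib, ← sum_add_distrib, ← sum_add_distrib]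
    refine sum_le_sum fun n hn => ?_
    by_cases hp : P n
    · by_cases hn0 : n < n₀
      · rw [if_pos hp, if_pos hn0]
        split_ifs <;> norm_num
      · obtain ⟨g1, g2, g3⟩ := hn₀ n (not_lt.1 hn0)
        have hlog : 0 < Real.log n := Real.log_pos (by exact_mod_cast (by omega : 1 < n))
        rw [abs_le] at g1 g2
        by_cases hb : η * Real.log n < |t n - κ * Real.log n|
        · rcases lt_abs.1 hb with hb' | hb'
          · have c2 : ¬ (t n ≤ κ * Real.log n + x * s n) := by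
              intro hc
              nlinarith
            rw [if_pos ⟨hp, hb⟩, if_neg (fun h => c2 h.2), if_pos hp]
            split_ifs <;> norm_num
          · have c2 : t n ≤ κ * Real.log n + y * s n := by nlinarith
            rw [if_pos ⟨hp, hb⟩, if_pos hp, if_pos (c := P n ∧ t n ≤ κ * Real.log n + y * s n) ⟨hp, c2⟩]
            split_ifs <;> norm_num
        · rw [if_neg (fun h => hb h.2), if_pos hp]
          split_ifs <;> norm_num
    · rw [if_neg (fun h => hp h.1), if_neg (fun h => hp h.1), if_neg hp, if_neg (fun h => hp h.1)]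
      split_ifs <;> norm_num
  have b2 : cnt (fun n => P n ∧ η * Real.log n < |t n - κ * Real.log n|) N / N ≤
      cnt P N / N + cnt (fun n => P n ∧ t n ≤ κ * Real.log n + y * s n) N / N + n₀ / N
        - cnt (fun n => P n ∧ t n ≤ κ * Real.log n + x * s n) N / N := by
    rw [← add_div, ← add_div, ← sub_div]
    exact div_le_div_of_nonneg_right (by linarith) hN0.le
  have b3 : 0 ≤ cnt (fun n => P n ∧ η * Real.log n < |t n - κ * Real.log n|) N / N :=
    div_nonneg (Pool.Agent.H499R2.ND.cntn_nonneg _ _) hN0.le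
  rw [Real.dist_eq, sub_zero, abs_of_nonneg b3]
  have b4 : δ * (1 - ε / 8) ≤ δ * Phi x := mul_le_mul_of_nonneg_left hx.le hδ0.le
  have b5 : δ * Phi y ≤ 1 * (ε / 8) := by
    refine mul_le_mul hδ1 hy.le ?_ one_pos.le
    rw [Pool.Agent.H499R2.ND.phi_cdf]
    exact ProbabilityTheory.cdf_nonneg _ _
  have b6 : δ * (ε / 8) ≤ 1 * (ε / 8) := mul_le_mul_of_nonneg_right hδ1 (by positivity)
  nlinarith [a1.2, a2.1, a3.2]

/-- TRUNCATED SUMS over test sets -/
theorem trunc {P : ℕ → Prop} {t : ℕ → ℝ} {κ δ : ℝ} (hκ : 0 < κ) (ht : ∀ n, 0 ≤ t n) (hI : Ind P δ)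
    (hl : ∀ η : ℝ, 0 < η →
      Tendsto (fun N : ℕ => cnt (fun n => P n ∧ η * Real.log n < |t n - κ * Real.log n|) N / N) atTop (𝓝 0))
    {Λ : ℝ} (hΛ : κ < Λ) (d r k : ℕ) {ε : ℝ} (hε : 0 < ε) : ∃ N₀ : ℕ, ∀ N : ℕ, N₀ ≤ N →
      ∀ E : Set ℕ, IsTest d r k E →
        |(∑ n ∈ Icc 1 N, if n ∈ E ∧ P n ∧ t n ≤ Λ * Real.log N then t n else 0)
          - δ * κ * Real.log N * Count N (fun _ => True) E| ≤ ε * (N * Real.log N) := by
  set M : ℝ := Λ + κ + 1 with hM
  have hM0 : 0 < M := by linarith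
  set η : ℝ := min (min (ε / (8 * M)) (1 / 2)) (Λ - κ) with hη
  have hη0 : 0 < η := by
    rw [hη]
    exact lt_min (lt_min (by positivity) (by norm_num)) (by linarith)
  have hη1 : η ≤ ε / (8 * M) := (min_le_left _ _).trans (min_le_left _ _)
  have hη2 : η ≤ 1 / 2 := (min_le_left _ _).trans (min_le_right _ _)
  have hη3 : η ≤ Λ - κ := min_le_right _ _
  obtain ⟨N1, h1⟩ := hI.count d r k (show 0 < ε / (4 * M) by positivity)
  obtain ⟨N2, h2⟩ := eventually_atTop.1 ((tendsto_order.1 (hl η hη0)).2 η hη0)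
  have hlt : Tendsto (fun n : ℕ => Real.log (n : ℝ)) atTop atTop :=
    Real.tendsto_log_atTop.comp tendsto_natCast_atTop_atTop
  obtain ⟨N3, h3⟩ := eventually_atTop.1 (hlt.eventually_ge_atTop (max 1 (8 * κ * (-Real.log η) / ε)))
  refine ⟨N1 + N2 + N3 + 2, fun N hN E hE => ?_⟩
  have hN0 : (0 : ℝ) < N := by exact_mod_cast (by omega : 0 < N)
  have hL := h3 N (by omega)
  set L := Real.log (N : ℝ) with hLdef
  have hL1 : 1 ≤ L := (le_max_left _ _).trans hL
  have hL2 : 8 * κ * (-Real.log η) / ε ≤ L := (le_max_right _ _).trans hL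
  have hlogη : 0 ≤ -Real.log η := by
    have := Real.log_nonpos hη0.le (by linarith)
    linarith
  have hL3 : κ * (-Real.log η) ≤ ε / 8 * L := by
    rw [div_le_iff₀ hε] at hL2
    linarith
  have a1 := h1 N (by omega) E hE
  have a2 := h2 N (by omega)
  rw [div_lt_iff₀ hN0] at a2
  -- pointwise comparison
  have key : ∀ n ∈ Icc 1 N, |(if n ∈ E ∧ P n ∧ t n ≤ Λ * L then t n else 0)
      - (if n ∈ E then (if P n then κ * L else 0) else 0)|
      ≤ M * L * ((if (n : ℝ) < η * N then (1 : ℝ) else 0)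
        + (if P n ∧ η * Real.log n < |t n - κ * Real.log n| then (1 : ℝ) else 0)) + (η * L + ε / 8 * L) := by
    intro n hn
    rw [mem_Icc] at hn
    have hn1 : (1 : ℝ) ≤ n := by exact_mod_cast hn.1
    have hnN : (n : ℝ) ≤ N := by exact_mod_cast hn.2
    have hpos : 0 ≤ η * L + ε / 8 * L := by positivity
    have hML : 0 ≤ M * L := by positivity
    have hx : ∀ (b : Prop) [Decidable b], (0 : ℝ) ≤ (if b then (1 : ℝ) else 0) := fun b _ => by
      split_ifs <;> norm_num
    by_cases hE' : n ∈ E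
    · by_cases hp : P n
      · have hcrude : |(if n ∈ E ∧ P n ∧ t n ≤ Λ * L then t n else 0)
            - (if n ∈ E then (if P n then κ * L else 0) else 0)| ≤ M * L := by
          rw [if_pos hE', if_pos hp]
          have c0 : 0 ≤ κ * L := by positivity
          have c1 : 0 ≤ Λ * L := by
            have : 0 ≤ Λ := by linarith
            positivity
          have c2 : M * L = Λ * L + κ * L + L := by rw [hM]; ring
          split_ifs with hc
          · rw [abs_le]
            constructor <;> linarith [ht n, hc.2.2]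
          · rw [abs_le]
            constructor <;> linarith
        by_cases hb1 : (n : ℝ) < η * N
        · rw [if_pos hb1]
          have := mul_nonneg hML (hx (P n ∧ η * Real.log n < |t n - κ * Real.log n|))
          rw [mul_add, mul_one]
          linarith
        · by_cases hb2 : P n ∧ η * Real.log n < |t n - κ * Real.log n|
          · rw [if_neg hb1, if_pos hb2]
            linarith
          · -- the regular case
            have c3 : |t n - κ * Real.log n| ≤ η * Real.log n := not_lt.1 (fun h => hb2 ⟨hp, h⟩)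
            have c4 : Real.log n ≤ L := Real.log_le_log (by linarith) hnN
            have c5 : L + Real.log η ≤ Real.log n := by
              rw [hLdef, add_comm, ← Real.log_mul hη0.ne' hN0.ne']
              exact Real.log_le_log (by positivity) (not_lt.1 hb1)
            have c6 : 0 ≤ Real.log n := Real.log_nonneg hn1
            rw [abs_le] at c3
            have c7 : t n ≤ Λ * L := by nlinarith
            have c8 : κ * (L - Real.log n) ≤ κ * (-Real.log η) := mul_le_mul_of_nonneg_left (by linarith) hκ.le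
            have c9 : 0 ≤ κ * (L - Real.log n) := mul_nonneg hκ.le (by linarith)
            have c10 : η * Real.log n ≤ η * L := mul_le_mul_of_nonneg_left c4 hη0.le
            rw [if_pos ⟨hE', hp, c7⟩, if_pos hE', if_pos hp, if_neg hb1, if_neg hb2]
            rw [add_zero, mul_zero, zero_add, abs_le]
            constructor <;> nlinarith
      · rw [if_neg (fun h => hp h.2.1), if_pos hE', if_neg hp, sub_zero, abs_zero]
        have d1 := hx ((n : ℝ) < η * N)
        have d2 := hx (P n ∧ η * Real.log n < |t n - κ * Real.log n|)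
        positivity
    · rw [if_neg (fun h => hE' h.1), if_neg hE', sub_zero, abs_zero]
      have d1 := hx ((n : ℝ) < η * N)
      have d2 := hx (P n ∧ η * Real.log n < |t n - κ * Real.log n|)
      positivity
  have b1 : |(∑ n ∈ Icc 1 N, if n ∈ E ∧ P n ∧ t n ≤ Λ * L then t n else 0)
      - κ * L * Count N P E| ≤ M * L * (η * N + η * N) + N * (η * L + ε / 8 * L) := by
    have e1 : κ * L * (Count N P E : ℝ) = ∑ n ∈ Icc 1 N, if n ∈ E then (if P n then κ * L else 0) else 0 := by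
      rw [Pool.Agent.Q49.EX.count_eq, mul_sum]
      apply sum_congr rfl; intro n _
      by_cases h5 : n ∈ E <;> by_cases h6 : P n <;> simp [h5, h6]
    rw [e1, ← sum_sub_distrib]
    refine (abs_sum_le_sum_abs _ _).trans ((sum_le_sum key).trans ?_)
    rw [sum_add_distrib, ← mul_sum, sum_add_distrib, sum_const, Nat.card_Icc, Nat.add_sub_cancel, nsmul_eq_mul]
    have f1 : ∑ n ∈ Icc 1 N, (if (n : ℝ) < η * N then (1 : ℝ) else 0) ≤ η * N := by
      rw [← sum_filter, sum_const, nsmul_eq_mul, mul_one]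
      have : ((Icc 1 N).filter (fun n : ℕ => (n : ℝ) < η * N)).card ≤ ⌊η * N⌋₊ := by
        rw [← Nat.add_sub_cancel (n := ⌊η * (N : ℝ)⌋₊) (m := 1), ← Nat.card_Icc]
        apply card_le_card
        intro n hn
        rw [mem_filter, mem_Icc] at hn
        rw [mem_Icc]
        exact ⟨hn.1.1, Nat.le_floor hn.2.le⟩
      calc (((Icc 1 N).filter (fun n : ℕ => (n : ℝ) < η * N)).card : ℝ) ≤ (⌊η * (N : ℝ)⌋₊ : ℝ) := by exact_mod_cast this
        _ ≤ η * N := Nat.floor_le (by positivity)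
    have f2 : ∑ n ∈ Icc 1 N, (if P n ∧ η * Real.log n < |t n - κ * Real.log n| then (1 : ℝ) else 0) ≤ η * N := by
      refine le_trans (le_of_eq ?_) a2.le
      rw [cnt_sum]
      exact sum_congr rfl fun n _ => by split_ifs <;> rfl
    have f3 : 0 ≤ M * L := by positivity
    nlinarith [mul_le_mul_of_nonneg_left (add_le_add f1 f2) f3]
  have b2 : |κ * L * (Count N P E : ℝ) - δ * κ * L * Count N (fun _ => True) E| ≤ κ * L * (ε / (4 * M) * N) := by
    have e2 : κ * L * (Count N P E : ℝ) - δ * κ * L * Count N (fun _ => True) E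
        = κ * L * ((Count N P E : ℝ) - δ * Count N (fun _ => True) E) := by ring
    rw [e2, abs_mul, abs_of_pos (by positivity : 0 < κ * L)]
    exact mul_le_mul_of_nonneg_left a1 (by positivity)
  have b3 : κ * L * (ε / (4 * M) * N) ≤ ε / 4 * (N * L) := by
    have : κ * (ε / (4 * M)) ≤ ε / 4 := by
      have e3 : ε / 4 = M * (ε / (4 * M)) := by field_simp
      rw [e3]
      exact mul_le_mul_of_nonneg_right (by linarith) (by positivity)
    calc κ * L * (ε / (4 * M) * N) = κ * (ε / (4 * M)) * (N * L) := by ring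
      _ ≤ ε / 4 * (N * L) := mul_le_mul_of_nonneg_right this (by positivity)
  have b4 : M * L * (η * N + η * N) ≤ ε / 4 * (N * L) := by
    have : M * η ≤ ε / 8 := by
      calc M * η ≤ M * (ε / (8 * M)) := mul_le_mul_of_nonneg_left hη1 hM0.le
        _ = ε / 8 := by field_simp
    calc M * L * (η * N + η * N) = 2 * (M * η) * (N * L) := by ring
      _ ≤ 2 * (ε / 8) * (N * L) := mul_le_mul_of_nonneg_right (by linarith) (by positivity)
      _ = ε / 4 * (N * L) := by ring
  have b5 : (N : ℝ) * (η * L + ε / 8 * L) ≤ ε / 4 * (N * L) := by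
    have : η ≤ ε / 8 := by
      refine hη1.trans ?_
      apply div_le_div_of_nonneg_left hε.le (by norm_num)
      linarith
    calc (N : ℝ) * (η * L + ε / 8 * L) = (η + ε / 8) * (N * L) := by ring
      _ ≤ (ε / 8 + ε / 8) * (N * L) := mul_le_mul_of_nonneg_right (by linarith) (by positivity)
      _ = ε / 4 * (N * L) := by ring
  rw [abs_le] at b1 b2 ⊢
  have b6 : 0 ≤ ε * (N * L) := by positivity
  constructor <;> nlinarith [b1.1, b1.2, b2.1, b2.2]

/-- a sequence of test sets with almost no exceptions forces the density one -/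
theorem suff {P : ℕ → Prop} {δ : ℝ} (hδ1 : δ ≤ 1) (hI : Ind P δ) {d r k : ℕ} {E : ℕ → Set ℕ}
    (hE : ∀ N, IsTest d r k (E N)) {κ : ℝ} {ψ : ℕ → ℝ} (hκ : 0 < κ) (hψ : Tendsto ψ atTop (𝓝 0))
    (h : ∃ᶠ N : ℕ in atTop, κ * N ≤ Count N (fun _ => True) (E N) ∧
        (Count N (fun n => ¬ P n) (E N) : ℝ) ≤ ψ N * N) : δ = 1 := by
  by_contra hcon
  have hδ : 0 < 1 - δ := by
    rcases hδ1.lt_or_eq with h6 | h6
    · linarith
    · exact absurd h6 hcon
  obtain ⟨N0, H⟩ := hI.count d r k (show 0 < (1 - δ) * κ / 2 by positivity)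
  have h6 : ∀ᶠ N : ℕ in atTop, ψ N < (1 - δ) * κ / 2 := (tendsto_order.1 hψ).2 _ (by positivity)
  obtain ⟨N, ⟨h7, h8⟩, h9, h10⟩ := (h.and_eventually (h6.and (eventually_ge_atTop (N0 + 1)))).exists
  have hNp : (0 : ℝ) < N := by exact_mod_cast (by omega : 0 < N)
  have h11 := (abs_le.1 (H N (by omega) (E N) (hE N))).2
  have h12 : (Count N (fun _ => True) (E N) : ℝ) = Count N P (E N) + Count N (fun n => ¬ P n) (E N) := by
    rw [Pool.Agent.Q49.EX.count_eq, Pool.Agent.Q49.EX.count_eq, Pool.Agent.Q49.EX.count_eq, ← sum_add_distrib]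
    apply sum_congr rfl; intro n _
    by_cases h13 : n ∈ E N <;> by_cases h14 : P n <;> simp [h13, h14]
  have h15 : ψ N * N < (1 - δ) * κ / 2 * N := mul_lt_mul_of_pos_right h9 hNp
  have h16 : (1 - δ) * (κ * N) ≤ (1 - δ) * Count N (fun _ => True) (E N) :=
    mul_le_mul_of_nonneg_left h7 hδ.le
  linarith

/-- bounds above the mean -/
theorem dz_above {P : ℕ → Prop} {t : ℕ → ℝ} {κ : ℝ}
    (hl : ∀ η : ℝ, 0 < η →
      Tendsto (fun N : ℕ => cnt (fun n => P n ∧ η * Real.log n < |t n - κ * Real.log n|) N / N) atTop (𝓝 0))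
    {F : ℕ → ℝ} (hF : ∃ K : ℝ, κ < K ∧ ∀ᶠ n : ℕ in atTop, K * Real.log n ≤ F n) :
    Tendsto (fun N : ℕ => cnt (fun n => ¬ (P n ↔ (P n ∧ t n ≤ F n))) N / N) atTop (𝓝 0) := by
  obtain ⟨K, hK, hF⟩ := hF
  obtain ⟨n₀, hn₀⟩ := eventually_atTop.1 hF
  refine squeeze_zero' (Eventually.of_forall fun N => div_nonneg (Pool.Agent.H499R2.ND.cntn_nonneg _ _) (Nat.cast_nonneg _))
    (g := fun N : ℕ => cnt (fun n => P n ∧ (K - κ) * Real.log n < |t n - κ * Real.log n|) N / N
      + (n₀ : ℝ) / N) (Eventually.of_forall fun N => ?_) ?_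
  · rw [← add_div]
    refine div_le_div_of_nonneg_right ?_ (Nat.cast_nonneg _)
    refine (cnt_add_le (R := fun n => n < n₀) N fun n _ _ h => ?_).trans (by gcongr; exact cnt_lt n₀ N)
    by_cases hn : n < n₀
    · exact Or.inr hn
    · left
      have hfin : P n := by
        by_contra hf
        exact h ⟨fun h' => absurd h' hf, fun h' => h'.1⟩
      refine ⟨hfin, ?_⟩
      have h6 : ¬ (t n ≤ F n) := fun h' => h ⟨fun _ => ⟨hfin, h'⟩, fun h' => h'.1⟩
      have h7 := hn₀ n (not_lt.1 hn)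
      refine lt_of_lt_of_le ?_ (le_abs_self _)
      linarith [not_le.1 h6]
  · have := (hl (K - κ) (by linarith)).add (tendsto_const_div_atTop_nhds_zero_nat (n₀ : ℝ))
    simpa using this

/-- bounds below the mean -/
theorem dz_below {P : ℕ → Prop} {t : ℕ → ℝ} {κ : ℝ}
    (hl : ∀ η : ℝ, 0 < η →
      Tendsto (fun N : ℕ => cnt (fun n => P n ∧ η * Real.log n < |t n - κ * Real.log n|) N / N) atTop (𝓝 0))
    {F : ℕ → ℝ} (hF : ∃ K : ℝ, K < κ ∧ ∀ᶠ n : ℕ in atTop, F n ≤ K * Real.log n) :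
    Tendsto (fun N : ℕ => cnt (fun n => ¬ (False ↔ (P n ∧ t n ≤ F n))) N / N) atTop (𝓝 0) := by
  obtain ⟨K, hK, hF⟩ := hF
  obtain ⟨n₀, hn₀⟩ := eventually_atTop.1 (hF.and (eventually_ge_atTop 2))
  refine squeeze_zero' (Eventually.of_forall fun N => div_nonneg (Pool.Agent.H499R2.ND.cntn_nonneg _ _) (Nat.cast_nonneg _))
    (g := fun N : ℕ => cnt (fun n => P n ∧ (κ - K) / 2 * Real.log n < |t n - κ * Real.log n|) N / N
      + (n₀ : ℝ) / N) (Eventually.of_forall fun N => ?_) ?_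
  · rw [← add_div]
    refine div_le_div_of_nonneg_right ?_ (Nat.cast_nonneg _)
    refine (cnt_add_le (R := fun n => n < n₀) N fun n _ _ h => ?_).trans (by gcongr; exact cnt_lt n₀ N)
    by_cases hn : n < n₀
    · exact Or.inr hn
    · left
      have h6 : P n ∧ t n ≤ F n := by
        by_contra hf
        exact h ⟨fun h' => h'.elim, fun h' => hf h'⟩
      obtain ⟨h7, h8⟩ := hn₀ n (not_lt.1 hn)
      have hlog : 0 < Real.log n := Real.log_pos (by exact_mod_cast (by omega : 1 < n))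
      refine ⟨h6.1, ?_⟩
      rw [abs_sub_comm]
      refine lt_of_lt_of_le ?_ (le_abs_self _)
      nlinarith [h6.2]
  · have := (hl ((κ - K) / 2) (by linarith)).add (tendsto_const_div_atTop_nhds_zero_nat (n₀ : ℝ))
    simpa using this

/-- the typical size -/
theorem dz_typ {P : ℕ → Prop} {t : ℕ → ℝ} {κ : ℝ}
    (hl : ∀ η : ℝ, 0 < η →
      Tendsto (fun N : ℕ => cnt (fun n => P n ∧ η * Real.log n < |t n - κ * Real.log n|) N / N) atTop (𝓝 0))
    {η : ℝ} (hη : 0 < η) :
    Tendsto (fun N : ℕ => cnt (fun n => ¬ (P n ↔ (P n ∧ |t n - κ * Real.log n| ≤ η * Real.log n))) N / N) atTop (𝓝 0) := by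
  refine squeeze_zero' (Eventually.of_forall fun N => div_nonneg (Pool.Agent.H499R2.ND.cntn_nonneg _ _) (Nat.cast_nonneg _))
    (Eventually.of_forall fun N => ?_) (hl η hη)
  refine div_le_div_of_nonneg_right ?_ (Nat.cast_nonneg _)
  refine Pool.Agent.H499R2.ND.cnt_mono N fun n _ _ h => ?_
  have hfin : P n := by
    by_contra hf
    exact h ⟨fun h' => absurd h' hf, fun h' => h'.1⟩
  exact ⟨hfin, not_le.1 fun h' => h ⟨fun _ => ⟨hfin, h'⟩, fun h' => h'.1⟩⟩

/-- a bound which is large compared with the logarithm -/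
theorem log_small (K : ℝ) : ∀ᶠ n : ℕ in atTop, K * Real.log n ≤ n := by
  have h6 := Real.isLittleO_log_id_atTop.bound (c := 1 / (|K| + 1)) (by positivity)
  have h7 := tendsto_natCast_atTop_atTop (R := ℝ) |>.eventually h6
  filter_upwards [h7, eventually_ge_atTop 1] with n h8 h9
  have hn : (0 : ℝ) < n := by exact_mod_cast h9
  rw [Real.norm_eq_abs, Real.norm_eq_abs, id, abs_of_pos hn, div_mul_eq_mul_div, one_mul,
    le_div_iff₀ (by positivity)] at h8
  have h10 : 0 ≤ |Real.log (n : ℝ)| := abs_nonneg _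
  have h11 : K * Real.log n ≤ |K| * |Real.log n| := by
    rw [← abs_mul]; exact le_abs_self _
  nlinarith

theorem sqrt_small (c : ℝ) {η : ℝ} (hη : 0 < η) (x : ℝ) : ∀ᶠ n : ℕ in atTop,
    |x * (c * Real.sqrt (2 * Real.log n / Real.log (4 / 3) ^ 3))| ≤ η * Real.log n := by
  have hL : 0 < Real.log (4 / 3) := Real.log_pos (by norm_num)
  set A := 2 / Real.log (4 / 3) ^ 3 with hA
  have hA0 : 0 < A := by positivity
  set M := |x * c| with hM
  have hM0 : 0 ≤ M := abs_nonneg _
  have ht : Tendsto (fun n : ℕ => Real.log (n : ℝ)) atTop atTop :=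
    Real.tendsto_log_atTop.comp tendsto_natCast_atTop_atTop
  filter_upwards [ht.eventually_ge_atTop (M ^ 2 * A / η ^ 2), ht.eventually_ge_atTop 0] with n h1 h2
  set t := Real.log (n : ℝ) with htt
  have h3 : 2 * t / Real.log (4 / 3) ^ 3 = A * t := by rw [hA]; ring
  rw [h3, ← mul_assoc, abs_mul, abs_of_nonneg (Real.sqrt_nonneg _), ← hM]
  have h5 : M * Real.sqrt (A * t) = Real.sqrt (M ^ 2 * (A * t)) := by
    rw [Real.sqrt_mul (sq_nonneg M) (A * t), Real.sqrt_sq hM0]
  rw [h5]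
  apply Real.sqrt_le_iff.2
  refine ⟨by positivity, ?_⟩
  rw [div_le_iff₀ (by positivity)] at h1
  nlinarith

theorem ind_false : Ind (fun _ => False) 0 := by
  intro d r k ε hε
  refine ⟨0, fun N _ E _ g _ => ?_⟩
  simp only [if_false, Complex.ofReal_zero, sub_zero, zero_mul, ite_self, sum_const_zero, norm_zero]
  positivity

end Pool.Agent.Q250.CL
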