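import Pool.Agent.Q250.CL.Base
import Pool.Agent.Y964.LW.C4

/-! The laws of large numbers for the total stopping times. -/

set_option autoImplicit false

namespace Pool.Agent.Q250.CL

open Finset Filter Topology
open Pool.Agent.H499R2.ND (Dn cnt Tn CC BasC Phi phi_cdf)
open Pool.Agent.H499R2.LT (Dn_iff law_one law_oneC odn)
open scoped Classical

/-- the first time -/
noncomputable def fst (f : ℕ → ℕ) (n : ℕ) : ℕ := sInf {k : ℕ | f^[k] n = 1}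

theorem fst_spec {f : ℕ → ℕ} {n : ℕ} (h : ∃ k, f^[k] n = 1) : f^[fst f n] n = 1 ∧ ∀ j < fst f n, f^[j] n ≠ 1 :=
  ⟨Nat.sInf_mem (s := {k : ℕ | f^[k] n = 1}) h, fun _ hj h' => Nat.notMem_of_lt_sInf hj h'⟩

theorem fst_eq {f : ℕ → ℕ} {n t : ℕ} (h : f^[t] n = 1) (h' : ∀ j < t, f^[j] n ≠ 1) : fst f n = t := by
  obtain ⟨h1, h2⟩ := fst_spec ⟨t, h⟩
  rcases lt_trichotomy (fst f n) t with h3 | h3 | h3
  · exact absurd h1 (h' _ h3)
  · exact h3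
  · exact absurd h (h2 _ h3)

theorem reach_C (n : ℕ) : (∃ k : ℕ, Tn^[k] n = 1) ↔ ∃ k : ℕ, CC^[k] n = 1 := BasC n

/-- the property of reaching `1` -/
theorem reach_inv (n : ℕ) (hn : 1 ≤ n) : (∃ k : ℕ, Tn^[k] n = 1) ↔ ∃ k : ℕ, Tn^[k] (Tn n) = 1 := by
  constructor
  · rintro ⟨k, hk⟩
    cases k with
    | zero =>
      refine ⟨1, ?_⟩
      have : n = 1 := hk
      subst this
      rfl
    | succ k => exact ⟨k, by rwa [Function.iterate_succ_apply] at hk⟩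
  · rintro ⟨k, hk⟩
    exact ⟨k + 1, by rw [Function.iterate_succ_apply]; exact hk⟩

/-- the law of large numbers for the shortcut map -/
theorem lln_T : ∃ δ : ℝ, 0 < δ ∧ δ ≤ 1 ∧ (δ = 1 ↔ ∀ n : ℕ, 1 ≤ n → ∃ k : ℕ, Tn^[k] n = 1) ∧
    Dn (fun n => ∃ k : ℕ, Tn^[k] n = 1) δ ∧
    ∀ η : ℝ, 0 < η → Tendsto (fun N : ℕ =>
      cnt (fun n => (∃ k : ℕ, Tn^[k] n = 1) ∧
        η * Real.log n < |(fst Tn n : ℝ) - 2 / Real.log (4 / 3) * Real.log n|) N / N) atTop (𝓝 0) := by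
  obtain ⟨δ, h0, h1, h2, h3, h4⟩ := law_one
  refine ⟨δ, h0, h1, h2, h3, fun η hη => ?_⟩
  refine lln (κ := 2 / Real.log (4 / 3)) (s := fun n => Real.log 3 * Real.sqrt (2 * Real.log n / Real.log (4 / 3) ^ 3))
    h0 h1 h3 (fun x => ?_) (fun η hη x => sqrt_small _ hη x) hη
  have h6 := (h4 1 0 0 le_rfl).2 x
  have e : δ * ProbabilityTheory.cdf (ProbabilityTheory.gaussianReal 0 1) x / ((1 : ℕ) : ℝ) ^ 2 = δ * Phi x := by
    rw [phi_cdf]; simp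
  rw [e] at h6
  refine Dn_iff (fun n _ => ?_) h6
  constructor
  · rintro ⟨k, g1, ⟨g2, g3⟩, -⟩
    refine ⟨⟨k, g2⟩, ?_⟩
    rw [fst_eq g2 g3]; exact g1
  · rintro ⟨g1, g2⟩
    exact ⟨fst Tn n, g2, fst_spec g1, by simp [Int.modEq_one], by simp [Int.modEq_one]⟩

/-- the law of large numbers for the Collatz function -/
theorem lln_C : ∃ δ : ℝ, 0 < δ ∧ δ ≤ 1 ∧ (δ = 1 ↔ ∀ n : ℕ, 1 ≤ n → ∃ k : ℕ, CC^[k] n = 1) ∧
    Dn (fun n => ∃ k : ℕ, CC^[k] n = 1) δ ∧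
    ∀ η : ℝ, 0 < η → Tendsto (fun N : ℕ =>
      cnt (fun n => (∃ k : ℕ, CC^[k] n = 1) ∧
        η * Real.log n < |(fst CC n : ℝ) - 3 / Real.log (4 / 3) * Real.log n|) N / N) atTop (𝓝 0) := by
  obtain ⟨δ, h0, h1, h2, h3, h4⟩ := law_oneC
  refine ⟨δ, h0, h1, h2, h3, fun η hη => ?_⟩
  refine lln (κ := 3 / Real.log (4 / 3)) (s := fun n => Real.log 6 * Real.sqrt (2 * Real.log n / Real.log (4 / 3) ^ 3))
    h0 h1 h3 (fun x => ?_) (fun η hη x => sqrt_small _ hη x) hη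
  have h6 := h4 1 0 0 le_rfl x
  have e : δ * ProbabilityTheory.cdf (ProbabilityTheory.gaussianReal 0 1) x / ((1 : ℕ) : ℝ) ^ 2 = δ * Phi x := by
    rw [phi_cdf]; simp
  rw [e] at h6
  refine Dn_iff (fun n _ => ?_) h6
  constructor
  · rintro ⟨k, g1, ⟨g2, g3⟩, -⟩
    refine ⟨⟨k, g2⟩, ?_⟩
    rw [fst_eq g2 g3]; exact g1
  · rintro ⟨g1, g2⟩
    exact ⟨fst CC n, g2, fst_spec g1, by simp [Int.modEq_one], by simp [Int.modEq_one]⟩

end Pool.Agent.Q250.CL
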