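import Pool.Agent.Q250.CL.War
import Pool.Agent.W36.JL.J8

/-! The Fourier coefficients of the level sets of the total stopping time. -/

set_option autoImplicit false

namespace Pool.Agent.Q250.CL

open Finset Filter Topology
open Pool.Agent.H499R2.ND (Dn cnt Tn Phi)
open Pool.Agent.W36.JL (EB SX bd fou_all lawE bal_nat)
open scoped Classical

theorem fu_level {δ : ℝ} (h0 : 0 < δ) (h1 : δ ≤ 1) {m : ℕ} (hm : 1 ≤ m) (a : ℤ)
    (hlaw : ∀ x : ℝ, Dn (fun n => EB m a (bd x n) n) (δ * Phi x / m)) (x : ℝ) :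
    FU (fun n => EB m a (bd x n) n) (δ * Phi x / m) := by
  have hP : 0 ≤ Phi x ∧ Phi x ≤ 1 := by
    unfold Pool.Agent.H499R2.ND.Phi
    exact ⟨MeasureTheory.measureReal_nonneg, MeasureTheory.measureReal_le_one⟩
  have hm1 : (1 : ℝ) ≤ m := by exact_mod_cast hm
  have d0 : 0 ≤ δ * Phi x / m := div_nonneg (mul_nonneg h0.le hP.1) (by linarith)
  have d1 : δ * Phi x / m ≤ 1 := by
    rw [div_le_one (by linarith)]
    nlinarith [hP.1, hP.2]
  intro ε hε
  obtain ⟨N0, _, H⟩ := fou_all hlaw x d0 d1 (lt_min hε one_pos) (min_le_right ε 1)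
  refine ⟨N0, fun N hN α => ?_⟩
  refine le_trans (le_of_eq ?_) ((H N hN α).trans (mul_le_mul_of_nonneg_right (min_le_left _ _) (Nat.cast_nonneg _)))
  congr 1
  unfold Pool.Agent.W41.FU.EE
  apply sum_congr rfl; intro n hn
  rw [mem_Icc] at hn
  rw [bal_nat m a x _ hn.1]
  congr 1
  unfold Pool.Agent.W41.FU.ee
  congr 1
  push_cast
  ring

end Pool.Agent.Q250.CL
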