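import Pool.Agent.Q250.CL.Base
import Pool.Agent.Results.MP_2d22f3_nt.MultipleRecurrence

/-! Multiple ergodic averages along properties that differ from an invariant one on a set of density zero. -/

set_option autoImplicit false

namespace Pool.Agent.Q250.CL

open Finset Filter Topology MeasureTheory
open Pool.Agent.H499R2.ND (Dn cnt Tn NS NS_inv)
open Pool.Agent.Results.MP_2d22f3_nt.MultipleRecurrence (System Bounded tp tp_mp tp_comm tp_pow BM_of B_eq P_meas P_norm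
  ret_sum sum_cast)
open scoped Classical

/-- small weighted multiple ergodic averages -/
def ME (P : ℕ → Prop) (c : ℝ) : Prop := ∀ (k : ℕ) (ε : ℝ), 0 < ε → ∃ N₀ : ℕ, ∀ N : ℕ, N₀ ≤ N →
  ∀ (X : Type) [MeasurableSpace X] (Y : System k X) (f : Fin k → X → ℂ), Bounded f →
    ∫ x, ‖∑ n ∈ Icc 1 N, (((if P n then (1 : ℝ) else 0) - c : ℝ) : ℂ) * Y.P f n x‖ ^ 2 ∂Y.μ ≤ ε * N ^ 2

theorem me_inv {P : ℕ → Prop} (hP : ∀ n, 1 ≤ n → (P n ↔ P (Tn n))) {δ : ℝ} (hδ : Dn P δ) : ME P δ := by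
  intro k ε hε
  obtain ⟨N0, h1, h0⟩ := Pool.Agent.Q49.ME.erg.{0} (s := 1) (Or.inl rfl) k hε
  refine ⟨N0, fun N hN X _ Y f hf => ?_⟩
  have := Y.prob
  have h2 := h0 N hN _ ⟨NS P, NS_inv hP, δ, Pool.Agent.Q49.EX.hd_nat hP hδ, rfl⟩ X Y.μ (tp Y) (tp_mp Y) (tp_comm Y) f
    (BM_of hf)
  rw [B_eq Y f 1 (NS P) δ N] at h2
  refine le_trans (le_of_eq ?_) h2
  congr 1
  funext x
  congr 2
  apply sum_congr rfl; intro n hn
  rw [mem_Icc] at hn
  congr 2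
  unfold Pool.Agent.Results.MP_2d22f3_nt.MultipleRecurrence.ind
  have hm : ((1 : ℤ) * (n : ℤ) ∈ NS P) ↔ P n := by
    unfold Pool.Agent.H499R2.ND.NS
    rw [one_mul]
    constructor
    · rintro ⟨_, h⟩
      rwa [Int.toNat_natCast] at h
    · intro h
      exact ⟨by exact_mod_cast hn.1, by rwa [Int.toNat_natCast]⟩
  by_cases hp : P n
  · rw [if_pos hp, Set.indicator_of_mem (hm.2 hp)]
  · rw [if_neg hp, Set.indicator_of_notMem (fun h => hp (hm.1 h))]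

theorem me_false : ME (fun _ => False) 0 := by
  intro k ε hε
  refine ⟨0, fun N _ X _ Y f _ => ?_⟩
  simp only [if_false, sub_zero, Complex.ofReal_zero, zero_mul, sum_const_zero, norm_zero]
  rw [zero_pow (by norm_num), integral_zero]
  positivity

section
variable {k : ℕ} {X : Type} [MeasurableSpace X]

theorem avg_meas (Y : System k X) {f : Fin k → X → ℂ} (hf : Bounded f) (c : ℕ → ℂ) (N : ℕ) :
    Measurable (fun x => ∑ n ∈ Icc 1 N, c n * Y.P f n x) :=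
  Finset.measurable_sum _ fun n _ => (P_meas Y hf n).const_mul _

theorem avg_bound (Y : System k X) {f : Fin k → X → ℂ} (hf : Bounded f) (c : ℕ → ℂ) (N : ℕ) (x : X) :
    ‖∑ n ∈ Icc 1 N, c n * Y.P f n x‖ ≤ ∑ n ∈ Icc 1 N, ‖c n‖ := by
  refine (norm_sum_le _ _).trans (sum_le_sum fun n _ => ?_)
  rw [norm_mul]
  exact mul_le_of_le_one_right (norm_nonneg _) (P_norm Y hf n x)

theorem avg_int (Y : System k X) {f : Fin k → X → ℂ} (hf : Bounded f) (c : ℕ → ℂ) (N : ℕ) :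
    Integrable (fun x => ‖∑ n ∈ Icc 1 N, c n * Y.P f n x‖ ^ 2) Y.μ := by
  have := Y.prob
  refine Integrable.of_bound ((avg_meas Y hf c N).norm.pow_const 2).aestronglyMeasurable
    ((∑ n ∈ Icc 1 N, ‖c n‖) ^ 2) (Filter.Eventually.of_forall fun x => ?_)
  rw [Real.norm_eq_abs, abs_of_nonneg (by positivity)]
  exact pow_le_pow_left₀ (norm_nonneg _) (avg_bound Y hf c N x) 2

end

theorem me_near {P Q : ℕ → Prop} {c : ℝ} (h : ME P c)
    (hd : Tendsto (fun N : ℕ => cnt (fun n => ¬ (P n ↔ Q n)) N / N) atTop (𝓝 0)) : ME Q c := by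
  intro k ε hε
  obtain ⟨N0, H⟩ := h k (ε / 4) (by positivity)
  obtain ⟨N1, H1⟩ := eventually_atTop.1 ((tendsto_order.1 hd).2 (min (ε / 4) 1) (lt_min (by positivity) one_pos))
  refine ⟨N0 + N1 + 1, fun N hN X _ Y f hf => ?_⟩
  have := Y.prob
  have h1 := H N (by omega) X Y f hf
  have h2 := H1 N (by omega)
  have hN0 : (0 : ℝ) < N := by exact_mod_cast (by omega : 0 < N)
  rw [div_lt_iff₀ hN0] at h2
  set D := cnt (fun n => ¬ (P n ↔ Q n)) N with hD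
  have hD0 : 0 ≤ D := by rw [hD, cnt_sum]; exact sum_nonneg fun n _ => by split_ifs <;> norm_num
  have hpt : ∀ x, ‖∑ n ∈ Icc 1 N, (((if Q n then (1 : ℝ) else 0) - c : ℝ) : ℂ) * Y.P f n x‖ ^ 2
      ≤ 2 * ‖∑ n ∈ Icc 1 N, (((if P n then (1 : ℝ) else 0) - c : ℝ) : ℂ) * Y.P f n x‖ ^ 2 + 2 * D ^ 2 := by
    intro x
    have h3 : ‖(∑ n ∈ Icc 1 N, (((if Q n then (1 : ℝ) else 0) - c : ℝ) : ℂ) * Y.P f n x)
        - ∑ n ∈ Icc 1 N, (((if P n then (1 : ℝ) else 0) - c : ℝ) : ℂ) * Y.P f n x‖ ≤ D := by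
      rw [← sum_sub_distrib, hD, cnt_sum]
      refine (norm_sum_le _ _).trans (sum_le_sum fun n _ => ?_)
      rw [← sub_mul, norm_mul]
      refine (mul_le_of_le_one_right (norm_nonneg _) (P_norm Y hf n x)).trans ?_
      rw [← Complex.ofReal_sub, sub_sub_sub_cancel_right, Complex.norm_real, Real.norm_eq_abs]
      by_cases hp : P n <;> by_cases hq : Q n <;> simp [hp, hq]
    set a := ∑ n ∈ Icc 1 N, (((if P n then (1 : ℝ) else 0) - c : ℝ) : ℂ) * Y.P f n x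
    set b := ∑ n ∈ Icc 1 N, (((if Q n then (1 : ℝ) else 0) - c : ℝ) : ℂ) * Y.P f n x
    have h4 : ‖b‖ ≤ ‖b - a‖ + ‖a‖ := by
      have := norm_add_le (b - a) a
      rwa [sub_add_cancel] at this
    have h5 : ‖b‖ ≤ D + ‖a‖ := by linarith
    have h6 : ‖b‖ ^ 2 ≤ (D + ‖a‖) ^ 2 := pow_le_pow_left₀ (norm_nonneg _) h5 2
    nlinarith [sq_nonneg (D - ‖a‖)]
  have hint : ∫ x, ‖∑ n ∈ Icc 1 N, (((if Q n then (1 : ℝ) else 0) - c : ℝ) : ℂ) * Y.P f n x‖ ^ 2 ∂Y.μ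
      ≤ ∫ x, (2 * ‖∑ n ∈ Icc 1 N, (((if P n then (1 : ℝ) else 0) - c : ℝ) : ℂ) * Y.P f n x‖ ^ 2 + 2 * D ^ 2) ∂Y.μ :=
    integral_mono (avg_int Y hf _ N) (((avg_int Y hf _ N).const_mul 2).add (integrable_const _)) hpt
  rw [integral_add ((avg_int Y hf _ N).const_mul 2) (integrable_const _), integral_const_mul, integral_const,
    smul_eq_mul] at hint
  have hmu : Y.μ.real Set.univ = 1 := by
    rw [measureReal_def, measure_univ]; simp
  rw [hmu, one_mul] at hint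
  have h7 : D ^ 2 ≤ ε / 4 * N ^ 2 := by
    have h8 : D ≤ ε / 4 * N := h2.le.trans (mul_le_mul_of_nonneg_right (min_le_left _ _) hN0.le)
    have h9 : D ≤ 1 * N := h2.le.trans (mul_le_mul_of_nonneg_right (min_le_right _ _) hN0.le)
    calc D ^ 2 = D * D := sq D
      _ ≤ (ε / 4 * N) * (1 * N) := mul_le_mul h8 h9 hD0 (by positivity)
      _ = ε / 4 * N ^ 2 := by ring
  linarith

theorem me_ret {P : ℕ → Prop} {c : ℝ} (h : ME P c) (k : ℕ) {ε : ℝ} (hε : 0 < ε) : ∃ N₀ : ℕ, ∀ N : ℕ, N₀ ≤ N →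
    ∀ (X : Type) [MeasurableSpace X] (Y : System k X) (A₀ : Set X) (A : Fin k → Set X),
      MeasurableSet A₀ → (∀ i, MeasurableSet (A i)) →
      |∑ n ∈ Icc 1 N, ((if P n then (1 : ℝ) else 0) - c) * Y.ret A₀ A n| ≤ ε * N := by
  obtain ⟨N0, h0⟩ := h k (ε ^ 2) (by positivity)
  refine ⟨N0, fun N hN X _ Y A₀ A hA₀ hA => ?_⟩
  refine (ret_sum Y hA₀ hA (fun n => (if P n then (1 : ℝ) else 0) - c) N).trans ?_
  have h2 := h0 N hN X Y (fun i => (A i).indicator (fun _ => 1)) (fun i => ⟨measurable_const.indicator (hA i), fun x => by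
    show ‖(A i).indicator (fun _ => (1 : ℂ)) x‖ ≤ 1
    by_cases h : x ∈ A i
    · rw [Set.indicator_of_mem h]; simp
    · rw [Set.indicator_of_notMem h]; simp⟩)
  calc _ ≤ Real.sqrt (ε ^ 2 * N ^ 2) := Real.sqrt_le_sqrt h2
    _ = ε * N := by
      rw [← mul_pow, Real.sqrt_sq (by positivity)]

/-- (multiple) return times are sufficient -/
theorem me_suff {P : ℕ → Prop} {δ : ℝ} (hP : ME P δ) (hδ1 : δ ≤ 1) (k : ℕ) {κ : ℝ} (hκ : 0 < κ) {ψ : ℕ → ℝ}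
    (hψ : Tendsto ψ atTop (𝓝 0))
    (h : ∃ᶠ N : ℕ in atTop, ∃ (X : Type) (_ : MeasurableSpace X) (Y : System k X) (A₀ : Set X) (A : Fin k → Set X),
      MeasurableSet A₀ ∧ (∀ i, MeasurableSet (A i)) ∧ κ * N ≤ ∑ n ∈ Icc 1 N, Y.ret A₀ A n ∧
      ∑ n ∈ Icc 1 N, (if P n then (0 : ℝ) else 1) * Y.ret A₀ A n ≤ ψ N * N) : δ = 1 := by
  by_contra hcon
  have hδ : 0 < 1 - δ := by
    rcases hδ1.lt_or_eq with h6 | h6
    · linarith
    · exact absurd h6 hcon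
  obtain ⟨N0, H⟩ := me_ret hP k (show 0 < (1 - δ) * κ / 2 by positivity)
  have h1 : ∀ᶠ N : ℕ in atTop, ψ N < (1 - δ) * κ / 2 := (tendsto_order.1 hψ).2 _ (by positivity)
  obtain ⟨N, ⟨X, _, Y, A₀, A, hA₀, hA, h2, h3⟩, h4, h5⟩ := (h.and_eventually (h1.and (eventually_ge_atTop (N0 + 1)))).exists
  have h6 := (abs_le.1 (H N (by omega) X Y A₀ A hA₀ hA)).2
  have hNp : (0 : ℝ) < N := by exact_mod_cast (by omega : 0 < N)
  have e1 : ∑ n ∈ Icc 1 N, ((if P n then (1 : ℝ) else 0) - δ) * Y.ret A₀ A n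
      = (1 - δ) * ∑ n ∈ Icc 1 N, Y.ret A₀ A n - ∑ n ∈ Icc 1 N, (if P n then (0 : ℝ) else 1) * Y.ret A₀ A n := by
    rw [mul_sum, ← sum_sub_distrib]
    apply sum_congr rfl; intro n _
    by_cases hp : P n <;> simp [hp] <;> ring
  rw [e1] at h6
  have h7 : ψ N * N < (1 - δ) * κ / 2 * N := mul_lt_mul_of_pos_right h4 hNp
  have h8 : (1 - δ) * (κ * N) ≤ (1 - δ) * ∑ n ∈ Icc 1 N, Y.ret A₀ A n := mul_le_mul_of_nonneg_left h2 hδ.le
  linarith

/-- the return times of a set of positive measure are sufficient -/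
theorem me_suff_one {P : ℕ → Prop} {δ : ℝ} (hP : ME P δ) (hδ1 : δ ≤ 1) {X : Type} [MeasurableSpace X]
    (Y : System 1 X) {A : Set X} (hA : MeasurableSet A) (hpos : 0 < Y.μ A) {ψ : ℕ → ℝ} (hψ : Tendsto ψ atTop (𝓝 0))
    (h : ∃ᶠ N : ℕ in atTop, ({n : ℕ | 1 ≤ n ∧ n ≤ N ∧ 0 < Y.ret A (fun _ => A) n ∧ ¬ P n}.ncard : ℝ) ≤ ψ N * N) :
    δ = 1 := by
  have := Y.prob
  have hm : 0 < Y.μ.real A := by
    unfold Measure.real
    exact ENNReal.toReal_pos hpos.ne' (measure_ne_top _ _)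
  set m : ℝ := Y.μ.real A with hmd
  refine me_suff hP hδ1 1 (κ := m ^ 2 / 4) (by positivity) hψ ?_
  obtain ⟨N1, hN1⟩ := exists_nat_ge (2 / m ^ 2)
  refine (h.and_eventually (eventually_ge_atTop (N1 + 1))).mono ?_
  rintro N ⟨h1, h2⟩
  have hNp : (0 : ℝ) < N := by exact_mod_cast (by omega : 0 < N)
  refine ⟨X, inferInstance, Y, A, fun _ => A, hA, fun _ => hA, ?_, ?_⟩
  · have h3 := Pool.Agent.Q49.ME.return_sum (tp_mp Y 0) hA (N := N) (by omega)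
    rw [sum_cast] at h3
    have e : ∀ n : ℕ, Y.μ.real (A ∩ ⇑(tp Y 0 ^ (n : ℤ)) ⁻¹' A) = Y.ret A (fun _ => A) n := by
      intro n
      unfold System.ret
      congr 1
      ext x
      simp only [Set.mem_inter_iff, Set.mem_preimage, Set.mem_ofPred_eq]
      rw [tp_pow]
      constructor
      · rintro ⟨a, b⟩; exact ⟨a, fun i => by rw [Fin.fin_one_eq_zero i]; exact b⟩
      · rintro ⟨a, b⟩; exact ⟨a, b 0⟩
    simp_rw [e] at h3
    refine le_trans ?_ h3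
    have h4 : (N1 : ℝ) ≤ N := by exact_mod_cast (by omega : N1 ≤ N)
    have h5 : 2 / m ^ 2 ≤ N := hN1.trans h4
    rw [div_le_iff₀ (by positivity)] at h5
    rw [← hmd]
    linarith
  · refine le_trans ?_ h1
    have e1 : {n : ℕ | 1 ≤ n ∧ n ≤ N ∧ 0 < Y.ret A (fun _ => A) n ∧ ¬ P n} =
        ((Icc 1 N).filter (fun n : ℕ => 0 < Y.ret A (fun _ => A) n ∧ ¬ P n) : Finset ℕ) := by
      ext n
      simp only [Set.mem_ofPred_eq, coe_filter, Finset.mem_Icc]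
      tauto
    rw [e1, Set.ncard_coe_finset, card_filter]
    push_cast
    apply sum_le_sum; intro n _
    have hr0 : 0 ≤ Y.ret A (fun _ => A) n := measureReal_nonneg
    have hr1 : Y.ret A (fun _ => A) n ≤ 1 := measureReal_le_one
    by_cases h3 : P n
    · rw [if_pos h3, zero_mul]
      split_ifs <;> norm_num
    · by_cases h5 : 0 < Y.ret A (fun _ => A) n
      · rw [if_neg h3, one_mul, if_pos ⟨h5, h3⟩]
        exact hr1
      · have h6 : Y.ret A (fun _ => A) n = 0 := le_antisymm (not_lt.1 h5) hr0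
        rw [h6, mul_zero]
        split_ifs <;> norm_num

/-- limits -/
theorem me_lim {P : ℕ → Prop} {δ : ℝ} (hP : ME P δ) {k : ℕ}
    {X : Type} [MeasurableSpace X] (Y : System k X) {f : Fin k → X → ℂ} (hf : Bounded f) {L : X → ℂ} (hL : MemLp L 2 Y.μ)
    (h : Tendsto (fun N : ℕ => ∫ x, ‖(∑ n ∈ Icc 1 N, Y.P f n x) / N - L x‖ ^ 2 ∂Y.μ) atTop (𝓝 0)) :
    Tendsto (fun N : ℕ => ∫ x, ‖(∑ n ∈ Icc 1 N, if P n then Y.P f n x else 0) / N - δ * L x‖ ^ 2 ∂Y.μ)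
      atTop (𝓝 0) := by
  have := Y.prob
  -- the difference
  have h0 : Tendsto (fun N : ℕ => ∫ x, ‖(∑ n ∈ Icc 1 N, (((if P n then (1 : ℝ) else 0) - δ : ℝ) : ℂ) * Y.P f n x) / N‖ ^ 2
      ∂Y.μ) atTop (𝓝 0) := by
    rw [Metric.tendsto_atTop]
    intro ε hε
    obtain ⟨N0, H⟩ := hP k (ε / 2) (by positivity)
    refine ⟨N0 + 1, fun N hN => ?_⟩
    have h1 := H N (by omega) X Y f hf
    have hNp : (0 : ℝ) < N := by exact_mod_cast (by omega : 0 < N)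
    rw [Real.dist_eq, sub_zero, abs_of_nonneg (integral_nonneg fun _ => by positivity)]
    have e1 : ∀ x, ‖(∑ n ∈ Icc 1 N, (((if P n then (1 : ℝ) else 0) - δ : ℝ) : ℂ) * Y.P f n x) / N‖ ^ 2
        = 1 / (N : ℝ) ^ 2 * ‖∑ n ∈ Icc 1 N, (((if P n then (1 : ℝ) else 0) - δ : ℝ) : ℂ) * Y.P f n x‖ ^ 2 := by
      intro x
      rw [norm_div, Complex.norm_natCast, div_pow]
      ring
    simp_rw [e1]
    rw [integral_const_mul, one_div, inv_mul_lt_iff₀ (by positivity)]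
    have h2 : 0 < ε / 2 * (N : ℝ) ^ 2 := by positivity
    linarith
  have h1 : Tendsto (fun N : ℕ => 2 * ∫ x, ‖(∑ n ∈ Icc 1 N, (((if P n then (1 : ℝ) else 0) - δ : ℝ) : ℂ) * Y.P f n x) / N‖ ^ 2 ∂Y.μ
      + 2 * δ ^ 2 * ∫ x, ‖(∑ n ∈ Icc 1 N, Y.P f n x) / N - L x‖ ^ 2 ∂Y.μ) atTop (𝓝 0) := by
    have := (h0.const_mul 2).add (h.const_mul (2 * δ ^ 2))
    rw [mul_zero, mul_zero, add_zero] at this
    exact this
  refine squeeze_zero (fun N => integral_nonneg fun _ => by positivity) (fun N => ?_) h1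
  set a : X → ℂ := fun x => (∑ n ∈ Icc 1 N, (((if P n then (1 : ℝ) else 0) - δ : ℝ) : ℂ) * Y.P f n x) / N with ha
  set b : X → ℂ := fun x => (∑ n ∈ Icc 1 N, Y.P f n x) / N - L x with hb
  have ham : Measurable a := (avg_meas Y hf _ N).div_const _
  have hab : ∀ x, ‖a x‖ ≤ (∑ n ∈ Icc 1 N, ‖(((if P n then (1 : ℝ) else 0) - δ : ℝ) : ℂ)‖) / N := fun x => by
    rw [ha]
    simp only
    rw [norm_div, Complex.norm_natCast]
    exact div_le_div_of_nonneg_right (avg_bound Y hf _ N x) (Nat.cast_nonneg N)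
  have ha2 : Integrable (fun x => ‖a x‖ ^ 2) Y.μ :=
    Integrable.of_bound (ham.norm.pow_const 2).aestronglyMeasurable _ (Filter.Eventually.of_forall fun x => by
      rw [Real.norm_eq_abs, abs_of_nonneg (by positivity)]
      exact pow_le_pow_left₀ (norm_nonneg _) (hab x) 2)
  have hb0m : Measurable (fun x => (∑ n ∈ Icc 1 N, Y.P f n x) / (N : ℂ)) :=
    (Finset.measurable_sum _ fun n _ => P_meas Y hf n).div_const _
  have hb0b : ∀ x, ‖(∑ n ∈ Icc 1 N, Y.P f n x) / (N : ℂ)‖ ≤ (∑ n ∈ Icc 1 N, (1 : ℝ)) / N := fun x => by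
    rw [norm_div, Complex.norm_natCast]
    apply div_le_div_of_nonneg_right _ (Nat.cast_nonneg N)
    exact (norm_sum_le _ _).trans (sum_le_sum fun n _ => P_norm Y hf n x)
  have hb1 : MemLp (fun x => (∑ n ∈ Icc 1 N, Y.P f n x) / (N : ℂ)) 2 Y.μ :=
    MemLp.of_bound hb0m.aestronglyMeasurable _ (Filter.Eventually.of_forall hb0b)
  have hb2 : Integrable (fun x => ‖b x‖ ^ 2) Y.μ := (hb1.sub hL).integrable_norm_pow (by norm_num)
  have hmaj : Integrable (fun x => 2 * ‖a x‖ ^ 2 + 2 * δ ^ 2 * ‖b x‖ ^ 2) Y.μ := (ha2.const_mul _).add (hb2.const_mul _)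
  have h3 : ∫ x, ‖(∑ n ∈ Icc 1 N, if P n then Y.P f n x else 0) / N - δ * L x‖ ^ 2 ∂Y.μ
      ≤ ∫ x, (2 * ‖a x‖ ^ 2 + 2 * δ ^ 2 * ‖b x‖ ^ 2) ∂Y.μ := by
    apply integral_mono_of_nonneg (Filter.Eventually.of_forall fun x => by positivity) hmaj
      (Filter.Eventually.of_forall fun x => ?_)
    show ‖(∑ n ∈ Icc 1 N, if P n then Y.P f n x else 0) / N - δ * L x‖ ^ 2 ≤ 2 * ‖a x‖ ^ 2 + 2 * δ ^ 2 * ‖b x‖ ^ 2
    have e : (∑ n ∈ Icc 1 N, if P n then Y.P f n x else 0) / N - δ * L x = a x + δ * b x := by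
      rw [ha, hb]
      simp only
      have e1 : ∑ n ∈ Icc 1 N, (((if P n then (1 : ℝ) else 0) - δ : ℝ) : ℂ) * Y.P f n x
          = ∑ n ∈ Icc 1 N, (if P n then Y.P f n x else 0) - δ * ∑ n ∈ Icc 1 N, Y.P f n x := by
        rw [mul_sum, ← sum_sub_distrib]
        apply sum_congr rfl; intro n _
        by_cases hp : P n
        · simp only [hp, if_true]; push_cast; ring
        · simp only [hp, if_false]; push_cast; ring
      rw [e1]
      ring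
    rw [e]
    have h4 := norm_add_le (a x) (δ * b x)
    have h5 : ‖(δ : ℂ) * b x‖ = |δ| * ‖b x‖ := by
      rw [norm_mul, Complex.norm_real, Real.norm_eq_abs]
    rw [h5] at h4
    have h6 : ‖a x + δ * b x‖ ^ 2 ≤ (‖a x‖ + |δ| * ‖b x‖) ^ 2 := pow_le_pow_left₀ (norm_nonneg _) h4 2
    have h7 : (‖a x‖ + |δ| * ‖b x‖) ^ 2 ≤ 2 * ‖a x‖ ^ 2 + 2 * (|δ| ^ 2 * ‖b x‖ ^ 2) := by
      nlinarith [sq_nonneg (‖a x‖ - |δ| * ‖b x‖)]
    rw [sq_abs] at h7
    linarith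
  rw [integral_add (ha2.const_mul _) (hb2.const_mul _), integral_const_mul, integral_const_mul] at h3
  exact h3

end Pool.Agent.Q250.CL
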