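import Pool.Agent.Q250.CL.Mul

/-! Multiple ergodic averages with general weights; odd integers; truncated functions. -/

set_option autoImplicit false

namespace Pool.Agent.Q250.CL

open Finset Filter Topology MeasureTheory
open Pool.Agent.H499R2.ND (Dn cnt Tn)
open Pool.Agent.Results.MP_2d22f3_nt.MultipleRecurrence (System Bounded tp tp_mp tp_pow P_meas P_norm ret_sum sum_cast)
open scoped Classical

/-- small multiple ergodic averages with the weights `w N n` -/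
def MEW (w : ℕ → ℕ → ℝ) : Prop := ∀ (k : ℕ) (ε : ℝ), 0 < ε → ∃ N₀ : ℕ, ∀ N : ℕ, N₀ ≤ N →
  ∀ (X : Type) [MeasurableSpace X] (Y : System k X) (f : Fin k → X → ℂ), Bounded f →
    ∫ x, ‖∑ n ∈ Icc 1 N, ((w N n : ℝ) : ℂ) * Y.P f n x‖ ^ 2 ∂Y.μ ≤ ε * N ^ 2

theorem mew_of_me {P : ℕ → Prop} {c : ℝ} (h : ME P c) : MEW (fun _ n => (if P n then (1 : ℝ) else 0) - c) := h

theorem mew_congr {w w' : ℕ → ℕ → ℝ} (h : MEW w) (he : ∀ᶠ N : ℕ in atTop, ∀ n, 1 ≤ n → n ≤ N → w N n = w' N n) :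
    MEW w' := by
  intro k ε hε
  obtain ⟨N0, H⟩ := h k ε hε
  obtain ⟨N1, H1⟩ := eventually_atTop.1 he
  refine ⟨N0 + N1, fun N hN X _ Y f hf => le_trans (le_of_eq ?_) (H N (by omega) X Y f hf)⟩
  congr 1
  funext x
  congr 2
  apply sum_congr rfl; intro n hn
  rw [mem_Icc] at hn
  rw [H1 N (by omega) n hn.1 hn.2]

theorem mew_add {w w' : ℕ → ℕ → ℝ} (h : MEW w) (h' : MEW w') : MEW (fun N n => w N n + w' N n) := by
  intro k ε hε
  obtain ⟨N0, H⟩ := h k (ε / 4) (by positivity)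
  obtain ⟨N1, H'⟩ := h' k (ε / 4) (by positivity)
  refine ⟨N0 + N1, fun N hN X _ Y f hf => ?_⟩
  have := Y.prob
  have h1 := H N (by omega) X Y f hf
  have h2 := H' N (by omega) X Y f hf
  have hpt : ∀ x, ‖∑ n ∈ Icc 1 N, ((w N n + w' N n : ℝ) : ℂ) * Y.P f n x‖ ^ 2
      ≤ 2 * ‖∑ n ∈ Icc 1 N, ((w N n : ℝ) : ℂ) * Y.P f n x‖ ^ 2
        + 2 * ‖∑ n ∈ Icc 1 N, ((w' N n : ℝ) : ℂ) * Y.P f n x‖ ^ 2 := by
    intro x
    have e : ∑ n ∈ Icc 1 N, ((w N n + w' N n : ℝ) : ℂ) * Y.P f n x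
        = ∑ n ∈ Icc 1 N, ((w N n : ℝ) : ℂ) * Y.P f n x + ∑ n ∈ Icc 1 N, ((w' N n : ℝ) : ℂ) * Y.P f n x := by
      rw [← sum_add_distrib]
      apply sum_congr rfl; intro n _
      push_cast; ring
    rw [e]
    set a := ∑ n ∈ Icc 1 N, ((w N n : ℝ) : ℂ) * Y.P f n x
    set b := ∑ n ∈ Icc 1 N, ((w' N n : ℝ) : ℂ) * Y.P f n x
    have h3 : ‖a + b‖ ^ 2 ≤ (‖a‖ + ‖b‖) ^ 2 := pow_le_pow_left₀ (norm_nonneg _) (norm_add_le a b) 2
    nlinarith [sq_nonneg (‖a‖ - ‖b‖)]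
  have hint : ∫ x, ‖∑ n ∈ Icc 1 N, ((w N n + w' N n : ℝ) : ℂ) * Y.P f n x‖ ^ 2 ∂Y.μ
      ≤ ∫ x, (2 * ‖∑ n ∈ Icc 1 N, ((w N n : ℝ) : ℂ) * Y.P f n x‖ ^ 2
        + 2 * ‖∑ n ∈ Icc 1 N, ((w' N n : ℝ) : ℂ) * Y.P f n x‖ ^ 2) ∂Y.μ :=
    integral_mono (avg_int Y hf (fun n => ((w N n + w' N n : ℝ) : ℂ)) N)
    (((avg_int Y hf (fun n => ((w N n : ℝ) : ℂ)) N).const_mul 2).add
      ((avg_int Y hf (fun n => ((w' N n : ℝ) : ℂ)) N).const_mul 2)) hpt
  rw [integral_add ((avg_int Y hf _ N).const_mul 2) ((avg_int Y hf _ N).const_mul 2), integral_const_mul,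
    integral_const_mul] at hint
  linarith

theorem mew_smul {w : ℕ → ℕ → ℝ} (h : MEW w) (c : ℝ) : MEW (fun N n => c * w N n) := by
  intro k ε hε
  obtain ⟨N0, H⟩ := h k (ε / (c ^ 2 + 1)) (by positivity)
  refine ⟨N0, fun N hN X _ Y f hf => ?_⟩
  have h1 := H N hN X Y f hf
  have e : ∀ x, ‖∑ n ∈ Icc 1 N, ((c * w N n : ℝ) : ℂ) * Y.P f n x‖ ^ 2
      = c ^ 2 * ‖∑ n ∈ Icc 1 N, ((w N n : ℝ) : ℂ) * Y.P f n x‖ ^ 2 := by
    intro x
    have e1 : ∑ n ∈ Icc 1 N, ((c * w N n : ℝ) : ℂ) * Y.P f n x = (c : ℂ) * ∑ n ∈ Icc 1 N, ((w N n : ℝ) : ℂ) * Y.P f n x := by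
      rw [mul_sum]
      apply sum_congr rfl; intro n _
      push_cast; ring
    rw [e1, norm_mul, mul_pow, Complex.norm_real, Real.norm_eq_abs, sq_abs]
  simp_rw [e]
  rw [integral_const_mul]
  calc _ ≤ c ^ 2 * (ε / (c ^ 2 + 1) * N ^ 2) := mul_le_mul_of_nonneg_left h1 (sq_nonneg c)
    _ = (c ^ 2 / (c ^ 2 + 1)) * (ε * N ^ 2) := by ring
    _ ≤ 1 * (ε * N ^ 2) := by
        apply mul_le_mul_of_nonneg_right _ (by positivity)
        rw [div_le_one (by positivity)]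
        linarith
    _ = _ := one_mul _

theorem mew_small {w : ℕ → ℕ → ℝ} (h : Tendsto (fun N : ℕ => (∑ n ∈ Icc 1 N, |w N n|) / N) atTop (𝓝 0)) : MEW w := by
  intro k ε hε
  obtain ⟨N0, H⟩ := eventually_atTop.1 ((tendsto_order.1 h).2 (Real.sqrt ε) (Real.sqrt_pos.2 hε))
  refine ⟨N0 + 1, fun N hN X _ Y f hf => ?_⟩
  have := Y.prob
  have h1 := H N (by omega)
  have hN0 : (0 : ℝ) < N := by exact_mod_cast (by omega : 0 < N)
  rw [div_lt_iff₀ hN0] at h1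
  have hS0 : 0 ≤ ∑ n ∈ Icc 1 N, |w N n| := sum_nonneg fun n _ => abs_nonneg _
  have hpt : ∀ x, ‖∑ n ∈ Icc 1 N, ((w N n : ℝ) : ℂ) * Y.P f n x‖ ^ 2 ≤ ε * N ^ 2 := by
    intro x
    have h2 := avg_bound Y hf (fun n => ((w N n : ℝ) : ℂ)) N x
    have e : ∑ n ∈ Icc 1 N, ‖((w N n : ℝ) : ℂ)‖ = ∑ n ∈ Icc 1 N, |w N n| := by
      apply sum_congr rfl; intro n _
      rw [Complex.norm_real, Real.norm_eq_abs]
    rw [e] at h2
    calc _ ≤ (Real.sqrt ε * N) ^ 2 := pow_le_pow_left₀ (norm_nonneg _) (h2.trans h1.le) 2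
      _ = ε * N ^ 2 := by rw [mul_pow, Real.sq_sqrt hε.le]
  refine (integral_mono (avg_int Y hf (fun n => ((w N n : ℝ) : ℂ)) N) (integrable_const _) hpt).trans (le_of_eq ?_)
  rw [integral_const, smul_eq_mul]
  have hmu : Y.μ.real Set.univ = 1 := by
    rw [measureReal_def, measure_univ]; simp
  rw [hmu, one_mul]

theorem mew_near {w w' : ℕ → ℕ → ℝ} (h : MEW w)
    (hd : Tendsto (fun N : ℕ => (∑ n ∈ Icc 1 N, |w' N n - w N n|) / N) atTop (𝓝 0)) : MEW w' := by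
  refine mew_congr (mew_add h (mew_small (w := fun N n => w' N n - w N n) hd)) (Eventually.of_forall fun N n _ _ => ?_)
  ring

/-- the squares of the transformations -/
def sq2 {k : ℕ} {X : Type} [MeasurableSpace X] (Y : System k X) : System k X where
  μ := Y.μ
  prob := Y.prob
  T := fun i => (Y.T i).trans (Y.T i)
  mp := fun i => (Y.mp i).comp (Y.mp i)
  comm := fun i j x => by
    show Y.T i (Y.T i (Y.T j (Y.T j x))) = Y.T j (Y.T j (Y.T i (Y.T i x)))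
    rw [Y.comm i j (Y.T j x), Y.comm i j x, Y.comm i j (Y.T j (Y.T i x)), Y.comm i j (Y.T i x)]

theorem sq2_iter {k : ℕ} {X : Type} [MeasurableSpace X] (Y : System k X) (i : Fin k) (m : ℕ) (x : X) :
    ((sq2 Y).T i)^[m] x = (Y.T i)^[2 * m] x := by
  rw [Function.iterate_mul]
  rfl

theorem sq2_P {k : ℕ} {X : Type} [MeasurableSpace X] (Y : System k X) (f : Fin k → X → ℂ) (m : ℕ) (x : X) :
    (sq2 Y).P f m x = Y.P f (2 * m) x := by
  unfold System.P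
  apply prod_congr rfl; intro i _
  rw [sq2_iter]

theorem even_sum {E : Type} [AddCommMonoid E] (g : ℕ → E) (N : ℕ) :
    ∑ n ∈ Icc 1 N, (if n % 2 = 1 then 0 else g n) = ∑ m ∈ Icc 1 (N / 2), g (2 * m) := by
  have h1 : ∑ n ∈ Icc 1 N, (if n % 2 = 1 then 0 else g n) = ∑ n ∈ (Icc 1 N).filter (fun n => ¬ n % 2 = 1), g n := by
    rw [sum_filter]
    apply sum_congr rfl; intro n _
    by_cases h : n % 2 = 1
    · rw [if_pos h, if_neg (not_not.2 h)]
    · rw [if_neg h, if_pos h]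
  have h2 : (Icc 1 N).filter (fun n => ¬ n % 2 = 1) = (Icc 1 (N / 2)).image (fun m => 2 * m) := by
    ext n
    rw [mem_filter, mem_Icc, mem_image]
    constructor
    · rintro ⟨⟨_, _⟩, _⟩
      exact ⟨n / 2, by rw [mem_Icc]; constructor <;> omega, by omega⟩
    · rintro ⟨m, hm, rfl⟩
      rw [mem_Icc] at hm
      exact ⟨⟨by omega, by omega⟩, by omega⟩
  rw [h1, h2, sum_image (fun a _ b _ hab => by omega)]

/-- the even integers -/
theorem mew_even {P : ℕ → Prop} (hP : ∀ n, 1 ≤ n → (P n ↔ P (Tn n))) {δ : ℝ} (h : ME P δ) :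
    MEW (fun _ n => if n % 2 = 1 then 0 else (if P n then (1 : ℝ) else 0) - δ) := by
  intro k ε hε
  obtain ⟨N0, H⟩ := h k ε hε
  refine ⟨2 * N0 + 2, fun N hN X _ Y f hf => ?_⟩
  have h1 := H (N / 2) (by omega) X (sq2 Y) f hf
  have e : ∀ x, ∑ n ∈ Icc 1 N, ((if n % 2 = 1 then 0 else (if P n then (1 : ℝ) else 0) - δ : ℝ) : ℂ) * Y.P f n x
      = ∑ n ∈ Icc 1 (N / 2), (((if P n then (1 : ℝ) else 0) - δ : ℝ) : ℂ) * (sq2 Y).P f n x := by
    intro x
    have e1 : ∑ n ∈ Icc 1 N, ((if n % 2 = 1 then 0 else (if P n then (1 : ℝ) else 0) - δ : ℝ) : ℂ) * Y.P f n x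
        = ∑ n ∈ Icc 1 N, (if n % 2 = 1 then 0 else (((if P n then (1 : ℝ) else 0) - δ : ℝ) : ℂ) * Y.P f n x) := by
      apply sum_congr rfl; intro n _
      by_cases ho : n % 2 = 1
      · rw [if_pos ho, if_pos ho]; simp
      · rw [if_neg ho, if_neg ho]
    rw [e1, even_sum (fun n => (((if P n then (1 : ℝ) else 0) - δ : ℝ) : ℂ) * Y.P f n x)]
    apply sum_congr rfl; intro m hm
    rw [mem_Icc] at hm
    rw [sq2_P]
    have e2 : Tn (2 * m) = m := by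
      simp only [Tn]; rw [if_pos (by omega)]; omega
    have e3 : P (2 * m) ↔ P m := by
      have := hP (2 * m) (by omega)
      rwa [e2] at this
    by_cases hp : P m
    · rw [if_pos (e3.2 hp), if_pos hp]
    · rw [if_neg (fun h' => hp (e3.1 h')), if_neg hp]
  simp_rw [e]
  refine le_trans h1 ?_
  have h2 : ((N / 2 : ℕ) : ℝ) ≤ N := by exact_mod_cast Nat.div_le_self N 2
  have h3 : ((N / 2 : ℕ) : ℝ) ^ 2 ≤ (N : ℝ) ^ 2 := pow_le_pow_left₀ (Nat.cast_nonneg _) h2 2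
  exact mul_le_mul_of_nonneg_left h3 hε.le

/-- the odd integers -/
theorem mew_odd {P : ℕ → Prop} (hP : ∀ n, 1 ≤ n → (P n ↔ P (Tn n))) {δ : ℝ} (hδ : Dn P δ) :
    MEW (fun _ n => if n % 2 = 1 then (if P n then (1 : ℝ) else 0) - δ else 0) := by
  have h := me_inv hP hδ
  refine mew_congr (mew_add (mew_of_me h) (mew_smul (mew_even hP h) (-1))) (Eventually.of_forall fun N n _ _ => ?_)
  by_cases ho : n % 2 = 1
  · simp only [ho, if_true]; ring
  · simp only [ho, if_false]; ring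

theorem mew_ret {w : ℕ → ℕ → ℝ} (h : MEW w) (k : ℕ) {ε : ℝ} (hε : 0 < ε) : ∃ N₀ : ℕ, ∀ N : ℕ, N₀ ≤ N →
    ∀ (X : Type) [MeasurableSpace X] (Y : System k X) (A₀ : Set X) (A : Fin k → Set X),
      MeasurableSet A₀ → (∀ i, MeasurableSet (A i)) → |∑ n ∈ Icc 1 N, w N n * Y.ret A₀ A n| ≤ ε * N := by
  obtain ⟨N0, h0⟩ := h k (ε ^ 2) (by positivity)
  refine ⟨N0, fun N hN X _ Y A₀ A hA₀ hA => ?_⟩
  refine (ret_sum Y hA₀ hA (fun n => w N n) N).trans ?_
  have h2 := h0 N hN X Y (fun i => (A i).indicator (fun _ => 1)) (fun i => ⟨measurable_const.indicator (hA i), fun x => by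
    show ‖(A i).indicator (fun _ => (1 : ℂ)) x‖ ≤ 1
    by_cases h : x ∈ A i
    · rw [Set.indicator_of_mem h]; simp
    · rw [Set.indicator_of_notMem h]; simp⟩)
  calc _ ≤ Real.sqrt (ε ^ 2 * N ^ 2) := Real.sqrt_le_sqrt h2
    _ = ε * N := by
      rw [← mul_pow, Real.sqrt_sq (by positivity)]

/-- limits -/
theorem mew_lim {w u v : ℕ → ℕ → ℝ} {c : ℝ} (hw : MEW w)
    (hu : ∀ᶠ N : ℕ in atTop, ∀ n, 1 ≤ n → n ≤ N → u N n = w N n + c * v N n) {k : ℕ}
    {X : Type} [MeasurableSpace X] (Y : System k X) {f : Fin k → X → ℂ} (hf : Bounded f) {L : X → ℂ} (hL : MemLp L 2 Y.μ)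
    (h : Tendsto (fun N : ℕ => ∫ x, ‖(∑ n ∈ Icc 1 N, ((v N n : ℝ) : ℂ) * Y.P f n x) / N - L x‖ ^ 2 ∂Y.μ) atTop (𝓝 0)) :
    Tendsto (fun N : ℕ => ∫ x, ‖(∑ n ∈ Icc 1 N, ((u N n : ℝ) : ℂ) * Y.P f n x) / N - c * L x‖ ^ 2 ∂Y.μ)
      atTop (𝓝 0) := by
  have := Y.prob
  have h0 : Tendsto (fun N : ℕ => ∫ x, ‖(∑ n ∈ Icc 1 N, ((w N n : ℝ) : ℂ) * Y.P f n x) / N‖ ^ 2
      ∂Y.μ) atTop (𝓝 0) := by
    rw [Metric.tendsto_atTop]
    intro ε hε
    obtain ⟨N0, H⟩ := hw k (ε / 2) (by positivity)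
    refine ⟨N0 + 1, fun N hN => ?_⟩
    have h1 := H N (by omega) X Y f hf
    have hNp : (0 : ℝ) < N := by exact_mod_cast (by omega : 0 < N)
    rw [Real.dist_eq, sub_zero, abs_of_nonneg (integral_nonneg fun _ => by positivity)]
    have e1 : ∀ x, ‖(∑ n ∈ Icc 1 N, ((w N n : ℝ) : ℂ) * Y.P f n x) / N‖ ^ 2
        = 1 / (N : ℝ) ^ 2 * ‖∑ n ∈ Icc 1 N, ((w N n : ℝ) : ℂ) * Y.P f n x‖ ^ 2 := by
      intro x
      rw [norm_div, Complex.norm_natCast, div_pow]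
      ring
    simp_rw [e1]
    rw [integral_const_mul, one_div, inv_mul_lt_iff₀ (by positivity)]
    have h2 : 0 < ε / 2 * (N : ℝ) ^ 2 := by positivity
    linarith
  have h1 : Tendsto (fun N : ℕ => 2 * ∫ x, ‖(∑ n ∈ Icc 1 N, ((w N n : ℝ) : ℂ) * Y.P f n x) / N‖ ^ 2 ∂Y.μ
      + 2 * c ^ 2 * ∫ x, ‖(∑ n ∈ Icc 1 N, ((v N n : ℝ) : ℂ) * Y.P f n x) / N - L x‖ ^ 2 ∂Y.μ) atTop (𝓝 0) := by
    have := (h0.const_mul 2).add (h.const_mul (2 * c ^ 2))
    rw [mul_zero, mul_zero, add_zero] at this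
    exact this
  obtain ⟨N1, hN1⟩ := eventually_atTop.1 hu
  refine squeeze_zero' (Eventually.of_forall fun N => integral_nonneg fun _ => by positivity)
    (eventually_atTop.2 ⟨N1, fun N hN => ?_⟩) h1
  have hu' := hN1 N hN
  set a : X → ℂ := fun x => (∑ n ∈ Icc 1 N, ((w N n : ℝ) : ℂ) * Y.P f n x) / N with ha
  set b : X → ℂ := fun x => (∑ n ∈ Icc 1 N, ((v N n : ℝ) : ℂ) * Y.P f n x) / N - L x with hb
  have ham : Measurable a := (avg_meas Y hf _ N).div_const _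
  have hab : ∀ x, ‖a x‖ ≤ (∑ n ∈ Icc 1 N, ‖((w N n : ℝ) : ℂ)‖) / N := fun x => by
    rw [ha]
    simp only
    rw [norm_div, Complex.norm_natCast]
    exact div_le_div_of_nonneg_right (avg_bound Y hf _ N x) (Nat.cast_nonneg N)
  have ha2 : Integrable (fun x => ‖a x‖ ^ 2) Y.μ :=
    Integrable.of_bound (ham.norm.pow_const 2).aestronglyMeasurable _ (Filter.Eventually.of_forall fun x => by
      rw [Real.norm_eq_abs, abs_of_nonneg (by positivity)]
      exact pow_le_pow_left₀ (norm_nonneg _) (hab x) 2)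
  have hb0m : Measurable (fun x => (∑ n ∈ Icc 1 N, ((v N n : ℝ) : ℂ) * Y.P f n x) / (N : ℂ)) :=
    (avg_meas Y hf _ N).div_const _
  have hb0b : ∀ x, ‖(∑ n ∈ Icc 1 N, ((v N n : ℝ) : ℂ) * Y.P f n x) / (N : ℂ)‖
      ≤ (∑ n ∈ Icc 1 N, ‖((v N n : ℝ) : ℂ)‖) / N := fun x => by
    rw [norm_div, Complex.norm_natCast]
    exact div_le_div_of_nonneg_right (avg_bound Y hf _ N x) (Nat.cast_nonneg N)
  have hb1 : MemLp (fun x => (∑ n ∈ Icc 1 N, ((v N n : ℝ) : ℂ) * Y.P f n x) / (N : ℂ)) 2 Y.μ :=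
    MemLp.of_bound hb0m.aestronglyMeasurable _ (Filter.Eventually.of_forall hb0b)
  have hb2 : Integrable (fun x => ‖b x‖ ^ 2) Y.μ := (hb1.sub hL).integrable_norm_pow (by norm_num)
  have hmaj : Integrable (fun x => 2 * ‖a x‖ ^ 2 + 2 * c ^ 2 * ‖b x‖ ^ 2) Y.μ := (ha2.const_mul _).add (hb2.const_mul _)
  have h3 : ∫ x, ‖(∑ n ∈ Icc 1 N, ((u N n : ℝ) : ℂ) * Y.P f n x) / N - c * L x‖ ^ 2 ∂Y.μ
      ≤ ∫ x, (2 * ‖a x‖ ^ 2 + 2 * c ^ 2 * ‖b x‖ ^ 2) ∂Y.μ := by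
    apply integral_mono_of_nonneg (Filter.Eventually.of_forall fun x => by positivity) hmaj
      (Filter.Eventually.of_forall fun x => ?_)
    show ‖(∑ n ∈ Icc 1 N, ((u N n : ℝ) : ℂ) * Y.P f n x) / N - c * L x‖ ^ 2 ≤ 2 * ‖a x‖ ^ 2 + 2 * c ^ 2 * ‖b x‖ ^ 2
    have e : (∑ n ∈ Icc 1 N, ((u N n : ℝ) : ℂ) * Y.P f n x) / N - c * L x = a x + c * b x := by
      rw [ha, hb]
      simp only
      have e1 : ∑ n ∈ Icc 1 N, ((u N n : ℝ) : ℂ) * Y.P f n x
          = ∑ n ∈ Icc 1 N, ((w N n : ℝ) : ℂ) * Y.P f n x + c * ∑ n ∈ Icc 1 N, ((v N n : ℝ) : ℂ) * Y.P f n x := by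
        rw [mul_sum, ← sum_add_distrib]
        apply sum_congr rfl; intro n hn
        rw [mem_Icc] at hn
        rw [hu' n hn.1 hn.2]
        push_cast; ring
      rw [e1]
      ring
    rw [e]
    have h4 := norm_add_le (a x) (c * b x)
    have h5 : ‖(c : ℂ) * b x‖ = |c| * ‖b x‖ := by
      rw [norm_mul, Complex.norm_real, Real.norm_eq_abs]
    rw [h5] at h4
    have h6 : ‖a x + c * b x‖ ^ 2 ≤ (‖a x‖ + |c| * ‖b x‖) ^ 2 := pow_le_pow_left₀ (norm_nonneg _) h4 2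
    have h7 : (‖a x‖ + |c| * ‖b x‖) ^ 2 ≤ 2 * ‖a x‖ ^ 2 + 2 * (|c| ^ 2 * ‖b x‖ ^ 2) := by
      nlinarith [sq_nonneg (‖a x‖ - |c| * ‖b x‖)]
    rw [sq_abs] at h7
    linarith
  rw [integral_add (ha2.const_mul _) (hb2.const_mul _), integral_const_mul, integral_const_mul] at h3
  exact h3

/-- the truncated function of the odd integers with the property -/
theorem trunc_err {P : ℕ → Prop} {s : ℕ → ℝ} {κ Λ : ℝ} (hκ : 0 < κ) (hΛ : κ < Λ) (htn : ∀ n, 0 ≤ s n)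
    (hl : ∀ η : ℝ, 0 < η → Tendsto (fun N : ℕ =>
      cnt (fun n => (n % 2 = 1 ∧ P n) ∧ η * Real.log n < |s n - κ * Real.log n|) N / N) atTop (𝓝 0)) :
    Tendsto (fun N : ℕ => (∑ n ∈ Icc 1 N, |if n % 2 = 1 ∧ P n then (Real.log N)⁻¹ * min (s n) (Λ * Real.log N) - κ
      else 0|) / N) atTop (𝓝 0) := by
  rw [Metric.tendsto_atTop]
  intro ε hε
  set M : ℝ := 2 * (Λ + κ) + 2 + κ with hM
  have hM0 : 0 < M := by rw [hM]; linarith
  set η : ℝ := min (ε / (2 * M)) (1 / 2) with hη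
  have hη0 : 0 < η := by rw [hη]; exact lt_min (by positivity) (by norm_num)
  have hη1 : η ≤ ε / (2 * M) := min_le_left _ _
  have hη2 : η ≤ 1 / 2 := min_le_right _ _
  obtain ⟨N2, h2⟩ := eventually_atTop.1 ((tendsto_order.1 (hl η hη0)).2 η hη0)
  have hlt : Tendsto (fun n : ℕ => Real.log (n : ℝ)) atTop atTop :=
    Real.tendsto_log_atTop.comp tendsto_natCast_atTop_atTop
  obtain ⟨N3, h3⟩ := eventually_atTop.1 (hlt.eventually_ge_atTop (max 1 (-Real.log η / η)))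
  refine ⟨N2 + N3 + 2, fun N hN => ?_⟩
  have hN0 : (0 : ℝ) < N := by exact_mod_cast (by omega : 0 < N)
  have hL := h3 N (by omega)
  set L := Real.log (N : ℝ) with hLdef
  have hL1 : 1 ≤ L := (le_max_left _ _).trans hL
  have hL0 : 0 < L := by linarith
  have hL2 : -Real.log η ≤ η * L := by
    have := (le_max_right _ _).trans hL
    rw [div_le_iff₀ hη0] at this
    linarith
  have a2 := h2 N (by omega)
  rw [div_lt_iff₀ hN0] at a2
  have hx : ∀ (b : Prop) [Decidable b], (0 : ℝ) ≤ (if b then (1 : ℝ) else 0) := fun b _ => by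
    split_ifs <;> norm_num
  have hΛp : 0 < Λ + κ := by linarith
  have key : ∀ n ∈ Icc 1 N, |if n % 2 = 1 ∧ P n then L⁻¹ * min (s n) (Λ * L) - κ else 0| ≤
      (Λ + κ) * ((if (n : ℝ) < η * N then (1 : ℝ) else 0)
      + (if (n % 2 = 1 ∧ P n) ∧ η * Real.log n < |s n - κ * Real.log n| then (1 : ℝ) else 0)) + (2 + κ) * η := by
    intro n hn
    rw [mem_Icc] at hn
    have hn1 : (1 : ℝ) ≤ n := by exact_mod_cast hn.1
    have hnN : (n : ℝ) ≤ N := by exact_mod_cast hn.2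
    have hxa := hx ((n : ℝ) < η * N)
    have hxb := hx ((n % 2 = 1 ∧ P n) ∧ η * Real.log n < |s n - κ * Real.log n|)
    by_cases hp : n % 2 = 1 ∧ P n
    · rw [if_pos (c := n % 2 = 1 ∧ P n) hp]
      have hm0 : 0 ≤ min (s n) (Λ * L) := le_min (htn n) (mul_nonneg (by linarith) hL0.le)
      have hm1 : L⁻¹ * min (s n) (Λ * L) ≤ Λ := by
        rw [inv_mul_le_iff₀ hL0, mul_comm L Λ]
        exact min_le_right _ _
      have hm2 : 0 ≤ L⁻¹ * min (s n) (Λ * L) := mul_nonneg (by positivity) hm0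
      have hcrude : |L⁻¹ * min (s n) (Λ * L) - κ| ≤ Λ + κ := by
        rw [abs_le]; constructor <;> linarith
      by_cases hb1 : (n : ℝ) < η * N
      · have d1 : (if (n : ℝ) < η * N then (1 : ℝ) else 0) = 1 := if_pos hb1
        rw [d1, mul_add, mul_one]
        have d2 := mul_nonneg hΛp.le hxb
        have d3 : 0 ≤ (2 + κ) * η := by positivity
        linarith
      · by_cases hb2 : (n % 2 = 1 ∧ P n) ∧ η * Real.log n < |s n - κ * Real.log n|
        · have d1 : (if (n % 2 = 1 ∧ P n) ∧ η * Real.log n < |s n - κ * Real.log n| then (1 : ℝ) else 0) = 1 :=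
            if_pos hb2
          rw [d1, mul_add, mul_one]
          have d2 := mul_nonneg hΛp.le hxa
          have d3 : 0 ≤ (2 + κ) * η := by positivity
          linarith
        · have c3 : |s n - κ * Real.log n| ≤ η * Real.log n := not_lt.1 (fun h => hb2 ⟨hp, h⟩)
          have c4 : Real.log n ≤ L := Real.log_le_log (by linarith) hnN
          have c5 : Real.log η + L ≤ Real.log n := by
            rw [hLdef, ← Real.log_mul hη0.ne' hN0.ne']
            exact Real.log_le_log (by positivity) (not_lt.1 hb1)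
          have c6 : |Real.log n - L| ≤ η * L := by
            rw [abs_le]; constructor
            · linarith
            · have : 0 ≤ η * L := by positivity
              linarith
          have c7 : |s n - κ * L| ≤ (2 + κ) * η * L := by
            rw [abs_le] at c3 c6 ⊢
            have c8 : η * Real.log n ≤ η * (2 * L) := mul_le_mul_of_nonneg_left (by linarith) hη0.le
            have c9 : κ * (Real.log n - L) ≤ κ * (η * L) := mul_le_mul_of_nonneg_left c6.2 hκ.le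
            have c10 : κ * (-(η * L)) ≤ κ * (Real.log n - L) := mul_le_mul_of_nonneg_left c6.1 hκ.le
            constructor <;> nlinarith
          have c11 : |L⁻¹ * min (s n) (Λ * L) - κ| ≤ (2 + κ) * η := by
            have e1 : L⁻¹ * min (s n) (Λ * L) - κ = L⁻¹ * (min (s n) (Λ * L) - κ * L) := by field_simp
            rw [e1, abs_mul, abs_of_pos (inv_pos.2 hL0), inv_mul_le_iff₀ hL0]
            have c12 : |min (s n) (Λ * L) - κ * L| ≤ |s n - κ * L| := by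
              rcases le_total (s n) (Λ * L) with h5 | h5
              · rw [min_eq_left h5]
              · rw [min_eq_right h5]
                have h6 : κ * L ≤ Λ * L := mul_le_mul_of_nonneg_right hΛ.le hL0.le
                rw [abs_of_nonneg (by linarith), abs_of_nonneg (by linarith)]
                linarith
            refine c12.trans (c7.trans (le_of_eq ?_))
            ring
          have d2 := mul_nonneg hΛp.le (add_nonneg hxa hxb)
          linarith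
    · rw [if_neg (c := n % 2 = 1 ∧ P n) hp, abs_zero]
      have d2 := mul_nonneg hΛp.le (add_nonneg hxa hxb)
      have d3 : 0 ≤ (2 + κ) * η := by positivity
      linarith
  have hnn : 0 ≤ (∑ n ∈ Icc 1 N, |if n % 2 = 1 ∧ P n then L⁻¹ * min (s n) (Λ * L) - κ else 0|) / N :=
    div_nonneg (sum_nonneg fun n _ => abs_nonneg _) hN0.le
  rw [Real.dist_eq, sub_zero, abs_of_nonneg hnn, div_lt_iff₀ hN0]
  refine (sum_le_sum key).trans_lt ?_
  rw [sum_add_distrib, ← mul_sum, sum_add_distrib, sum_const, Nat.card_Icc, Nat.add_sub_cancel, nsmul_eq_mul]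
  have f1 : ∑ n ∈ Icc 1 N, (if (n : ℝ) < η * N then (1 : ℝ) else 0) ≤ η * N := by
    rw [← sum_filter, sum_const, nsmul_eq_mul, mul_one]
    have : ((Icc 1 N).filter (fun n : ℕ => (n : ℝ) < η * N)).card ≤ ⌊η * (N : ℝ)⌋₊ := by
      rw [← Nat.add_sub_cancel (n := ⌊η * (N : ℝ)⌋₊) (m := 1), ← Nat.card_Icc]
      apply card_le_card
      intro n hn
      rw [mem_filter, mem_Icc] at hn
      rw [mem_Icc]
      exact ⟨hn.1.1, Nat.le_floor hn.2.le⟩
    calc (((Icc 1 N).filter (fun n : ℕ => (n : ℝ) < η * N)).card : ℝ)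
        ≤ (⌊η * (N : ℝ)⌋₊ : ℝ) := by exact_mod_cast this
      _ ≤ η * N := Nat.floor_le (by positivity)
  have f2 : ∑ n ∈ Icc 1 N, (if (n % 2 = 1 ∧ P n) ∧ η * Real.log n < |s n - κ * Real.log n| then (1 : ℝ) else 0)
      ≤ η * N := by
    refine le_trans (le_of_eq ?_) a2.le
    rw [cnt_sum]
    exact sum_congr rfl fun n _ => by split_ifs <;> rfl
  have f4 := mul_le_mul_of_nonneg_left (add_le_add f1 f2) hΛp.le
  have f5 : M * η ≤ ε / 2 := by
    calc M * η ≤ M * (ε / (2 * M)) := mul_le_mul_of_nonneg_left hη1 hM0.le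
      _ = ε / 2 := by field_simp
  have f6 : M * η * N ≤ ε / 2 * N := mul_le_mul_of_nonneg_right f5 hN0.le
  rw [hM] at f6
  have f7 : 0 < ε / 2 * N := by positivity
  linarith

/-- truncated functions of the odd integers -/
theorem mew_trunc {P : ℕ → Prop} (hP : ∀ n, 1 ≤ n → (P n ↔ P (Tn n))) {δ : ℝ} (hδ : Dn P δ)
    {s : ℕ → ℝ} {κ Λ : ℝ} (hκ : 0 < κ) (hΛ : κ < Λ) (htn : ∀ n, 0 ≤ s n)
    (hl : ∀ η : ℝ, 0 < η → Tendsto (fun N : ℕ =>
      cnt (fun n => (n % 2 = 1 ∧ P n) ∧ η * Real.log n < |s n - κ * Real.log n|) N / N) atTop (𝓝 0)) :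
    MEW (fun N n => if n % 2 = 1 then (Real.log N)⁻¹ * (if P n then min (s n) (Λ * Real.log N) else Λ * Real.log N)
      - (δ * κ + (1 - δ) * Λ) else 0) := by
  refine mew_near (mew_smul (mew_odd hP hδ) (-(Λ - κ))) ((trunc_err hκ hΛ htn hl).congr' ?_)
  filter_upwards [eventually_ge_atTop 2] with N hN
  have hL0 : 0 < Real.log N := Real.log_pos (by exact_mod_cast (by omega : 1 < N))
  congr 1
  apply sum_congr rfl; intro n _
  congr 1
  by_cases ho : n % 2 = 1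
  · by_cases hp : P n
    · simp only [ho, hp, and_self, if_true]; ring
    · simp only [ho, hp, and_false, if_true, if_false]
      field_simp
      ring
  · simp only [ho, false_and, if_false]; ring

end Pool.Agent.Q250.CL
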