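import Pool.Agent.Q250.CL.Base
import Pool.Agent.Results.MP_edb5be_nt.PointwiseErgodicTheorem

/-! Pointwise ergodic averages along properties that differ from an invariant one on a set of density zero. -/

set_option autoImplicit false

namespace Pool.Agent.Q250.CL

open Finset Filter Topology MeasureTheory
open Pool.Agent.H499R2.ND (Dn cnt Tn NS NS_inv NS_ncard)
open scoped Classical

theorem ns_inv {P : ℕ → Prop} (hP : ∀ n, 1 ≤ n → (P n ↔ P (Tn n))) : Pool.Agent.Q49.PE.Inv (NS P) := NS_inv hP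

theorem ns_dens {P : ℕ → Prop} {δ : ℝ} (hδ : Dn P δ) :
    Pool.Agent.Results.MP_d02c56_nt.FourierUniformity.HasDensity 1 (NS P) δ := by
  refine Tendsto.congr (fun N => ?_) hδ
  rw [NS_ncard]
  rfl

theorem ns_g (P : ℕ → Prop) {n : ℕ} (hn : 1 ≤ n) :
    Pool.Agent.Q49.PE.g (NS P) (1 * (n : ℤ)) = if P n then 1 else 0 := by
  have hm : ((1 : ℤ) * (n : ℤ) ∈ NS P) ↔ P n := by
    unfold Pool.Agent.H499R2.ND.NS
    rw [one_mul]
    constructor
    · rintro ⟨_, h⟩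
      rwa [Int.toNat_natCast] at h
    · intro h
      exact ⟨by exact_mod_cast hn, by rwa [Int.toNat_natCast]⟩
  unfold Pool.Agent.Q49.PE.g
  by_cases hp : P n
  · rw [if_pos hp, Set.indicator_of_mem (hm.2 hp)]
  · rw [if_neg hp, Set.indicator_of_notMem (fun h => hp (hm.1 h))]

theorem dn_true : Dn (fun _ => True) 1 := by
  unfold Pool.Agent.H499R2.ND.Dn
  refine tendsto_const_nhds.congr' ?_
  filter_upwards [eventually_ge_atTop 1] with N hN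
  have hN0 : (N : ℝ) ≠ 0 := by exact_mod_cast (by omega : N ≠ 0)
  rw [cnt_sum]
  simp [hN0]

/-- the exceptional set does not matter for square summable averages -/
theorem cs_small {a : ℕ → ℝ} {B : ℝ} {D : ℕ → Prop}
    (ha : Tendsto (fun N : ℕ => (N : ℝ)⁻¹ * ∑ n ∈ Icc 1 N, a n ^ 2) atTop (𝓝 B))
    (hD : Tendsto (fun N : ℕ => cnt D N / N) atTop (𝓝 0)) :
    Tendsto (fun N : ℕ => (N : ℝ)⁻¹ * ∑ n ∈ Icc 1 N, if D n then |a n| else 0) atTop (𝓝 0) := by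
  have hB0 : 0 ≤ B := ge_of_tendsto' ha fun N => mul_nonneg (by positivity) (sum_nonneg fun n _ => sq_nonneg _)
  rw [Metric.tendsto_atTop]
  intro ε hε
  set η : ℝ := ε / (B + 1) with hη
  have hη0 : 0 < η := by positivity
  obtain ⟨N1, h1⟩ := eventually_atTop.1 ((tendsto_order.1 ha).2 (B + 1) (by linarith))
  obtain ⟨N2, h2⟩ := eventually_atTop.1 ((tendsto_order.1 hD).2 (η * ε) (by positivity))
  refine ⟨N1 + N2 + 1, fun N hN => ?_⟩
  have hN0 : (0 : ℝ) < N := by exact_mod_cast (by omega : 0 < N)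
  have a1 := h1 N (by omega)
  have a2 := h2 N (by omega)
  have hnn : 0 ≤ (N : ℝ)⁻¹ * ∑ n ∈ Icc 1 N, (if D n then |a n| else 0) :=
    mul_nonneg (by positivity) (sum_nonneg fun n _ => by split_ifs <;> positivity)
  rw [Real.dist_eq, sub_zero, abs_of_nonneg hnn]
  have h3 : ∑ n ∈ Icc 1 N, (if D n then |a n| else 0) ≤ η / 2 * ∑ n ∈ Icc 1 N, a n ^ 2 + 1 / (2 * η) * cnt D N := by
    rw [cnt_sum, mul_sum, mul_sum, ← sum_add_distrib]
    refine sum_le_sum fun n _ => ?_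
    by_cases hd : D n
    · rw [if_pos hd, if_pos hd]
      have h4 : 0 ≤ (η * |a n| - 1) ^ 2 := sq_nonneg _
      have h5 : |a n| ^ 2 = a n ^ 2 := sq_abs _
      rw [← h5, ← sub_nonneg]
      have e : η / 2 * |a n| ^ 2 + 1 / (2 * η) * 1 - |a n| = (η * |a n| - 1) ^ 2 / (2 * η) := by
        field_simp
        ring
      rw [e]
      positivity
    · rw [if_neg hd, if_neg hd, mul_zero, add_zero]
      positivity
  have h4 : (N : ℝ)⁻¹ * ∑ n ∈ Icc 1 N, (if D n then |a n| else 0)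
      ≤ η / 2 * ((N : ℝ)⁻¹ * ∑ n ∈ Icc 1 N, a n ^ 2) + 1 / (2 * η) * (cnt D N / N) := by
    calc _ ≤ (N : ℝ)⁻¹ * (η / 2 * ∑ n ∈ Icc 1 N, a n ^ 2 + 1 / (2 * η) * cnt D N) :=
          mul_le_mul_of_nonneg_left h3 (by positivity)
      _ = _ := by field_simp
  have h5 : η / 2 * ((N : ℝ)⁻¹ * ∑ n ∈ Icc 1 N, a n ^ 2) < η / 2 * (B + 1) :=
    mul_lt_mul_of_pos_left a1 (by positivity)
  have h6 : 1 / (2 * η) * (cnt D N / N) < 1 / (2 * η) * (η * ε) := mul_lt_mul_of_pos_left a2 (by positivity)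
  have h7 : η / 2 * (B + 1) = ε / 2 := by rw [hη]; field_simp
  have h8 : 1 / (2 * η) * (η * ε) = ε / 2 := by field_simp
  linarith

/-- POINTWISE ERGODIC THEOREM along all properties that differ from `P` on a set of density zero -/
theorem pw {P : ℕ → Prop} (hP : ∀ n, 1 ≤ n → (P n ↔ P (Tn n))) {δ : ℝ} (hδ : Dn P δ)
    {X : Type} [MeasurableSpace X] {μ : Measure X} [IsProbabilityMeasure μ] {R : X → X} (hR : MeasurePreserving R μ μ)
    {f : X → ℝ} (hf : MemLp f 2 μ) :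
    ∀ᵐ x ∂μ, (∀ Q : ℕ → Prop, Tendsto (fun N : ℕ => cnt (fun n => ¬ (P n ↔ Q n)) N / N) atTop (𝓝 0) →
      Tendsto (fun N : ℕ => (N : ℝ)⁻¹ * ∑ n ∈ Icc 1 N, if Q n then f (R^[n] x) else 0) atTop
        (𝓝 (δ * (μ[f | MeasurableSpace.invariants R]) x))) ∧
      Tendsto (fun N : ℕ => (N : ℝ)⁻¹ * ∑ n ∈ Icc 1 N, f (R^[n] x)) atTop
        (𝓝 ((μ[f | MeasurableSpace.invariants R]) x)) := by
  have hf1 : Integrable f μ := hf.integrable (by norm_num)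
  have hf2 : Integrable (fun x => f x ^ 2) μ := hf.integrable_sq
  filter_upwards [Pool.Agent.Q49.PE.pointwise_lim (Or.inl rfl : (1 : ℤ) = 1 ∨ _) hR hf1,
    Pool.Agent.Q49.PE.pointwise_lim (Or.inl rfl : (1 : ℤ) = 1 ∨ _) hR hf2] with x hx1 hx2
  have h1 := hx1 (NS P) (ns_inv hP) δ (ns_dens hδ)
  have h2 := hx2 (NS fun _ => True) (ns_inv fun _ _ => Iff.rfl) 1 (ns_dens dn_true)
  have h3 := hx1 (NS fun _ => True) (ns_inv fun _ _ => Iff.rfl) 1 (ns_dens dn_true)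
  have e2 : ∀ (w : ℕ → ℝ) (N : ℕ), ∑ n ∈ Icc 1 N, Pool.Agent.Q49.PE.g (NS fun _ => True) (1 * (n : ℤ)) * w n
      = ∑ n ∈ Icc 1 N, w n := by
    intro w N
    apply sum_congr rfl; intro n hn
    rw [mem_Icc] at hn
    rw [ns_g _ hn.1, if_pos trivial, one_mul]
  simp_rw [e2, one_mul] at h2 h3
  refine ⟨fun Q hQ => ?_, h3⟩
  have h4 := cs_small (a := fun n => f (R^[n] x)) h2 hQ
  have e1 : ∀ N : ℕ, ∑ n ∈ Icc 1 N, Pool.Agent.Q49.PE.g (NS P) (1 * (n : ℤ)) * f (R^[n] x)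
      = ∑ n ∈ Icc 1 N, if P n then f (R^[n] x) else 0 := by
    intro N
    apply sum_congr rfl; intro n hn
    rw [mem_Icc] at hn
    rw [ns_g _ hn.1]
    split_ifs <;> simp
  simp_rw [e1] at h1
  have h5 : Tendsto (fun N : ℕ => (N : ℝ)⁻¹ * ∑ n ∈ Icc 1 N, (if Q n then f (R^[n] x) else 0)
      - (N : ℝ)⁻¹ * ∑ n ∈ Icc 1 N, (if P n then f (R^[n] x) else 0)) atTop (𝓝 0) := by
    refine squeeze_zero_norm (fun N => ?_) h4
    rw [← mul_sub, ← sum_sub_distrib, Real.norm_eq_abs, abs_mul, abs_of_nonneg (by positivity : (0 : ℝ) ≤ (N : ℝ)⁻¹)]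
    refine mul_le_mul_of_nonneg_left ((abs_sum_le_sum_abs _ _).trans (sum_le_sum fun n _ => ?_)) (by positivity)
    by_cases hp : P n <;> by_cases hq : Q n <;> simp [hp, hq]
  have h6 := h5.add h1
  simpa using h6

/-- the return times of a set of positive measure are sufficient -/
theorem pw_suff {P : ℕ → Prop} (hP : ∀ n, 1 ≤ n → (P n ↔ P (Tn n))) {δ : ℝ} (hδ : Dn P δ) (hδ1 : δ ≤ 1)
    {Q : ℕ → Prop} (hQ : Tendsto (fun N : ℕ => cnt (fun n => ¬ (P n ↔ Q n)) N / N) atTop (𝓝 0))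
    {X : Type} [MeasurableSpace X] {μ : Measure X} [IsProbabilityMeasure μ] {R : X → X} (hR : Ergodic R μ)
    {A : Set X} (hA : MeasurableSet A) (hpos : 0 < μ A) {ψ : ℕ → ℝ} (hψ : Tendsto ψ atTop (𝓝 0))
    (hbad : ¬ ∀ᵐ x ∂μ, ¬ ∃ᶠ N : ℕ in atTop, ({n : ℕ | 1 ≤ n ∧ n ≤ N ∧ ¬ Q n ∧ R^[n] x ∈ A}.ncard : ℝ) ≤ ψ N * N) :
    δ = 1 := by
  by_contra hcon
  have hδ' : 0 < 1 - δ := by
    rcases hδ1.lt_or_eq with h6 | h6
    · linarith
    · exact absurd h6 hcon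
  apply hbad
  set f : X → ℝ := A.indicator (fun _ => (1 : ℝ)) with hf
  have hfm : Measurable f := measurable_const.indicator hA
  have hfb : ∀ x, |f x| ≤ 1 := by
    intro x
    rw [hf, Set.indicator_apply]
    split_ifs <;> simp
  have hfi : MemLp f 2 μ := MemLp.of_bound hfm.aestronglyMeasurable 1 (Eventually.of_forall fun x => by
    rw [Real.norm_eq_abs]; exact hfb x)
  have hint : 0 < ∫ x, f x ∂μ := by
    rw [hf, integral_indicator_const (1 : ℝ) hA, smul_eq_mul, mul_one]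
    exact ENNReal.toReal_pos hpos.ne' (measure_ne_top μ A)
  filter_upwards [pw hP hδ hR.toMeasurePreserving hfi,
    Pool.Agent.H165R3.BPE.birkhoff hR.toMeasurePreserving f hfm 1 hfb,
    Pool.Agent.H165R3.birkhoff hR f hfm ⟨1, hfb⟩] with x hx1 hx2 hx3 hcon
  have e1 : (μ[f | MeasurableSpace.invariants R]) x = ∫ x, f x ∂μ := tendsto_nhds_unique hx2 hx3
  have h1 := hx1.2.sub (hx1.1 Q hQ)
  rw [e1] at h1
  have h2 : ∀ᶠ N : ℕ in atTop, ((1 - δ) * ∫ x, f x ∂μ) / 2 < (N : ℝ)⁻¹ * ∑ n ∈ Icc 1 N, f (R^[n] x)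
      - (N : ℝ)⁻¹ * ∑ n ∈ Icc 1 N, (if Q n then f (R^[n] x) else 0) :=
    (tendsto_order.1 h1).1 _ (by
      have : 0 < (1 - δ) * ∫ x, f x ∂μ := by positivity
      linarith)
  have h3 : ∀ᶠ N : ℕ in atTop, ψ N < ((1 - δ) * ∫ x, f x ∂μ) / 2 := (tendsto_order.1 hψ).2 _ (by positivity)
  obtain ⟨N, h4, h5, h6, h7⟩ := (hcon.and_eventually (h2.and (h3.and (eventually_gt_atTop 0)))).exists
  have hN0 : (0 : ℝ) < N := by exact_mod_cast h7
  have h8 : ({n : ℕ | 1 ≤ n ∧ n ≤ N ∧ ¬ Q n ∧ R^[n] x ∈ A}.ncard : ℝ) =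
      ∑ n ∈ Icc 1 N, f (R^[n] x) - ∑ n ∈ Icc 1 N, (if Q n then f (R^[n] x) else 0) := by
    have h9 : {n : ℕ | 1 ≤ n ∧ n ≤ N ∧ ¬ Q n ∧ R^[n] x ∈ A} =
        (((Icc 1 N).filter (fun n : ℕ => ¬ Q n ∧ R^[n] x ∈ A) : Finset ℕ) : Set ℕ) := by
      ext n
      simp only [Set.mem_ofPred_eq, coe_filter, Finset.mem_Icc, and_assoc]
    rw [h9, Set.ncard_coe_finset, card_filter, ← sum_sub_distrib]
    push_cast
    apply sum_congr rfl; intro n _
    rw [hf, Set.indicator_apply]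
    by_cases a1 : Q n <;> by_cases a2 : R^[n] x ∈ A <;> simp [a1, a2]
  rw [h8] at h4
  rw [← mul_sub, lt_inv_mul_iff₀ hN0] at h5
  nlinarith

/-- uniform convergence -/
theorem pw_unif {P : ℕ → Prop} (hP : ∀ n, 1 ≤ n → (P n ↔ P (Tn n))) {δ : ℝ} (hδ : Dn P δ)
    {Q : ℕ → Prop} (hQ : Tendsto (fun N : ℕ => cnt (fun n => ¬ (P n ↔ Q n)) N / N) atTop (𝓝 0))
    {X : Type} {R : X → X} {f : X → ℝ} {B c : ℝ} (hB : ∀ x, |f x| ≤ B)
    (hc : ∀ ε : ℝ, 0 < ε → ∃ H₀ : ℕ, ∀ H : ℕ, H₀ ≤ H → ∀ x, |∑ h ∈ range H, f (R^[h] x) - c * H| ≤ ε * H)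
    {ε : ℝ} (hε : 0 < ε) : ∃ N₀ : ℕ, ∀ N : ℕ, N₀ ≤ N → ∀ x,
      |∑ n ∈ Icc 1 N, (if Q n then f (R^[n] x) else 0) - c * δ * N| ≤ ε * N := by
  obtain ⟨N1, h1⟩ := Pool.Agent.Results.MP_edb5be_nt.PointwiseErgodicTheorem.uniform_all (s := 1) (Or.inl rfl) hB hc
    (show 0 < ε / 2 by positivity)
  obtain ⟨δ', hδ', h2⟩ := h1 (NS P) (ns_inv hP)
  have e0 : δ' = δ := tendsto_nhds_unique hδ' (ns_dens hδ)
  rw [e0] at h2
  set K : ℝ := |B| + 1 with hK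
  have hK0 : 0 < K := by positivity
  obtain ⟨N2, h3⟩ := eventually_atTop.1 ((tendsto_order.1 hQ).2 (ε / (2 * K)) (by positivity))
  refine ⟨N1 + N2 + 1, fun N hN x => ?_⟩
  have hN0 : (0 : ℝ) < N := by exact_mod_cast (by omega : 0 < N)
  have a1 := h2 N (by omega) x
  have a2 := h3 N (by omega)
  rw [div_lt_iff₀ hN0] at a2
  have e1 : Pool.Agent.Results.MP_edb5be_nt.PointwiseErgodicTheorem.sumAlong 1 (NS P) N (fun n => f (R^[n] x))
      = ∑ n ∈ Icc 1 N, if P n then f (R^[n] x) else 0 := by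
    unfold Pool.Agent.Results.MP_edb5be_nt.PointwiseErgodicTheorem.sumAlong
    apply sum_congr rfl; intro n hn
    rw [mem_Icc] at hn
    have := ns_g P hn.1
    unfold Pool.Agent.Q49.PE.g at this
    rw [this]
    split_ifs <;> simp
  rw [e1] at a1
  have h4 : |∑ n ∈ Icc 1 N, (if Q n then f (R^[n] x) else 0) - ∑ n ∈ Icc 1 N, (if P n then f (R^[n] x) else 0)|
      ≤ K * cnt (fun n => ¬ (P n ↔ Q n)) N := by
    rw [cnt_sum, mul_sum, ← sum_sub_distrib]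
    refine (abs_sum_le_sum_abs _ _).trans (sum_le_sum fun n _ => ?_)
    have h5 : |f (R^[n] x)| ≤ K := (hB _).trans (by rw [hK]; linarith [le_abs_self B])
    by_cases hp : P n <;> by_cases hq : Q n <;> simp [hp, hq, h5]
  have h5 : K * cnt (fun n => ¬ (P n ↔ Q n)) N ≤ ε / 2 * N := by
    calc _ ≤ K * (ε / (2 * K) * N) := mul_le_mul_of_nonneg_left a2.le hK0.le
      _ = ε / 2 * N := by field_simp
  have h6 := abs_add_le (∑ n ∈ Icc 1 N, (if Q n then f (R^[n] x) else 0) - ∑ n ∈ Icc 1 N, (if P n then f (R^[n] x) else 0))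
    (∑ n ∈ Icc 1 N, (if P n then f (R^[n] x) else 0) - c * δ * N)
  rw [sub_add_sub_cancel] at h6
  linarith

end Pool.Agent.Q250.CL
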