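import Pool.Agent.Q250.CL.WarW
import Pool.Agent.Q250.CL.MulW
import Pool.Agent.Q250.CL.Pt

/-! Mean values of bounded functions of a function which obeys a law of large numbers. -/

set_option autoImplicit false

namespace Pool.Agent.Q250.CL

open Finset Filter Topology MeasureTheory
open Pool.Agent.H499R2.ND (Dn cnt Tn NS NS_inv)
open Pool.Agent.Results.MP_d02c56_nt.WaringProblem (Spread)
open scoped Classical

/-- the error is small in the mean -/
theorem phi_err {P : ℕ → Prop} {s u : ℕ → ℝ} {κ uc M : ℝ} (hM : ∀ n, |u n| ≤ M)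
    (hu : ∀ ε : ℝ, 0 < ε → ∃ η : ℝ, 0 < η ∧ ∀ n : ℕ, 2 ≤ n → P n → |s n - κ * Real.log n| ≤ η * Real.log n → |u n - uc| ≤ ε)
    (hl : ∀ η : ℝ, 0 < η → Tendsto (fun N : ℕ =>
      cnt (fun n => P n ∧ η * Real.log n < |s n - κ * Real.log n|) N / N) atTop (𝓝 0)) :
    Tendsto (fun N : ℕ => (∑ n ∈ Icc 1 N, |if P n then u n - uc else 0|) / N) atTop (𝓝 0) := by
  rw [Metric.tendsto_atTop]
  intro ε hε
  obtain ⟨η, hη, hη2⟩ := hu (ε / 2) (by positivity)
  have hM0 : 0 ≤ M := (abs_nonneg _).trans (hM 0)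
  set K : ℝ := M + |uc| + 1 with hK
  have hK0 : 0 < K := by rw [hK]; have := abs_nonneg uc; linarith
  obtain ⟨N1, h1⟩ := eventually_atTop.1 ((tendsto_order.1 (hl η hη)).2 (ε / (4 * K)) (by positivity))
  obtain ⟨N2, h2⟩ := exists_nat_gt (4 * K / ε)
  refine ⟨N1 + N2 + 1, fun N hN => ?_⟩
  have hN0 : (0 : ℝ) < N := by exact_mod_cast (by omega : 0 < N)
  have a1 := h1 N (by omega)
  rw [div_lt_iff₀ hN0] at a1
  have a2 : 4 * K / ε < N := h2.trans_le (by exact_mod_cast (by omega : N2 ≤ N))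
  rw [div_lt_iff₀ hε] at a2
  have key : ∀ n ∈ Icc 1 N, |if P n then u n - uc else 0| ≤ ε / 2
      + K * (if P n ∧ η * Real.log n < |s n - κ * Real.log n| then (1 : ℝ) else 0) + (if n = 1 then K else 0) := by
    intro n hn
    rw [mem_Icc] at hn
    have hcr : |u n - uc| ≤ K := by
      have h4 : |u n - uc| ≤ |u n| + |uc| := abs_sub _ _
      have h5 := hM n
      rw [hK]; linarith
    have hx : (0 : ℝ) ≤ (if P n ∧ η * Real.log n < |s n - κ * Real.log n| then (1 : ℝ) else 0) := by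
      split_ifs <;> norm_num
    have hy : (0 : ℝ) ≤ (if n = 1 then K else 0) := by
      split_ifs
      · exact hK0.le
      · exact le_rfl
    have hz := mul_nonneg hK0.le hx
    by_cases hp : P n
    · rw [if_pos hp]
      by_cases h1n : n = 1
      · have e : (if n = 1 then K else 0) = K := if_pos h1n
        rw [e]
        linarith
      · by_cases hb : η * Real.log n < |s n - κ * Real.log n|
        · have e : (if P n ∧ η * Real.log n < |s n - κ * Real.log n| then (1 : ℝ) else 0) = 1 := if_pos ⟨hp, hb⟩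
          rw [e, mul_one]
          linarith
        · have h6 := hη2 n (by omega) hp (not_lt.1 hb)
          linarith
    · rw [if_neg hp, abs_zero]
      have : 0 < ε / 2 := by positivity
      linarith
  have hnn : 0 ≤ (∑ n ∈ Icc 1 N, |if P n then u n - uc else 0|) / N :=
    div_nonneg (sum_nonneg fun n _ => abs_nonneg _) hN0.le
  rw [Real.dist_eq, sub_zero, abs_of_nonneg hnn, div_lt_iff₀ hN0]
  refine (sum_le_sum key).trans_lt ?_
  have e0 : ∑ n ∈ Icc 1 N, (if P n ∧ η * Real.log n < |s n - κ * Real.log n| then (1 : ℝ) else 0)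
      = cnt (fun n => P n ∧ η * Real.log n < |s n - κ * Real.log n|) N := by
    rw [cnt_sum]
    exact sum_congr rfl fun n _ => by split_ifs <;> rfl
  rw [sum_add_distrib, sum_add_distrib, sum_const, Nat.card_Icc, Nat.add_sub_cancel, nsmul_eq_mul, ← mul_sum, e0]
  have e1 : ∑ n ∈ Icc 1 N, (if n = 1 then K else 0) = K := by
    rw [sum_ite_eq' (Icc 1 N) 1 (fun _ => K), if_pos (by rw [mem_Icc]; omega)]
  rw [e1]
  have h7 : K * cnt (fun n => P n ∧ η * Real.log n < |s n - κ * Real.log n|) N ≤ K * (ε / (4 * K) * N) :=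
    mul_le_mul_of_nonneg_left a1.le hK0.le
  have h8 : K * (ε / (4 * K) * N) = ε / 4 * N := by field_simp
  linarith

/-! ### Fourier coefficients with weights -/

/-- small Fourier coefficients of the weights -/
def FUW (w : ℕ → ℝ) : Prop := ∀ ε : ℝ, 0 < ε → ∃ N₀ : ℕ, ∀ N : ℕ, N₀ ≤ N → ∀ α : ℝ,
  ‖∑ n ∈ Icc 1 N, ((w n : ℝ) : ℂ) * Complex.exp (2 * Real.pi * (α * n : ℝ) * Complex.I)‖ ≤ ε * N

theorem fuw_near {P : ℕ → Prop} {δ : ℝ} (h : FU P δ) {w : ℕ → ℝ} {c : ℝ}
    (hd : Tendsto (fun N : ℕ => (∑ n ∈ Icc 1 N, |w n - c * ((if P n then (1 : ℝ) else 0) - δ)|) / N) atTop (𝓝 0)) :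
    FUW w := by
  intro ε hε
  obtain ⟨N0, H⟩ := h (ε / (2 * (|c| + 1))) (by positivity)
  obtain ⟨N1, H1⟩ := eventually_atTop.1 ((tendsto_order.1 hd).2 (ε / 2) (by positivity))
  refine ⟨N0 + N1 + 1, fun N hN α => ?_⟩
  have h1 := H N (by omega) α
  have h2 := H1 N (by omega)
  have hN0 : (0 : ℝ) < N := by exact_mod_cast (by omega : 0 < N)
  rw [div_lt_iff₀ hN0] at h2
  have e : ∑ n ∈ Icc 1 N, ((w n : ℝ) : ℂ) * Complex.exp (2 * Real.pi * (α * n : ℝ) * Complex.I)
      = (c : ℂ) * (∑ n ∈ Icc 1 N, (((if P n then (1 : ℝ) else 0) - δ : ℝ) : ℂ)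
        * Complex.exp (2 * Real.pi * (α * n : ℝ) * Complex.I))
      + ∑ n ∈ Icc 1 N, ((w n - c * ((if P n then (1 : ℝ) else 0) - δ) : ℝ) : ℂ)
        * Complex.exp (2 * Real.pi * (α * n : ℝ) * Complex.I) := by
    rw [mul_sum, ← sum_add_distrib]
    apply sum_congr rfl; intro n _
    push_cast
    ring
  rw [e]
  refine (norm_add_le _ _).trans ?_
  have h3 : ‖(c : ℂ) * (∑ n ∈ Icc 1 N, (((if P n then (1 : ℝ) else 0) - δ : ℝ) : ℂ)
        * Complex.exp (2 * Real.pi * (α * n : ℝ) * Complex.I))‖ ≤ ε / 2 * N := by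
    rw [norm_mul, Complex.norm_real, Real.norm_eq_abs]
    have hc1 : |c| ≤ |c| + 1 := by linarith
    calc _ ≤ (|c| + 1) * (ε / (2 * (|c| + 1)) * N) := mul_le_mul hc1 h1 (norm_nonneg _) (by positivity)
      _ = ε / 2 * N := by field_simp
  have h4 : ‖∑ n ∈ Icc 1 N, ((w n - c * ((if P n then (1 : ℝ) else 0) - δ) : ℝ) : ℂ)
        * Complex.exp (2 * Real.pi * (α * n : ℝ) * Complex.I)‖
      ≤ ∑ n ∈ Icc 1 N, |w n - c * ((if P n then (1 : ℝ) else 0) - δ)| := by
    refine (norm_sum_le _ _).trans (sum_le_sum fun n _ => ?_)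
    rw [norm_mul, exp_norm, mul_one, Complex.norm_real, Real.norm_eq_abs]
  linarith

theorem war_fuw {w : ℕ → ℝ} (h : FUW w) (r t B : ℕ) (ht : 1 ≤ t) (C : ℝ) {ε : ℝ} (hε : 0 < ε) :
    ∃ N₀ : ℕ, ∀ N : ℕ, N₀ ≤ N → ∀ (L : Fin r → ℕ) (a : ∀ j, Fin (L j) → ℤ), (∀ j i, |a j i| ≤ N) →
      ∀ J : Finset (Fin r), 2 * t ≤ J.card → (∀ j ∈ J, Spread t C N (a j)) →
      ∀ n : ℤ, |n| ≤ B * N → |repSum w n a| ≤ ε * ∏ j, (L j : ℝ) := by
  obtain ⟨ε₁, h1, W, hW, H⟩ := warW (r := r) (B := B) ht C hε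
  obtain ⟨N₀, hN₀⟩ := h ε₁ h1
  refine ⟨N₀ + 1, fun N hN L a ha J hJ hsp n hn => ?_⟩
  have hNW : N ≤ W * N := Nat.le_mul_of_pos_left _ (by omega)
  exact H N (by omega) w (fun α => hN₀ (W * N) (by omega) α) L a ha J hJ hsp n hn

/-! ### pointwise averages -/

/-- the pointwise ergodic theorem with the weights -/
theorem pw_phi {P : ℕ → Prop} (hP : ∀ n, 1 ≤ n → (P n ↔ P (Tn n))) {δ : ℝ} (hδ : Dn P δ)
    {X : Type} [MeasurableSpace X] {μ : Measure X} [IsProbabilityMeasure μ] {R : X → X} (hR : MeasurePreserving R μ μ)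
    {f : X → ℝ} (hf : MemLp f 2 μ) :
    ∀ᵐ x ∂μ, ∀ (w : ℕ → ℝ) (a b K : ℝ), (∀ n, |w n| ≤ K) →
      Tendsto (fun N : ℕ => (∑ n ∈ Icc 1 N, |w n - (if P n then a else b)|) / N) atTop (𝓝 0) →
      Tendsto (fun N : ℕ => (N : ℝ)⁻¹ * ∑ n ∈ Icc 1 N, w n * f (R^[n] x)) atTop
        (𝓝 ((δ * a + (1 - δ) * b) * (μ[f | MeasurableSpace.invariants R]) x)) := by
  have hf2 : Integrable (fun x => f x ^ 2) μ := hf.integrable_sq
  filter_upwards [pw hP hδ hR hf, Pool.Agent.Q49.PE.pointwise_lim (Or.inl rfl : (1 : ℤ) = 1 ∨ _) hR hf2]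
    with x hx hx2 w a b K hK hw
  have hid : Tendsto (fun N : ℕ => cnt (fun n => ¬ (P n ↔ P n)) N / N) atTop (𝓝 0) := by
    refine tendsto_const_nhds.congr fun N => ?_
    rw [cnt_sum]; simp
  set E : ℝ := (μ[f | MeasurableSpace.invariants R]) x
  have h1 := hx.1 P hid
  have h0 := hx.2
  -- the mean square
  have h2 := hx2 (NS fun _ => True) (ns_inv fun _ _ => Iff.rfl) 1 (ns_dens dn_true)
  have e2 : ∀ (w : ℕ → ℝ) (N : ℕ), ∑ n ∈ Icc 1 N, Pool.Agent.Q49.PE.g (NS fun _ => True) (1 * (n : ℤ)) * w n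
      = ∑ n ∈ Icc 1 N, w n := by
    intro w N
    apply sum_congr rfl; intro n hn
    rw [mem_Icc] at hn
    rw [ns_g _ hn.1, if_pos trivial, one_mul]
  simp_rw [e2, one_mul] at h2
  set B : ℝ := (μ[fun x => f x ^ 2 | MeasurableSpace.invariants R]) x
  -- the main term
  have h3 : Tendsto (fun N : ℕ => (N : ℝ)⁻¹ * ∑ n ∈ Icc 1 N, (if P n then a else b) * f (R^[n] x)) atTop
      (𝓝 ((δ * a + (1 - δ) * b) * E)) := by
    have h4 := (h1.const_mul (a - b)).add (h0.const_mul b)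
    have e3 : (a - b) * (δ * E) + b * E = (δ * a + (1 - δ) * b) * E := by ring
    rw [e3] at h4
    refine h4.congr fun N => ?_
    rw [mul_left_comm, mul_left_comm b, ← mul_add, mul_sum, mul_sum, ← sum_add_distrib]
    congr 1
    apply sum_congr rfl; intro n _
    by_cases hp : P n
    · simp only [hp, if_true]; ring
    · simp only [hp, if_false]; ring
  -- the error
  have h5 : Tendsto (fun N : ℕ => (N : ℝ)⁻¹ * ∑ n ∈ Icc 1 N, |w n - (if P n then a else b)| * |f (R^[n] x)|) atTop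
      (𝓝 0) := by
    have hB0 : 0 ≤ B := ge_of_tendsto' h2 fun N => mul_nonneg (by positivity) (sum_nonneg fun n _ => sq_nonneg _)
    set K' : ℝ := K + |a| + |b| + 1 with hK'
    have hK0 : 0 ≤ K := (abs_nonneg _).trans (hK 0)
    have hK'0 : 0 < K' := by rw [hK']; have := abs_nonneg a; have := abs_nonneg b; linarith
    have hd : ∀ n, |w n - (if P n then a else b)| ≤ K' := by
      intro n
      have h6 : |w n - (if P n then a else b)| ≤ |w n| + |(if P n then a else b)| := abs_sub _ _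
      have h7 := hK n
      have h8 : |(if P n then a else b)| ≤ |a| + |b| := by
        have := abs_nonneg a; have := abs_nonneg b
        by_cases hp : P n
        · rw [if_pos hp]; linarith
        · rw [if_neg hp]; linarith
      rw [hK']; linarith
    rw [Metric.tendsto_atTop]
    intro ε hε
    set η : ℝ := ε / (K' * (B + 1)) with hη
    have hη0 : 0 < η := by positivity
    obtain ⟨N1, g1⟩ := eventually_atTop.1 ((tendsto_order.1 h2).2 (B + 1) (by linarith))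
    obtain ⟨N2, g2⟩ := eventually_atTop.1 ((tendsto_order.1 hw).2 (η * ε) (by positivity))
    refine ⟨N1 + N2 + 1, fun N hN => ?_⟩
    have hN0 : (0 : ℝ) < N := by exact_mod_cast (by omega : 0 < N)
    have a1 := g1 N (by omega)
    have a2 := g2 N (by omega)
    have hnn : 0 ≤ (N : ℝ)⁻¹ * ∑ n ∈ Icc 1 N, |w n - (if P n then a else b)| * |f (R^[n] x)| :=
      mul_nonneg (by positivity) (sum_nonneg fun n _ => by positivity)
    rw [Real.dist_eq, sub_zero, abs_of_nonneg hnn]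
    have h9 : ∑ n ∈ Icc 1 N, |w n - (if P n then a else b)| * |f (R^[n] x)|
        ≤ η * K' / 2 * ∑ n ∈ Icc 1 N, f (R^[n] x) ^ 2 + 1 / (2 * η) * ∑ n ∈ Icc 1 N, |w n - (if P n then a else b)| := by
      rw [mul_sum, mul_sum, ← sum_add_distrib]
      refine sum_le_sum fun n _ => ?_
      set d : ℝ := |w n - (if P n then a else b)|
      set y : ℝ := |f (R^[n] x)|
      have hd0 : 0 ≤ d := abs_nonneg _
      have hy0 : 0 ≤ y := abs_nonneg _
      have h10 : y ≤ η / 2 * y ^ 2 + 1 / (2 * η) := by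
        have h11 : 0 ≤ (η * y - 1) ^ 2 / (2 * η) := by positivity
        have e4 : η / 2 * y ^ 2 + 1 / (2 * η) - y = (η * y - 1) ^ 2 / (2 * η) := by
          field_simp
          ring
        linarith
      have h12 : f (R^[n] x) ^ 2 = y ^ 2 := (sq_abs _).symm
      rw [h12]
      calc d * y ≤ d * (η / 2 * y ^ 2 + 1 / (2 * η)) := mul_le_mul_of_nonneg_left h10 hd0
        _ = d * (η / 2 * y ^ 2) + 1 / (2 * η) * d := by ring
        _ ≤ K' * (η / 2 * y ^ 2) + 1 / (2 * η) * d := by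
            have := mul_le_mul_of_nonneg_right (hd n) (show 0 ≤ η / 2 * y ^ 2 by positivity)
            linarith
        _ = _ := by ring
    have h13 : (N : ℝ)⁻¹ * ∑ n ∈ Icc 1 N, |w n - (if P n then a else b)| * |f (R^[n] x)|
        ≤ η * K' / 2 * ((N : ℝ)⁻¹ * ∑ n ∈ Icc 1 N, f (R^[n] x) ^ 2)
          + 1 / (2 * η) * ((∑ n ∈ Icc 1 N, |w n - (if P n then a else b)|) / N) := by
      calc _ ≤ (N : ℝ)⁻¹ * (η * K' / 2 * ∑ n ∈ Icc 1 N, f (R^[n] x) ^ 2
            + 1 / (2 * η) * ∑ n ∈ Icc 1 N, |w n - (if P n then a else b)|) :=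
            mul_le_mul_of_nonneg_left h9 (by positivity)
        _ = _ := by field_simp
    have h14 : η * K' / 2 * ((N : ℝ)⁻¹ * ∑ n ∈ Icc 1 N, f (R^[n] x) ^ 2) < η * K' / 2 * (B + 1) :=
      mul_lt_mul_of_pos_left a1 (by positivity)
    have h15 : 1 / (2 * η) * ((∑ n ∈ Icc 1 N, |w n - (if P n then a else b)|) / N) < 1 / (2 * η) * (η * ε) :=
      mul_lt_mul_of_pos_left a2 (by positivity)
    have h16 : η * K' / 2 * (B + 1) = ε / 2 := by rw [hη]; field_simp
    have h17 : 1 / (2 * η) * (η * ε) = ε / 2 := by field_simp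
    linarith
  have h18 : Tendsto (fun N : ℕ => (N : ℝ)⁻¹ * ∑ n ∈ Icc 1 N, w n * f (R^[n] x)
      - (N : ℝ)⁻¹ * ∑ n ∈ Icc 1 N, (if P n then a else b) * f (R^[n] x)) atTop (𝓝 0) := by
    refine squeeze_zero_norm (fun N => ?_) h5
    rw [← mul_sub, ← sum_sub_distrib, Real.norm_eq_abs, abs_mul, abs_of_nonneg (by positivity : (0 : ℝ) ≤ (N : ℝ)⁻¹)]
    refine mul_le_mul_of_nonneg_left ((abs_sum_le_sum_abs _ _).trans (sum_le_sum fun n _ => ?_)) (by positivity)
    rw [← sub_mul, abs_mul]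
  have h19 := h18.add h3
  simpa using h19

end Pool.Agent.Q250.CL
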