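import Pool.Agent.Q250.CL.PhiM

/-! Averages over all representations by an integer and `k`-th powers. -/

set_option autoImplicit false

namespace Pool.Agent.Q250.CL

open Finset Filter Topology
open Pool.Agent.Results.MP_d02c56_nt.WaringProblem (Spread vals poly_spread)
open scoped Classical

/-- sums over the representations by `k`-th powers -/
noncomputable def powSum (w : ℕ → ℝ) (n k r : ℕ) : ℝ :=
  ∑ m ∈ Fintype.piFinset (fun _ : Fin r => Finset.Icc 1 n), if ∑ j, m j ^ k < n then w (n - ∑ j, m j ^ k) else 0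

theorem vals_pow (k L : ℕ) (i : Fin L) : vals (Polynomial.X ^ k) L i = ((((i : ℕ) + 1) ^ k : ℕ) : ℤ) := by
  unfold Pool.Agent.Results.MP_d02c56_nt.WaringProblem.vals
  simp only [Polynomial.eval_pow, Polynomial.eval_X]
  push_cast; rfl

theorem vals_sum (k L r : ℕ) (v : Fin r → Fin L) :
    ∑ j, vals (Polynomial.X ^ k) L (v j) = ((∑ j, ((v j : ℕ) + 1) ^ k : ℕ) : ℤ) := by
  rw [Nat.cast_sum]
  exact sum_congr rfl fun j _ => vals_pow k L (v j)

theorem powSum_eq {k : ℕ} (hk : 1 ≤ k) {n L : ℕ} (hL : ∀ m, m ^ k < n → m ≤ L) (w : ℕ → ℝ) (r : ℕ) :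
    powSum w n k r = repSum w (n : ℤ) (fun _ : Fin r => vals (Polynomial.X ^ k) L) := by
  unfold powSum repSum
  rw [← sum_filter, ← sum_filter]
  symm
  refine sum_bij (fun v _ => fun j => ((v j : ℕ) + 1)) ?_ ?_ ?_ ?_
  · intro v hv
    rw [mem_filter] at hv
    have h1 := hv.2
    rw [vals_sum] at h1
    have h2 : ∑ j, ((v j : ℕ) + 1) ^ k < n := by omega
    rw [mem_filter, Fintype.mem_piFinset]
    refine ⟨fun j => ?_, h2⟩
    rw [mem_Icc]
    have h3 : ((v j : ℕ) + 1) ^ k ≤ ∑ j, ((v j : ℕ) + 1) ^ k :=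
      single_le_sum (f := fun j => ((v j : ℕ) + 1) ^ k) (fun _ _ => Nat.zero_le _) (mem_univ j)
    have h4 : (v j : ℕ) + 1 ≤ ((v j : ℕ) + 1) ^ k := Nat.le_self_pow (by omega) _
    omega
  · intro v _ v' _ h
    funext j
    have := congrFun h j
    simp only at this
    exact Fin.ext (by omega)
  · intro m hm
    rw [mem_filter, Fintype.mem_piFinset] at hm
    obtain ⟨h1, h2⟩ := hm
    have h3 : ∀ j, 1 ≤ m j ∧ m j ≤ L := fun j => by
      have h4 := h1 j
      rw [mem_Icc] at h4
      have h5 : m j ^ k ≤ ∑ j, m j ^ k := single_le_sum (f := fun j => m j ^ k) (fun _ _ => Nat.zero_le _) (mem_univ j)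
      exact ⟨h4.1, hL _ (by omega)⟩
    have e : ∀ j, m j - 1 + 1 = m j := fun j => by have := h3 j; omega
    have e0 : ∀ j, m j - 1 < L := fun j => by have := h3 j; omega
    refine ⟨fun j => ⟨m j - 1, e0 j⟩, ?_, ?_⟩
    · rw [mem_filter]
      refine ⟨mem_univ _, ?_⟩
      rw [vals_sum]
      simp only [e]
      omega
    · funext j
      exact e j
  · intro v hv
    rw [mem_filter] at hv
    have h1 := hv.2
    show w ((n : ℤ) - ∑ j, vals (Polynomial.X ^ k) L (v j)).toNat = w (n - ∑ j, ((v j : ℕ) + 1) ^ k)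
    rw [vals_sum] at h1 ⊢
    congr 1
    omega

theorem powSum_one (n k r : ℕ) : powSum (fun _ => 1) n k r =
    (((Fintype.piFinset (fun _ : Fin r => Finset.Icc 1 n)).filter (fun m => ∑ j, m j ^ k < n)).card : ℝ) := by
  unfold powSum
  rw [card_filter]
  push_cast
  rfl

theorem powSum_lin (x y : ℝ) (w w' : ℕ → ℝ) (n k r : ℕ) :
    powSum (fun m => x * w m + y * w' m) n k r = x * powSum w n k r + y * powSum w' n k r := by
  unfold powSum
  rw [mul_sum, mul_sum, ← sum_add_distrib]
  apply sum_congr rfl; intro v _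
  split_ifs <;> ring

/-- averages over all representations -/
theorem pow_mean {k : ℕ} (hk : 1 ≤ k) : ∃ r₀ : ℕ, 1 ≤ r₀ ∧ ∀ r : ℕ, r₀ ≤ r → ∀ (w : ℕ → ℝ) (c : ℝ),
    FUW (fun n => w n - c) →
    Tendsto (fun n : ℕ => powSum w n k r / powSum (fun _ => 1) n k r) atTop (𝓝 c) := by
  have hdeg : (Polynomial.X ^ k : Polynomial ℤ).natDegree = k := Polynomial.natDegree_X_pow k
  have hF : 1 ≤ (Polynomial.X ^ k : Polynomial ℤ).natDegree := by rw [hdeg]; exact hk
  obtain ⟨t₀, C, hC, hsp⟩ := poly_spread _ hF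
  set t : ℕ := t₀ + 1 with ht
  refine ⟨2 * t, by omega, fun r hr w c hw => ?_⟩
  obtain ⟨B, hB1, hbox⟩ := Pool.Agent.Q49.WA.boxes hF (r := r) (by omega)
  have hBR : (0 : ℝ) < B := by exact_mod_cast hB1
  rw [hdeg] at hbox hsp
  rw [Metric.tendsto_atTop]
  intro ε hε
  obtain ⟨N₀, hN₀⟩ := war_fuw hw r t 1 (by omega) (C * (2 ^ k : ℕ)) (show 0 < ε / (2 * (B : ℝ) ^ r) by positivity)
  refine ⟨N₀ + B + 2, fun n hn => ?_⟩
  -- the length
  set L : ℕ := Nat.findGreatest (fun L => L ^ k ≤ n) n with hLdef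
  have hLk : L ^ k ≤ n := by
    have : (fun L => L ^ k ≤ n) 1 := by simp only [one_pow]; omega
    exact Nat.findGreatest_spec (P := fun L => L ^ k ≤ n) (by omega : 1 ≤ n) this
  have hL1 : 1 ≤ L := by
    have : (fun L => L ^ k ≤ n) 1 := by simp only [one_pow]; omega
    exact Nat.le_findGreatest (by omega : 1 ≤ n) this
  have hmax : ∀ m, m ^ k ≤ n → m ≤ L := by
    intro m hm
    rcases Nat.eq_zero_or_pos m with h0 | h0
    · omega
    · have h1 : m ≤ m ^ k := Nat.le_self_pow (by omega) _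
      exact Nat.le_findGreatest (by omega) hm
  have hLn : n < (L + 1) ^ k := by
    by_contra hcon
    have := hmax (L + 1) (not_lt.1 hcon)
    omega
  have hLn2 : n ≤ 2 ^ k * L ^ k := by
    rw [← mul_pow]
    exact hLn.le.trans (Nat.pow_le_pow_left (by omega) k)
  have heq : ∀ u : ℕ → ℝ, powSum u n k r = repSum u (n : ℤ) (fun _ : Fin r => vals (Polynomial.X ^ k) L) :=
    fun u => powSum_eq hk (fun m hm => hmax m hm.le) u r
  have ha : ∀ (j : Fin r) (i : Fin L), |(fun _ : Fin r => vals (Polynomial.X ^ k) L) j i| ≤ (n : ℤ) := by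
    intro j i
    show |vals (Polynomial.X ^ k) L i| ≤ (n : ℤ)
    rw [vals_pow, abs_of_nonneg (by positivity)]
    have : ((i : ℕ) + 1) ^ k ≤ L ^ k := Nat.pow_le_pow_left (by omega) k
    exact_mod_cast this.trans hLk
  have h1 := hN₀ n (by omega) (fun _ => L) (fun _ => vals (Polynomial.X ^ k) L) ha Finset.univ
    (by rw [Finset.card_univ, Fintype.card_fin]; exact hr) (fun j _ => hsp t (by omega) (2 ^ k) L n (by omega) hLn2) n
    (by rw [abs_of_nonneg (Nat.cast_nonneg _)]; push_cast; omega)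
  simp only [Finset.prod_const, Finset.card_univ, Fintype.card_fin] at h1
  rw [← heq (fun n => w n - c)] at h1
  -- the number of the representations
  obtain ⟨L', hL'1, hL'3, hval, hpos, -⟩ := hbox n (by omega)
  have hcard : (L' : ℝ) ^ r ≤ powSum (fun _ => 1) n k r := by
    rw [powSum_one]
    have h2 : L' ^ r = (Finset.univ : Finset (Fin r → Fin L')).card := by
      rw [card_univ, Fintype.card_fun, Fintype.card_fin, Fintype.card_fin]
    have h3 : L' ^ r ≤ ((Fintype.piFinset (fun _ : Fin r => Finset.Icc 1 n)).filter (fun m => ∑ j, m j ^ k < n)).card := by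
      rw [h2]
      refine card_le_card_of_injOn (fun v => fun j => ((v j : ℕ) + 1)) ?_ ?_
      · intro v _
        have h4 := hpos v
        rw [vals_sum] at h4
        have h5 : ∑ j, ((v j : ℕ) + 1) ^ k < n := by omega
        simp only [coe_filter, Set.mem_ofPred_eq, Fintype.mem_piFinset]
        refine ⟨fun j => ?_, h5⟩
        rw [mem_Icc]
        have h6 : ((v j : ℕ) + 1) ^ k ≤ ∑ j, ((v j : ℕ) + 1) ^ k :=
          single_le_sum (f := fun j => ((v j : ℕ) + 1) ^ k) (fun _ _ => Nat.zero_le _) (mem_univ j)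
        have h7 : (v j : ℕ) + 1 ≤ ((v j : ℕ) + 1) ^ k := Nat.le_self_pow (by omega) _
        omega
      · intro v _ v' _ h
        funext j
        have := congrFun h j
        simp only at this
        exact Fin.ext (by omega)
    exact_mod_cast h3
  have hLL : (L : ℝ) ≤ B * L' := by
    have h8 : L ^ k ≤ (B * L') ^ k := by
      rw [mul_pow]
      exact (hLk.trans hL'3).trans (Nat.mul_le_mul_right _ (Nat.le_self_pow (by omega) _))
    have h9 : L ≤ B * L' := (Nat.pow_le_pow_iff_left (by omega)).1 h8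
    exact_mod_cast h9
  have hL'0 : (0 : ℝ) < L' := by exact_mod_cast hL'1
  set S : ℝ := powSum (fun _ => 1) n k r with hS
  have hS0 : 0 < S := lt_of_lt_of_le (by positivity) hcard
  have e : powSum w n k r / S - c = powSum (fun n => w n - c) n k r / S := by
    have e1 : (fun n => w n - c) = fun n => 1 * w n + (-c) * 1 := by funext n; ring
    rw [e1, powSum_lin 1 (-c) w (fun _ => 1), ← hS]
    field_simp
    ring
  rw [Real.dist_eq, e, abs_div, abs_of_pos hS0, div_lt_iff₀ hS0]
  refine h1.trans_lt ?_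
  calc ε / (2 * (B : ℝ) ^ r) * (L : ℝ) ^ r ≤ ε / (2 * (B : ℝ) ^ r) * ((B * L' : ℝ)) ^ r := by
        apply mul_le_mul_of_nonneg_left _ (by positivity)
        exact pow_le_pow_left₀ (Nat.cast_nonneg _) hLL r
    _ = ε / 2 * (L' : ℝ) ^ r := by rw [mul_pow]; field_simp
    _ ≤ ε / 2 * S := mul_le_mul_of_nonneg_left hcard (by positivity)
    _ < ε * S := by
        apply mul_lt_mul_of_pos_right _ hS0
        linarith

end Pool.Agent.Q250.CL
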