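import Pool.Agent.Q250.CL.Base
import Pool.Agent.Q49.EX.F
import Pool.Agent.Q49.WA.Ev

/-! Waring's problem with one summand in a set with small Fourier coefficients. -/

set_option autoImplicit false

namespace Pool.Agent.Q250.CL

open Finset Filter Topology
open Pool.Agent.H499R2.ND (Dn cnt Tn NS NS_inv)
open Pool.Agent.Q49.WA (repsQ polyRepsQ)
open Pool.Agent.Results.MP_d02c56_nt.WaringProblem (Spread vals poly_spread)
open scoped Classical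

/-- small Fourier coefficients -/
def FU (P : ℕ → Prop) (c : ℝ) : Prop := ∀ ε : ℝ, 0 < ε → ∃ N₀ : ℕ, ∀ N : ℕ, N₀ ≤ N → ∀ α : ℝ,
  ‖∑ n ∈ Icc 1 N, (((if P n then (1 : ℝ) else 0) - c : ℝ) : ℂ)
    * Complex.exp (2 * Real.pi * (α * n : ℝ) * Complex.I)‖ ≤ ε * N

theorem exp_norm (α : ℝ) (n : ℕ) : ‖Complex.exp (2 * Real.pi * (α * n : ℝ) * Complex.I)‖ = 1 := by
  have e2 : (2 * (Real.pi : ℂ) * ((α * n : ℝ) : ℂ) * Complex.I) = ((2 * Real.pi * (α * n) : ℝ) : ℂ) * Complex.I := by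
    push_cast; ring
  rw [e2, Complex.norm_exp_ofReal_mul_I]

theorem fu_near {P Q : ℕ → Prop} {c : ℝ} (h : FU P c)
    (hd : Tendsto (fun N : ℕ => cnt (fun n => ¬ (P n ↔ Q n)) N / N) atTop (𝓝 0)) : FU Q c := by
  intro ε hε
  obtain ⟨N0, H⟩ := h (ε / 2) (by positivity)
  obtain ⟨N1, H1⟩ := eventually_atTop.1 ((tendsto_order.1 hd).2 (ε / 2) (by positivity))
  refine ⟨N0 + N1 + 1, fun N hN α => ?_⟩
  have h1 := H N (by omega) α
  have h2 := H1 N (by omega)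
  have hN0 : (0 : ℝ) < N := by exact_mod_cast (by omega : 0 < N)
  rw [div_lt_iff₀ hN0] at h2
  have h3 : ‖(∑ n ∈ Icc 1 N, (((if Q n then (1 : ℝ) else 0) - c : ℝ) : ℂ)
      * Complex.exp (2 * Real.pi * (α * n : ℝ) * Complex.I))
      - ∑ n ∈ Icc 1 N, (((if P n then (1 : ℝ) else 0) - c : ℝ) : ℂ)
      * Complex.exp (2 * Real.pi * (α * n : ℝ) * Complex.I)‖
      ≤ cnt (fun n => ¬ (P n ↔ Q n)) N := by
    rw [← sum_sub_distrib, cnt_sum]
    refine (norm_sum_le _ _).trans (sum_le_sum fun n _ => ?_)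
    rw [← sub_mul, norm_mul, exp_norm, mul_one, ← Complex.ofReal_sub, sub_sub_sub_cancel_right, Complex.norm_real,
      Real.norm_eq_abs]
    by_cases hp : P n <;> by_cases hq : Q n <;> simp [hp, hq]
  have e : (∑ n ∈ Icc 1 N, (((if Q n then (1 : ℝ) else 0) - c : ℝ) : ℂ)
      * Complex.exp (2 * Real.pi * (α * n : ℝ) * Complex.I))
      = ((∑ n ∈ Icc 1 N, (((if Q n then (1 : ℝ) else 0) - c : ℝ) : ℂ)
      * Complex.exp (2 * Real.pi * (α * n : ℝ) * Complex.I))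
      - ∑ n ∈ Icc 1 N, (((if P n then (1 : ℝ) else 0) - c : ℝ) : ℂ)
      * Complex.exp (2 * Real.pi * (α * n : ℝ) * Complex.I))
      + ∑ n ∈ Icc 1 N, (((if P n then (1 : ℝ) else 0) - c : ℝ) : ℂ)
      * Complex.exp (2 * Real.pi * (α * n : ℝ) * Complex.I) := by ring
  rw [e]
  refine (norm_add_le _ _).trans ?_
  linarith

theorem fu_not {P : ℕ → Prop} {c : ℝ} (h : FU P c) : FU (fun n => ¬ P n) (1 - c) := by
  intro ε hε
  obtain ⟨N0, H⟩ := h ε hε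
  refine ⟨N0, fun N hN α => ?_⟩
  refine le_trans (le_of_eq ?_) (H N hN α)
  rw [← norm_neg, ← sum_neg_distrib]
  congr 1
  apply sum_congr rfl; intro n _
  rw [← neg_mul]
  congr 1
  by_cases hp : P n <;> simp [hp]

/-- invariant sets -/
theorem fu_inv {P : ℕ → Prop} (hP : ∀ n, 1 ≤ n → (P n ↔ P (Tn n))) {δ : ℝ} (hδ : Dn P δ) : FU P δ := by
  intro ε hε
  obtain ⟨N0, _, h0⟩ := Pool.Agent.Q49.EX.orth_all (s := 1) (Or.inl rfl) (lt_min hε one_pos) (min_le_right ε 1) 0 1 0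
  refine ⟨N0, fun N hN α => ?_⟩
  have h1 := Pool.Agent.Q49.EX.sml_triv (h0 (NS P) (NS_inv hP) δ (Pool.Agent.Q49.EX.hd_nat hP hδ) N hN (2 * Real.pi * α))
  refine le_trans (le_of_eq ?_) (h1.trans (mul_le_mul_of_nonneg_right (min_le_left _ _) (Nat.cast_nonneg _)))
  congr 1
  apply sum_congr rfl; intro n hn
  rw [mem_Icc] at hn
  have h4 := Pool.Agent.Q49.EX.bal_eq (P := P) δ hn.1
  unfold Pool.Agent.W41.MU.tw at h4 ⊢
  have e2 : Complex.exp ((((0 : ℝ) * ((n : ℤ) : ℝ) : ℝ) : ℂ) * Complex.I) = 1 := by simp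
  rw [e2, mul_one] at h4
  rw [h4]
  congr 1
  · by_cases hp : P n <;> simp [hp]
  · congr 1
    push_cast
    ring

/-- EVERY INTEGER: the number of the representations -/
theorem war {P : ℕ → Prop} {δ : ℝ} (h : FU P δ) (r t B : ℕ) (ht : 1 ≤ t) (C : ℝ) {ε : ℝ} (hε : 0 < ε) :
    ∃ N₀ : ℕ, ∀ N : ℕ, N₀ ≤ N → ∀ (L : Fin r → ℕ) (a : ∀ j, Fin (L j) → ℤ), (∀ j i, |a j i| ≤ N) →
      ∀ J : Finset (Fin r), 2 * t ≤ J.card → (∀ j ∈ J, Spread t C N (a j)) →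
      ∀ n : ℤ, |n| ≤ B * N →
        |(repsQ (fun x => P x.toNat) n a : ℝ) - δ * repsQ (fun _ => True) n a| ≤ ε * ∏ j, (L j : ℝ) := by
  obtain ⟨ε₁, h1, h1', W, hW, H⟩ := Pool.Agent.Q49.WA.compare (r := r) (B := B) ht (le_max_right C 0) hε
  obtain ⟨N₀, hN₀⟩ := h ε₁ h1
  refine ⟨N₀ + 1, fun N hN L a ha J hJ hsp n hn => ?_⟩
  have hNW : N ≤ W * N := Nat.le_mul_of_pos_left _ (by omega)
  refine H N (by omega) (fun x : ℤ => P x.toNat) (fun _ => True) δ (fun α => ?_)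
    L a ha J hJ (fun j hj => ?_) n hn
  · have h2 := hN₀ (W * N) (by omega) α
    refine le_trans (le_of_eq ?_) h2
    congr 1
    apply sum_congr rfl; intro n _
    rw [if_pos trivial, mul_one]
    simp only [Int.toNat_natCast]
  · have h3 := hsp j hj
    unfold Spread at h3 ⊢
    refine le_trans h3 ?_
    apply div_le_div_of_nonneg_right _ (Nat.cast_nonneg _)
    exact mul_le_mul_of_nonneg_right (le_max_left _ _) (by positivity)

theorem all_choices {P : Polynomial ℤ} {n L r : ℕ} (hpos : ∀ v : Fin r → Fin L, 0 < (n : ℤ) - ∑ j, vals P L (v j)) :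
    (repsQ (fun _ => True) (n : ℤ) (fun _ : Fin r => vals P L) : ℝ) = (L : ℝ) ^ r := by
  unfold repsQ
  have : {v : ∀ _j : Fin r, Fin L | 0 < (n : ℤ) - ∑ j, vals P L (v j) ∧ True} = Set.univ := by
    ext v
    simp only [Set.mem_ofPred_eq, Set.mem_univ, and_true, iff_true]
    exact hpos v
  rw [this, Set.ncard_univ, Nat.card_eq_fintype_card, Fintype.card_fun, Fintype.card_fin, Fintype.card_fin]
  push_cast
  rfl

/-- a lower bound for every large integer -/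
theorem every {F : Polynomial ℤ} (hF : 1 ≤ F.natDegree) : ∃ r₀ : ℕ, 1 ≤ r₀ ∧ ∀ r : ℕ, r₀ ≤ r →
    ∀ (P : ℕ → Prop) (δ : ℝ), FU P δ → 0 < δ → ∃ κ : ℝ, 0 < κ ∧
    ∃ n₀ : ℕ, ∀ n : ℕ, n₀ ≤ n → κ * (n : ℝ) ^ ((r : ℝ) / F.natDegree) ≤ polyRepsQ (fun x => P x.toNat) n F r := by
  obtain ⟨t₀, C, hC, hsp⟩ := poly_spread F hF
  set t : ℕ := t₀ + 1 with ht
  refine ⟨2 * t, by omega, fun r hr P δ hP hδ => ?_⟩
  obtain ⟨B, hB1, hbox⟩ := Pool.Agent.Q49.WA.boxes hF (r := r) (by omega)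
  have hBR : (0 : ℝ) < B := by exact_mod_cast hB1
  obtain ⟨N₀, hN₀⟩ := war hP r t B (by omega) (C * B) (show 0 < δ / 2 by positivity)
  refine ⟨δ / 2 * (1 / (B : ℝ)) ^ ((r : ℝ) / F.natDegree), by positivity, N₀ + B + 1, fun n hn => ?_⟩
  obtain ⟨L, hL1, hL3, hval, hpos, hfin⟩ := hbox n (by omega)
  refine hfin (fun x => P x.toNat) (δ / 2) (by positivity) ?_
  have ha : ∀ (j : Fin r) (i : Fin L), |(fun _ : Fin r => vals F L) j i| ≤ (n : ℤ) := fun j i =>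
    hval ((i : ℕ) + 1) (Nat.le_add_left 1 _) i.2
  have hspr : ∀ j : Fin r, Spread t (C * B) n ((fun _ : Fin r => vals F L) j) := fun j =>
    hsp t (by omega) B L n (by omega) hL3
  have hnB : |(n : ℤ)| ≤ B * n := by
    rw [abs_of_nonneg (Nat.cast_nonneg _)]
    exact_mod_cast Nat.le_mul_of_pos_left _ hB1
  have h1 := hN₀ n (by omega) (fun _ => L) (fun _ => vals F L) ha Finset.univ
    (by rw [Finset.card_univ, Fintype.card_fin]; exact hr) (fun j _ => hspr j) n hnB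
  simp only [Finset.prod_const, Finset.card_univ, Fintype.card_fin] at h1
  rw [all_choices hpos] at h1
  linarith [(abs_le.1 h1).1]

/-- powers -/
theorem powers {k : ℕ} (hk : 1 ≤ k) : ∃ r : ℕ, 1 ≤ r ∧ ∀ (P : ℕ → Prop) (δ : ℝ), FU P δ → 0 < δ →
    ∃ n₀ : ℕ, ∀ n : ℕ, n₀ ≤ n → ∃ x : ℕ, 1 ≤ x ∧ P x ∧
      ∃ m : Fin r → ℕ, (∀ j, 1 ≤ m j) ∧ n = x + ∑ j, m j ^ k := by
  have hdeg : (Polynomial.X ^ k : Polynomial ℤ).natDegree = k := Polynomial.natDegree_X_pow k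
  obtain ⟨r, hr, H⟩ := every (F := Polynomial.X ^ k) (by rw [hdeg]; exact hk)
  refine ⟨r, hr, fun P δ hP hδ => ?_⟩
  obtain ⟨κ, hκ, n₀, h⟩ := H r le_rfl P δ hP hδ
  refine ⟨n₀ + 1, fun n hn => ?_⟩
  have h1 := h n (by omega)
  have hn0 : (0 : ℝ) < n := by exact_mod_cast (by omega : 0 < n)
  have h2 : (0 : ℝ) < polyRepsQ (fun x => P x.toNat) n (Polynomial.X ^ k) r :=
    lt_of_lt_of_le (by positivity) h1
  have h3 : {m : Fin r → ℕ | (∀ j, 1 ≤ m j ∧ |(Polynomial.X ^ k : Polynomial ℤ).eval (m j : ℤ)| ≤ n) ∧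
      0 < (n : ℤ) - ∑ j, (Polynomial.X ^ k : Polynomial ℤ).eval (m j : ℤ) ∧
      (fun x : ℤ => P x.toNat) ((n : ℤ) - ∑ j, (Polynomial.X ^ k : Polynomial ℤ).eval (m j : ℤ))}.Nonempty := by
    apply Set.nonempty_of_ncard_ne_zero
    intro h0
    unfold polyRepsQ at h2
    rw [h0] at h2
    simp at h2
  obtain ⟨m, hm1, hm2, hm3⟩ := h3
  simp only [Polynomial.eval_pow, Polynomial.eval_X] at hm1 hm2 hm3
  refine ⟨((n : ℤ) - ∑ j, (m j : ℤ) ^ k).toNat, by omega, hm3, m, fun j => (hm1 j).1, ?_⟩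
  have e : (n : ℤ) = ((((n : ℤ) - ∑ j, (m j : ℤ) ^ k).toNat : ℕ) : ℤ) + ∑ j, (m j : ℤ) ^ k := by
    rw [Int.toNat_of_nonneg hm2.le]; ring
  have e2 : ((∑ j, m j ^ k : ℕ) : ℤ) = ∑ j, (m j : ℤ) ^ k := by push_cast; rfl
  rw [← e2] at e
  rw [← e2]
  exact_mod_cast e

/-- few exceptions -/
theorem few_exc {F : Polynomial ℤ} (hF : 1 ≤ F.natDegree) : ∃ r₀ : ℕ, ∀ r : ℕ, r₀ ≤ r →
    ∀ (P : ℕ → Prop) (δ : ℝ), FU P δ → δ ≤ 1 → ∀ ψ : ℕ → ℝ, Tendsto ψ atTop (𝓝 0) →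
    (∃ᶠ n : ℕ in atTop, (polyRepsQ (fun x => ¬ P x.toNat) n F r : ℝ) ≤ ψ n * (n : ℝ) ^ ((r : ℝ) / F.natDegree)) →
    δ = 1 := by
  obtain ⟨r₀, _, H⟩ := every hF
  refine ⟨r₀, fun r hr P δ hP hδ ψ hψ h => ?_⟩
  by_contra hcon
  have hδ' : 0 < 1 - δ := by
    rcases hδ.lt_or_eq with h6 | h6
    · linarith
    · exact absurd h6 hcon
  obtain ⟨κ, hκ, n₀, h1⟩ := H r hr (fun n => ¬ P n) (1 - δ) (fu_not hP) hδ'
  have h2 : ∀ᶠ n : ℕ in atTop, ψ n < κ := (tendsto_order.1 hψ).2 κ hκ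
  obtain ⟨N, h3, h4, h5⟩ := (h.and_eventually (h2.and (eventually_ge_atTop (n₀ + 1)))).exists
  have h6 := h1 N (by omega)
  have hn0 : (0 : ℝ) < N := by exact_mod_cast (by omega : 0 < N)
  have h7 : ψ N * (N : ℝ) ^ ((r : ℝ) / F.natDegree) < κ * (N : ℝ) ^ ((r : ℝ) / F.natDegree) :=
    mul_lt_mul_of_pos_right h4 (by positivity)
  linarith

end Pool.Agent.Q250.CL
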