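import Pool.Agent.Q250.CL.War
import Pool.Agent.H499R2.NDHt

/-! Weighted sums over the representations in Waring's problem; odd summands. -/

set_option autoImplicit false

namespace Pool.Agent.Q250.CL

open Finset Filter Topology
open Pool.Agent.H499R2.ND (Dn cnt Tn)
open Pool.Agent.Q49.WA (repsQ polyRepsQ)
open Pool.Agent.Results.MP_d02c56_nt.WaringProblem (Spread vals poly_spread energy_eq)
open Pool.Agent.Y834.CD (es)
open scoped Classical

/-- sums over the representations -/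
noncomputable def repSum (w : ℕ → ℝ) (n : ℤ) {r : ℕ} {L : Fin r → ℕ} (a : ∀ j, Fin (L j) → ℤ) : ℝ :=
  ∑ v : (∀ j, Fin (L j)), if 0 < n - ∑ j, a j (v j) then w (n - ∑ j, a j (v j)).toNat else 0

theorem repSum_lin (x y : ℝ) (w w' : ℕ → ℝ) (n : ℤ) {r : ℕ} {L : Fin r → ℕ} (a : ∀ j, Fin (L j) → ℤ) :
    repSum (fun m => x * w m + y * w' m) n a = x * repSum w n a + y * repSum w' n a := by
  unfold repSum
  rw [mul_sum, mul_sum, ← sum_add_distrib]
  apply sum_congr rfl; intro v _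
  split_ifs <;> ring

theorem repSum_reps (Q : ℕ → Prop) (n : ℤ) {r : ℕ} {L : Fin r → ℕ} (a : ∀ j, Fin (L j) → ℤ) :
    repSum (fun m => if Q m then 1 else 0) n a = repsQ (fun x => Q x.toNat) n a := by
  rw [Pool.Agent.Q49.WA.repsQ_sum]
  rfl

theorem repSum_odd (P : ℕ → Prop) (n : ℤ) {r : ℕ} {L : Fin r → ℕ} (a : ∀ j, Fin (L j) → ℤ) :
    repSum (fun m => if m % 2 = 1 ∧ P m then 1 else 0) n a = repsQ (fun x => x.toNat % 2 = 1 ∧ P x.toNat) n a := by
  rw [← repSum_reps (fun m => m % 2 = 1 ∧ P m)]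
  congr 1
  funext m
  split_ifs <;> rfl

/-- real weights -/
theorem warW {r t B : ℕ} (ht : 1 ≤ t) (C : ℝ) {ε : ℝ} (hε : 0 < ε) : ∃ ε₁ : ℝ, 0 < ε₁ ∧ ∃ W : ℕ, 1 ≤ W ∧
    ∀ N : ℕ, 1 ≤ N → ∀ g : ℕ → ℝ,
    (∀ α : ℝ, ‖∑ n ∈ Icc 1 (W * N), ((g n : ℝ) : ℂ) * Complex.exp (2 * Real.pi * (α * n : ℝ) * Complex.I)‖
      ≤ ε₁ * (W * N : ℕ)) →
    ∀ (L : Fin r → ℕ) (a : ∀ j, Fin (L j) → ℤ), (∀ j i, |a j i| ≤ N) →
    ∀ J : Finset (Fin r), 2 * t ≤ J.card → (∀ j ∈ J, Spread t C N (a j)) → ∀ n : ℤ, |n| ≤ B * N →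
      |repSum g n a| ≤ ε * ∏ j, (L j : ℝ) := by
  set K : ℝ := max C 0 with hKdef
  have hK : 0 ≤ K := le_max_right _ _
  set w : ℝ := ((B + r + t : ℕ) : ℝ) with hw
  have hw0 : 0 < w := by rw [hw]; exact_mod_cast (by omega : 0 < B + r + t)
  have hrK : (0 : ℝ) ≤ r * K := mul_nonneg (Nat.cast_nonneg _) hK
  set ε₁ : ℝ := ε / (w * (r * K + 1)) with hε₁
  have hε₁0 : 0 < ε₁ := by rw [hε₁]; positivity
  refine ⟨ε₁, hε₁0, B + r + t, by omega, fun N hN g hF L a ha J hJ hsp n hn => ?_⟩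
  have hN0 : (0 : ℝ) < N := by exact_mod_cast hN
  have h1 := Pool.Agent.Q49.WA.finite_waring (K := K) (E := ε₁ * w) ht (by omega : 0 < N) hK
    (fun x : ℤ => g x.toNat) 0 (fun α => by
      have h2 := hF α
      unfold es
      simp only [sub_zero, Int.toNat_natCast]
      refine h2.trans (le_of_eq ?_)
      rw [hw]; push_cast; ring) a ha hJ (fun j hj => by
      have h3 := hsp j hj
      unfold Spread at h3
      rw [energy_eq, le_div_iff₀ hN0] at h3
      exact h3.trans (mul_le_mul_of_nonneg_right (le_max_left _ _) (by positivity))) n hn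
  refine le_trans (le_of_eq ?_) (h1.trans ?_)
  · unfold repSum; simp only [sub_zero]
  · apply mul_le_mul_of_nonneg_right _ (prod_nonneg fun j _ => Nat.cast_nonneg _)
    calc ε₁ * w * (r * K) = ε * ((r * K) / (r * K + 1)) := by rw [hε₁]; field_simp
      _ ≤ ε * 1 := by
          apply mul_le_mul_of_nonneg_left _ hε.le
          rw [div_le_one (by positivity)]
          linarith
      _ = ε := mul_one _

theorem exp_half (α : ℝ) (n : ℕ) : Complex.exp (2 * Real.pi * ((α + 1 / 2) * n : ℝ) * Complex.I) =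
    Complex.exp (2 * Real.pi * (α * n : ℝ) * Complex.I) * (-1) ^ n := by
  have e : (2 * Real.pi * ((α + 1 / 2) * n : ℝ) * Complex.I : ℂ) =
      2 * Real.pi * (α * n : ℝ) * Complex.I + (n : ℂ) * (Real.pi * Complex.I) := by
    push_cast; ring
  rw [e, Complex.exp_add, Complex.exp_nat_mul, Complex.exp_pi_mul_I]

/-- the odd integers with the property -/
theorem fu_odd {P : ℕ → Prop} {δ : ℝ} (h : FU P δ) {ε : ℝ} (hε : 0 < ε) : ∃ N₀ : ℕ, ∀ N : ℕ, N₀ ≤ N → ∀ α : ℝ,
    ‖∑ n ∈ Icc 1 N, (((if n % 2 = 1 ∧ P n then (1 : ℝ) else 0) - δ * (if n % 2 = 1 then 1 else 0) : ℝ) : ℂ)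
      * Complex.exp (2 * Real.pi * (α * n : ℝ) * Complex.I)‖ ≤ ε * N := by
  obtain ⟨N0, H⟩ := h ε hε
  refine ⟨N0, fun N hN α => ?_⟩
  have e : ∑ n ∈ Icc 1 N, (((if n % 2 = 1 ∧ P n then (1 : ℝ) else 0) - δ * (if n % 2 = 1 then 1 else 0) : ℝ) : ℂ)
      * Complex.exp (2 * Real.pi * (α * n : ℝ) * Complex.I)
      = (1 / 2 : ℂ) * (∑ n ∈ Icc 1 N, (((if P n then (1 : ℝ) else 0) - δ : ℝ) : ℂ)
        * Complex.exp (2 * Real.pi * (α * n : ℝ) * Complex.I))
      - (1 / 2 : ℂ) * ∑ n ∈ Icc 1 N, (((if P n then (1 : ℝ) else 0) - δ : ℝ) : ℂ)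
        * Complex.exp (2 * Real.pi * ((α + 1 / 2) * n : ℝ) * Complex.I) := by
    rw [mul_sum, mul_sum, ← sum_sub_distrib]
    apply sum_congr rfl; intro n _
    rw [exp_half]
    rcases Nat.even_or_odd n with ho | ho
    · have h1 : ¬ n % 2 = 1 := by rw [Nat.even_iff] at ho; omega
      rw [ho.neg_one_pow, if_neg (fun h' => h1 h'.1), if_neg h1]
      push_cast; ring
    · have h1 : n % 2 = 1 := Nat.odd_iff.1 ho
      rw [ho.neg_one_pow]
      by_cases hp : P n
      · rw [if_pos ⟨h1, hp⟩, if_pos h1, if_pos hp]; push_cast; ring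
      · rw [if_neg (fun h' => hp h'.2), if_pos h1, if_neg hp]; push_cast; ring
  rw [e]
  refine (norm_sub_le _ _).trans ?_
  rw [norm_mul, norm_mul]
  have h2 : ‖(1 / 2 : ℂ)‖ = 1 / 2 := by norm_num
  rw [h2]
  have h3 := H N hN α
  have h4 := H N hN (α + 1 / 2)
  linarith

/-- frequencies among the odd summands -/
theorem war_odd {P : ℕ → Prop} {δ : ℝ} (h : FU P δ) (r t B : ℕ) (ht : 1 ≤ t) (C : ℝ) {ε : ℝ} (hε : 0 < ε) :
    ∃ N₀ : ℕ, ∀ N : ℕ, N₀ ≤ N → ∀ (L : Fin r → ℕ) (a : ∀ j, Fin (L j) → ℤ), (∀ j i, |a j i| ≤ N) →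
      ∀ J : Finset (Fin r), 2 * t ≤ J.card → (∀ j ∈ J, Spread t C N (a j)) →
      ∀ n : ℤ, |n| ≤ B * N →
        |repSum (fun m => if m % 2 = 1 ∧ P m then 1 else 0) n a
          - δ * repSum (fun m => if m % 2 = 1 then 1 else 0) n a| ≤ ε * ∏ j, (L j : ℝ) := by
  obtain ⟨ε₁, h1, W, hW, H⟩ := warW (r := r) (B := B) ht C hε
  obtain ⟨N₀, hN₀⟩ := fu_odd h h1
  refine ⟨N₀ + 1, fun N hN L a ha J hJ hsp n hn => ?_⟩
  have hNW : N ≤ W * N := Nat.le_mul_of_pos_left _ (by omega)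
  have h2 := H N (by omega) (fun m => 1 * (if m % 2 = 1 ∧ P m then (1 : ℝ) else 0) + (-δ) * (if m % 2 = 1 then 1 else 0))
    (fun α => by
      refine le_trans (le_of_eq ?_) (hN₀ (W * N) (by omega) α)
      congr 1
      apply sum_congr rfl; intro n _
      congr 2
      ring) L a ha J hJ hsp n hn
  rw [repSum_lin] at h2
  refine le_trans (le_of_eq ?_) h2
  congr 1
  ring

/-- truncated functions -/
theorem fu_trunc {P : ℕ → Prop} {δ : ℝ} (h : FU P δ) {t : ℕ → ℝ} {κ Λ : ℝ} (hκ : 0 < κ) (hΛ : κ < Λ) (htn : ∀ n, 0 ≤ t n)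
    (hl : ∀ η : ℝ, 0 < η → Tendsto (fun N : ℕ =>
      cnt (fun n => (n % 2 = 1 ∧ P n) ∧ η * Real.log n < |t n - κ * Real.log n|) N / N) atTop (𝓝 0))
    (W : ℕ) (hW : 1 ≤ W) {ε : ℝ} (hε : 0 < ε) : ∃ N₀ : ℕ, ∀ N : ℕ, N₀ ≤ N → 1 ≤ Real.log N ∧ ∀ α : ℝ,
    ‖∑ n ∈ Icc 1 (W * N), ((((Real.log N)⁻¹ * (if n % 2 = 1 then (if P n then min (t n) (Λ * Real.log N)
        else Λ * Real.log N) else 0) + (-(δ * κ + (1 - δ) * Λ)) * (if n % 2 = 1 then 1 else 0) : ℝ)) : ℂ)
      * Complex.exp (2 * Real.pi * (α * n : ℝ) * Complex.I)‖ ≤ ε * (W * N : ℕ) := by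
  set M : ℝ := 2 * (Λ + κ) + 2 + κ with hM
  have hM0 : 0 < M := by rw [hM]; linarith
  have hΛκ : 0 < Λ - κ := by linarith
  set η : ℝ := min (ε / (2 * M)) (1 / 2) with hη
  have hη0 : 0 < η := by rw [hη]; exact lt_min (by positivity) (by norm_num)
  have hη1 : η ≤ ε / (2 * M) := min_le_left _ _
  have hη2 : η ≤ 1 / 2 := min_le_right _ _
  obtain ⟨N1, h1⟩ := fu_odd h (show 0 < ε / (2 * (Λ - κ)) by positivity)
  obtain ⟨N2, h2⟩ := eventually_atTop.1 ((tendsto_order.1 (hl η hη0)).2 η hη0)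
  have hlt : Tendsto (fun n : ℕ => Real.log (n : ℝ)) atTop atTop :=
    Real.tendsto_log_atTop.comp tendsto_natCast_atTop_atTop
  obtain ⟨N3, h3⟩ := eventually_atTop.1 (hlt.eventually_ge_atTop (max 1 ((Real.log W - Real.log η) / η)))
  refine ⟨N1 + N2 + N3 + 2, fun N hN => ?_⟩
  have hN0 : (0 : ℝ) < N := by exact_mod_cast (by omega : 0 < N)
  have hW0 : (0 : ℝ) < W := by exact_mod_cast (by omega : 0 < W)
  have hNW : N ≤ W * N := Nat.le_mul_of_pos_left _ (by omega)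
  have hL := h3 N (by omega)
  set L := Real.log (N : ℝ) with hLdef
  have hL1 : 1 ≤ L := (le_max_left _ _).trans hL
  have hL0 : 0 < L := by linarith
  have hL2 : Real.log W - Real.log η ≤ η * L := by
    have := (le_max_right _ _).trans hL
    rw [div_le_iff₀ hη0] at this
    linarith
  have hlogη : Real.log η ≤ 0 := Real.log_nonpos hη0.le (by linarith)
  have hlogW : 0 ≤ Real.log W := Real.log_nonneg (by exact_mod_cast hW)
  have hMc : ((W * N : ℕ) : ℝ) = W * N := by push_cast; ring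
  have hMN0 : (0 : ℝ) < (W * N : ℕ) := by rw [hMc]; positivity
  have hlogM : Real.log ((W * N : ℕ) : ℝ) = Real.log W + L := by
    rw [hMc, Real.log_mul hW0.ne' hN0.ne']
  refine ⟨hL1, fun α => ?_⟩
  have a1 := h1 (W * N) (by omega) α
  have a2 := h2 (W * N) (by omega)
  rw [div_lt_iff₀ hMN0] at a2
  set err : ℕ → ℝ := fun n => if n % 2 = 1 ∧ P n then L⁻¹ * min (t n) (Λ * L) - κ else 0 with herr
  have e : ∑ n ∈ Icc 1 (W * N), (((L⁻¹ * (if n % 2 = 1 then (if P n then min (t n) (Λ * L)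
        else Λ * L) else 0) + (-(δ * κ + (1 - δ) * Λ)) * (if n % 2 = 1 then 1 else 0) : ℝ)) : ℂ)
      * Complex.exp (2 * Real.pi * (α * n : ℝ) * Complex.I)
      = (((-(Λ - κ) : ℝ)) : ℂ) * (∑ n ∈ Icc 1 (W * N), (((if n % 2 = 1 ∧ P n then (1 : ℝ) else 0)
        - δ * (if n % 2 = 1 then 1 else 0) : ℝ) : ℂ) * Complex.exp (2 * Real.pi * (α * n : ℝ) * Complex.I))
      + ∑ n ∈ Icc 1 (W * N), ((err n : ℝ) : ℂ) * Complex.exp (2 * Real.pi * (α * n : ℝ) * Complex.I) := by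
    rw [mul_sum, ← sum_add_distrib]
    apply sum_congr rfl; intro n _
    rw [← mul_assoc, ← add_mul, ← Complex.ofReal_mul, ← Complex.ofReal_add]
    congr 2
    rw [herr]
    simp only
    by_cases ho : n % 2 = 1
    · by_cases hp : P n
      · simp only [ho, hp, and_self, if_true]; ring
      · simp only [ho, hp, and_false, if_true, if_false]
        field_simp
        ring
    · simp only [ho, false_and, if_false]; ring
  rw [e]
  refine (norm_add_le _ _).trans ?_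
  have b1 : ‖(((-(Λ - κ) : ℝ)) : ℂ) * (∑ n ∈ Icc 1 (W * N), (((if n % 2 = 1 ∧ P n then (1 : ℝ) else 0)
        - δ * (if n % 2 = 1 then 1 else 0) : ℝ) : ℂ) * Complex.exp (2 * Real.pi * (α * n : ℝ) * Complex.I))‖
        ≤ ε / 2 * (W * N : ℕ) := by
    rw [norm_mul, Complex.norm_real, Real.norm_eq_abs, abs_neg, abs_of_pos hΛκ]
    calc _ ≤ (Λ - κ) * (ε / (2 * (Λ - κ)) * (W * N : ℕ)) := mul_le_mul_of_nonneg_left a1 hΛκ.le
      _ = _ := by field_simp
  have key : ∀ n ∈ Icc 1 (W * N), |err n| ≤ (Λ + κ) * ((if (n : ℝ) < η * (W * N : ℕ) then (1 : ℝ) else 0)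
      + (if (n % 2 = 1 ∧ P n) ∧ η * Real.log n < |t n - κ * Real.log n| then (1 : ℝ) else 0)) + (2 + κ) * η := by
    intro n hn
    rw [mem_Icc] at hn
    have hn1 : (1 : ℝ) ≤ n := by exact_mod_cast hn.1
    have hnN : (n : ℝ) ≤ (W * N : ℕ) := by exact_mod_cast hn.2
    have hx : ∀ (b : Prop) [Decidable b], (0 : ℝ) ≤ (if b then (1 : ℝ) else 0) := fun b _ => by
      split_ifs <;> norm_num
    have hxa := hx ((n : ℝ) < η * (W * N : ℕ))
    have hxb := hx ((n % 2 = 1 ∧ P n) ∧ η * Real.log n < |t n - κ * Real.log n|)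
    have hΛp : 0 < Λ + κ := by linarith
    rw [herr]
    simp only
    by_cases hp : n % 2 = 1 ∧ P n
    · rw [if_pos hp]
      have hm0 : 0 ≤ min (t n) (Λ * L) := le_min (htn n) (mul_nonneg (by linarith) hL0.le)
      have hm1 : L⁻¹ * min (t n) (Λ * L) ≤ Λ := by
        rw [inv_mul_le_iff₀ hL0, mul_comm L Λ]
        exact min_le_right _ _
      have hm2 : 0 ≤ L⁻¹ * min (t n) (Λ * L) := mul_nonneg (by positivity) hm0
      have hcrude : |L⁻¹ * min (t n) (Λ * L) - κ| ≤ Λ + κ := by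
        rw [abs_le]; constructor <;> linarith
      by_cases hb1 : (n : ℝ) < η * (W * N : ℕ)
      · have d1 : (if (n : ℝ) < η * (W * N : ℕ) then (1 : ℝ) else 0) = 1 := if_pos hb1
        rw [d1, mul_add, mul_one]
        have d2 := mul_nonneg hΛp.le hxb
        have d3 : 0 ≤ (2 + κ) * η := by positivity
        linarith
      · by_cases hb2 : (n % 2 = 1 ∧ P n) ∧ η * Real.log n < |t n - κ * Real.log n|
        · have d1 : (if (n % 2 = 1 ∧ P n) ∧ η * Real.log n < |t n - κ * Real.log n| then (1 : ℝ) else 0) = 1 :=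
            if_pos hb2
          rw [d1, mul_add, mul_one]
          have d2 := mul_nonneg hΛp.le hxa
          have d3 : 0 ≤ (2 + κ) * η := by positivity
          linarith
        · have c3 : |t n - κ * Real.log n| ≤ η * Real.log n := not_lt.1 (fun h => hb2 ⟨hp, h⟩)
          have c4 : Real.log n ≤ Real.log W + L := by
            rw [← hlogM]; exact Real.log_le_log (by linarith) hnN
          have c5 : Real.log η + (Real.log W + L) ≤ Real.log n := by
            rw [← hlogM, ← Real.log_mul hη0.ne' hMN0.ne']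
            exact Real.log_le_log (by positivity) (not_lt.1 hb1)
          have c6 : |Real.log n - L| ≤ η * L := by
            rw [abs_le]; constructor <;> linarith
          have c7 : |t n - κ * L| ≤ (2 + κ) * η * L := by
            rw [abs_le] at c3 c6 ⊢
            have c8 : η * Real.log n ≤ η * (2 * L) := mul_le_mul_of_nonneg_left (by nlinarith) hη0.le
            have c9 : κ * (Real.log n - L) ≤ κ * (η * L) := mul_le_mul_of_nonneg_left c6.2 hκ.le
            have c10 : κ * (-(η * L)) ≤ κ * (Real.log n - L) := mul_le_mul_of_nonneg_left c6.1 hκ.le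
            constructor <;> nlinarith
          have c11 : |L⁻¹ * min (t n) (Λ * L) - κ| ≤ (2 + κ) * η := by
            have e1 : L⁻¹ * min (t n) (Λ * L) - κ = L⁻¹ * (min (t n) (Λ * L) - κ * L) := by field_simp
            rw [e1, abs_mul, abs_of_pos (inv_pos.2 hL0), inv_mul_le_iff₀ hL0]
            have c12 : |min (t n) (Λ * L) - κ * L| ≤ |t n - κ * L| := by
              rcases le_total (t n) (Λ * L) with h5 | h5
              · rw [min_eq_left h5]
              · rw [min_eq_right h5]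
                have h6 : κ * L ≤ Λ * L := mul_le_mul_of_nonneg_right hΛ.le hL0.le
                rw [abs_of_nonneg (by linarith), abs_of_nonneg (by linarith)]
                linarith
            refine c12.trans (c7.trans (le_of_eq ?_))
            ring
          have d2 := mul_nonneg hΛp.le (add_nonneg hxa hxb)
          linarith
    · rw [if_neg hp, abs_zero]
      have d2 := mul_nonneg hΛp.le (add_nonneg hxa hxb)
      have d3 : 0 ≤ (2 + κ) * η := by positivity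
      linarith
  have b2 : ‖∑ n ∈ Icc 1 (W * N), ((err n : ℝ) : ℂ) * Complex.exp (2 * Real.pi * (α * n : ℝ) * Complex.I)‖
      ≤ ε / 2 * (W * N : ℕ) := by
    refine (norm_sum_le _ _).trans ?_
    have e1 : ∀ n ∈ Icc 1 (W * N), ‖((err n : ℝ) : ℂ) * Complex.exp (2 * Real.pi * (α * n : ℝ) * Complex.I)‖
        = |err n| := fun n _ => by rw [norm_mul, exp_norm, mul_one, Complex.norm_real, Real.norm_eq_abs]
    rw [sum_congr rfl e1]
    refine (sum_le_sum key).trans ?_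
    rw [sum_add_distrib, ← mul_sum, sum_add_distrib, sum_const, Nat.card_Icc, Nat.add_sub_cancel, nsmul_eq_mul]
    have f1 : ∑ n ∈ Icc 1 (W * N), (if (n : ℝ) < η * (W * N : ℕ) then (1 : ℝ) else 0) ≤ η * (W * N : ℕ) := by
      rw [← sum_filter, sum_const, nsmul_eq_mul, mul_one]
      have : ((Icc 1 (W * N)).filter (fun n : ℕ => (n : ℝ) < η * (W * N : ℕ))).card ≤ ⌊η * ((W * N : ℕ) : ℝ)⌋₊ := by
        rw [← Nat.add_sub_cancel (n := ⌊η * ((W * N : ℕ) : ℝ)⌋₊) (m := 1), ← Nat.card_Icc]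
        apply card_le_card
        intro n hn
        rw [mem_filter, mem_Icc] at hn
        rw [mem_Icc]
        exact ⟨hn.1.1, Nat.le_floor hn.2.le⟩
      calc (((Icc 1 (W * N)).filter (fun n : ℕ => (n : ℝ) < η * (W * N : ℕ))).card : ℝ)
          ≤ (⌊η * ((W * N : ℕ) : ℝ)⌋₊ : ℝ) := by exact_mod_cast this
        _ ≤ η * (W * N : ℕ) := Nat.floor_le (by positivity)
    have f2 : ∑ n ∈ Icc 1 (W * N), (if (n % 2 = 1 ∧ P n) ∧ η * Real.log n < |t n - κ * Real.log n| then (1 : ℝ) else 0)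
        ≤ η * (W * N : ℕ) := by
      refine le_trans (le_of_eq ?_) a2.le
      rw [cnt_sum]
      exact sum_congr rfl fun n _ => by split_ifs <;> rfl
    have f3 : 0 ≤ Λ + κ := by linarith
    have f4 := mul_le_mul_of_nonneg_left (add_le_add f1 f2) f3
    have f5 : M * η ≤ ε / 2 := by
      calc M * η ≤ M * (ε / (2 * M)) := mul_le_mul_of_nonneg_left hη1 hM0.le
        _ = ε / 2 := by field_simp
    have f6 : M * η * (W * N : ℕ) ≤ ε / 2 * (W * N : ℕ) := mul_le_mul_of_nonneg_right f5 hMN0.le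
    rw [hM] at f6
    linarith
  linarith

/-- truncated averages over the representations with an odd summand -/
theorem war_avg {P : ℕ → Prop} {δ : ℝ} (h : FU P δ) {s : ℕ → ℝ} {κ Λ : ℝ} (hκ : 0 < κ) (hΛ : κ < Λ) (htn : ∀ n, 0 ≤ s n)
    (hl : ∀ η : ℝ, 0 < η → Tendsto (fun N : ℕ =>
      cnt (fun n => (n % 2 = 1 ∧ P n) ∧ η * Real.log n < |s n - κ * Real.log n|) N / N) atTop (𝓝 0))
    (r t B : ℕ) (ht : 1 ≤ t) (C : ℝ) {ε : ℝ} (hε : 0 < ε) :
    ∃ N₀ : ℕ, ∀ N : ℕ, N₀ ≤ N → ∀ (L : Fin r → ℕ) (a : ∀ j, Fin (L j) → ℤ), (∀ j i, |a j i| ≤ N) →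
      ∀ J : Finset (Fin r), 2 * t ≤ J.card → (∀ j ∈ J, Spread t C N (a j)) →
      ∀ n : ℤ, |n| ≤ B * N →
        |repSum (fun m => if m % 2 = 1 then (if P m then min (s m) (Λ * Real.log N) else Λ * Real.log N) else 0) n a
          - (δ * κ + (1 - δ) * Λ) * Real.log N * repSum (fun m => if m % 2 = 1 then 1 else 0) n a|
          ≤ ε * Real.log N * ∏ j, (L j : ℝ) := by
  obtain ⟨ε₁, h1, W, hW, H⟩ := warW (r := r) (B := B) ht C hε
  obtain ⟨N₀, hN₀⟩ := fu_trunc h hκ hΛ htn hl W hW h1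
  refine ⟨N₀ + 1, fun N hN L a ha J hJ hsp n hn => ?_⟩
  obtain ⟨hL1, hF⟩ := hN₀ N (by omega)
  have hL0 : 0 < Real.log N := by linarith
  have h2 := H N (by omega) (fun m => (Real.log N)⁻¹ * (if m % 2 = 1 then (if P m then min (s m) (Λ * Real.log N)
      else Λ * Real.log N) else 0) + (-(δ * κ + (1 - δ) * Λ)) * (if m % 2 = 1 then 1 else 0))
    hF L a ha J hJ hsp n hn
  rw [repSum_lin] at h2
  set A := repSum (fun m => if m % 2 = 1 then (if P m then min (s m) (Λ * Real.log N) else Λ * Real.log N) else 0) n a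
  set D := repSum (fun m => if m % 2 = 1 then (1 : ℝ) else 0) n a
  have e : A - (δ * κ + (1 - δ) * Λ) * Real.log N * D
      = Real.log N * ((Real.log N)⁻¹ * A + -(δ * κ + (1 - δ) * Λ) * D) := by
    field_simp
    ring
  rw [e, abs_mul, abs_of_pos hL0]
  calc _ ≤ Real.log N * (ε * ∏ j, (L j : ℝ)) := mul_le_mul_of_nonneg_left h2 hL0.le
    _ = _ := by ring

/-! ### the parity of the summand -/

/-- the sign of the parity -/
noncomputable def sg (x : ℤ) : ℝ := if Even x then 1 else -1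

theorem sg_sub (x y : ℤ) : sg (x - y) = sg x * sg y := by
  unfold sg
  by_cases hx : Even x <;> by_cases hy : Even y <;> simp [Int.even_sub, hx, hy]

theorem sg_add (x y : ℤ) : sg (x + y) = sg x * sg y := by
  unfold sg
  by_cases hx : Even x <;> by_cases hy : Even y <;> simp [Int.even_add, hx, hy]

theorem sg_sum {ι : Type} (S : Finset ι) (f : ι → ℤ) : sg (∑ j ∈ S, f j) = ∏ j ∈ S, sg (f j) := by
  induction S using Finset.induction_on with
  | empty => simp [sg]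
  | insert j S hj ih => rw [sum_insert hj, prod_insert hj, sg_add, ih]

theorem odd_count {k : ℕ} (hk : 1 ≤ k) {n L r : ℕ}
    (hpos : ∀ v : Fin r → Fin L, 0 < (n : ℤ) - ∑ j, vals (Polynomial.X ^ k) L (v j)) :
    ((L : ℝ) ^ r - 1) / 2 ≤ repSum (fun m => if m % 2 = 1 then 1 else 0) (n : ℤ)
      (fun _ : Fin r => vals (Polynomial.X ^ k) L) := by
  unfold repSum
  have h1 : ∀ v : Fin r → Fin L, (if 0 < (n : ℤ) - ∑ j, vals (Polynomial.X ^ k) L (v j) then
      (if ((n : ℤ) - ∑ j, vals (Polynomial.X ^ k) L (v j)).toNat % 2 = 1 then (1 : ℝ) else 0) else 0)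
      = 1 / 2 - 1 / 2 * (sg n * ∏ j, sg (vals (Polynomial.X ^ k) L (v j))) := by
    intro v
    rw [if_pos (hpos v), ← sg_sum, ← sg_sub]
    have h2 := hpos v
    set x := (n : ℤ) - ∑ j, vals (Polynomial.X ^ k) L (v j) with hx
    unfold sg
    by_cases he : Even x
    · rw [if_pos he, if_neg (by rw [Int.even_iff] at he; omega)]; norm_num
    · rw [if_neg he, if_pos (by rw [Int.even_iff] at he; omega)]; norm_num
  rw [sum_congr rfl (fun v _ => h1 v), sum_sub_distrib, ← mul_sum, ← mul_sum]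
  rw [← Fintype.sum_pow (fun i : Fin L => sg (vals (Polynomial.X ^ k) L i)) r]
  have h3 : |∑ i : Fin L, sg (vals (Polynomial.X ^ k) L i)| ≤ 1 := by
    have e1 : ∀ i : Fin L, sg (vals (Polynomial.X ^ k) L i) = -(-1) ^ (i : ℕ) := by
      intro i
      unfold Pool.Agent.Results.MP_d02c56_nt.WaringProblem.vals sg
      simp only [Polynomial.eval_pow, Polynomial.eval_X]
      rcases Nat.even_or_odd (i : ℕ) with ho | ho
      · rw [ho.neg_one_pow, if_neg]
        rw [Int.even_pow]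
        rintro ⟨h4, _⟩
        have h5 : Even ((i : ℕ) + 1) := by exact_mod_cast h4
        rw [Nat.even_add_one] at h5
        exact h5 ho
      · rw [ho.neg_one_pow, if_pos, neg_neg]
        rw [Int.even_pow]
        refine ⟨?_, by omega⟩
        have h5 : Even ((i : ℕ) + 1) := ho.add_one
        exact_mod_cast h5
    rw [sum_congr rfl (fun i _ => e1 i), sum_neg_distrib, abs_neg,
      Fin.sum_univ_eq_sum_range (fun i => (-1 : ℝ) ^ i) L, neg_one_geom_sum]
    split_ifs <;> norm_num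
  have h4 : |(sg n * (∑ i : Fin L, sg (vals (Polynomial.X ^ k) L i)) ^ r)| ≤ 1 := by
    rw [abs_mul, abs_pow]
    have h5 : |sg (n : ℤ)| = 1 := by unfold sg; split_ifs <;> norm_num
    rw [h5, one_mul]
    exact pow_le_one₀ (abs_nonneg _) h3
  have h6 := (abs_le.1 h4).2
  rw [sum_const, card_univ, Fintype.card_fun, Fintype.card_fin, Fintype.card_fin, nsmul_eq_mul]
  push_cast
  linarith

/-- powers and an odd summand -/
theorem every_odd {k : ℕ} (hk : 1 ≤ k) : ∃ r₀ : ℕ, 1 ≤ r₀ ∧ ∀ r : ℕ, r₀ ≤ r →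
    ∀ (P : ℕ → Prop) (δ : ℝ), FU P δ → 0 < δ → ∃ κ : ℝ, 0 < κ ∧
    ∃ n₀ : ℕ, ∀ n : ℕ, n₀ ≤ n → κ * (n : ℝ) ^ ((r : ℝ) / k) ≤
      polyRepsQ (fun x => x.toNat % 2 = 1 ∧ P x.toNat) n (Polynomial.X ^ k) r := by
  have hdeg : (Polynomial.X ^ k : Polynomial ℤ).natDegree = k := Polynomial.natDegree_X_pow k
  have hF : 1 ≤ (Polynomial.X ^ k : Polynomial ℤ).natDegree := by rw [hdeg]; exact hk
  obtain ⟨t₀, C, hC, hsp⟩ := poly_spread _ hF
  set t : ℕ := t₀ + 1 with ht
  refine ⟨2 * t, by omega, fun r hr P δ hP hδ => ?_⟩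
  obtain ⟨B, hB1, hbox⟩ := Pool.Agent.Q49.WA.boxes hF (r := r) (by omega)
  have hBR : (0 : ℝ) < B := by exact_mod_cast hB1
  obtain ⟨N₀, hN₀⟩ := war_odd hP r t B (by omega) (C * B) (show 0 < δ / 8 by positivity)
  rw [hdeg] at hbox hsp
  refine ⟨δ / 8 * (1 / (B : ℝ)) ^ ((r : ℝ) / k), by positivity, N₀ + B + 1, fun n hn => ?_⟩
  obtain ⟨L, hL1, hL3, hval, hpos, hfin⟩ := hbox n (by omega)
  refine hfin (fun x => x.toNat % 2 = 1 ∧ P x.toNat) (δ / 8) (by positivity) ?_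
  have hL2 : 2 ≤ L := by
    by_contra hcon
    have : L = 1 := by omega
    rw [this, one_pow, mul_one] at hL3
    omega
  have ha : ∀ (j : Fin r) (i : Fin L), |(fun _ : Fin r => vals (Polynomial.X ^ k) L) j i| ≤ (n : ℤ) := fun j i =>
    hval ((i : ℕ) + 1) (Nat.le_add_left 1 _) i.2
  have hspr : ∀ j : Fin r, Spread t (C * B) n ((fun _ : Fin r => vals (Polynomial.X ^ k) L) j) := fun j =>
    hsp t (by omega) B L n (by omega) hL3
  have hnB : |(n : ℤ)| ≤ B * n := by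
    rw [abs_of_nonneg (Nat.cast_nonneg _)]
    exact_mod_cast Nat.le_mul_of_pos_left _ hB1
  have h1 := hN₀ n (by omega) (fun _ => L) (fun _ => vals (Polynomial.X ^ k) L) ha Finset.univ
    (by rw [Finset.card_univ, Fintype.card_fin]; exact hr) (fun j _ => hspr j) n hnB
  simp only [Finset.prod_const, Finset.card_univ, Fintype.card_fin] at h1
  have h2 := odd_count hk hpos
  have h3 : (2 : ℝ) ≤ (L : ℝ) ^ r := by
    calc (2 : ℝ) ≤ L := by exact_mod_cast hL2
      _ = (L : ℝ) ^ 1 := (pow_one _).symm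
      _ ≤ (L : ℝ) ^ r := pow_le_pow_right₀ (by exact_mod_cast hL1) (by omega)
  have h4 : δ * (((L : ℝ) ^ r - 1) / 2) ≤ δ * repSum (fun m => if m % 2 = 1 then 1 else 0) (n : ℤ)
      (fun _ : Fin r => vals (Polynomial.X ^ k) L) := mul_le_mul_of_nonneg_left h2 hδ.le
  have h5 := (abs_le.1 h1).1
  rw [repSum_odd P] at h5
  have h6 : δ * ((L : ℝ) ^ r / 4) ≤ δ * (((L : ℝ) ^ r - 1) / 2) := mul_le_mul_of_nonneg_left (by linarith) hδ.le
  linarith

end Pool.Agent.Q250.CL
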